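import Pool.Agent.SKT.E

/-! # Signed k-subdomination, even order, gap four: one vertex with two neighbours is enough -/

set_option linter.unusedSectionVars false

namespace Pool.Agent.SKT

open Finset

section
variable {V : Type} [Fintype V]

open Classical in
theorem closedSum_ite (G : SimpleGraph V) (M : Finset V) (v : V) :
    closedSum G (fun v => if v ∈ M then -1 else 1) v =
      1 + (dg G univ v : ℤ) - 2 * ((dg G M v : ℤ) + (if v ∈ M then 1 else 0)) := by
  have hval : ∀ v, (if v ∈ M then (-1 : ℤ) else 1) = 1 - 2 * (if v ∈ M then 1 else 0) := by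
    intro v
    split_ifs <;> norm_num
  unfold closedSum
  dsimp only
  rw [hval v, sum_congr rfl fun v _ => hval v, sum_sub_distrib, ← mul_sum]
  have h8 : ∑ u ∈ univ.filter (fun u => G.Adj v u), (if u ∈ M then (1 : ℤ) else 0) =
      (dg G M v : ℤ) := by
    unfold dg
    rw [sum_ite_mem, sum_const, nsmul_eq_mul, mul_one]
    congr 2
    ext u
    simp only [mem_inter, mem_filter, mem_univ, true_and]
    tauto
  have h9 : ∑ u ∈ univ.filter (fun u => G.Adj v u), (1 : ℤ) = (dg G univ v : ℤ) := by
    unfold dg
    rw [sum_const, nsmul_eq_mul, mul_one]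
  rw [h8, h9]
  ring

open Classical in
/-- a set `M` of size `i + 1` such that everything outside a set `K` of size at most `i + 1` is covered -/
theorem good_of_set (G : SimpleGraph V) (i : ℕ) (hcard : Fintype.card V = 2 * i + 6)
    (M K : Finset V) (hM : M.card = i + 1) (hK : K.card ≤ i + 1)
    (h : ∀ v, v ∉ K → 2 * (dg G M v + (if v ∈ M then 1 else 0)) ≤ dg G univ v) : GoodG G i := by
  have hval : ∀ v, (if v ∈ M then (-1 : ℤ) else 1) = 1 - 2 * (if v ∈ M then 1 else 0) := by
    intro v
    split_ifs <;> norm_num
  refine ⟨fun v => if v ∈ M then -1 else 1, ?_, ?_, ?_⟩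
  · intro v
    dsimp only
    split_ifs
    · exact Or.inr rfl
    · exact Or.inl rfl
  · have h4 : ∑ v, (if v ∈ M then (-1 : ℤ) else 1) =
        (Fintype.card V : ℤ) - 2 * (M.card : ℤ) := by
      rw [sum_congr rfl fun v _ => hval v, sum_sub_distrib, ← mul_sum]
      simp
    rw [h4, hcard, hM]
    push_cast
    ring
  · have h5 : Kᶜ ⊆ univ.filter
        (fun v => 1 ≤ closedSum G (fun v => if v ∈ M then -1 else 1) v) := by
      intro v hv
      rw [mem_compl] at hv
      rw [mem_filter]
      refine ⟨mem_univ _, ?_⟩
      rw [closedSum_ite]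
      have h6 := h v hv
      split_ifs at h6 ⊢ <;> omega
    refine le_trans ?_ (card_le_card h5)
    have h7 := card_compl_add_card K
    rw [hcard] at h7
    omega

/-- adjacency-closed sets inside a set `W` of vertices of degree one with neighbours in `W` -/
theorem exists_closed_sub (G : SimpleGraph V) (W : Finset V)
    (h : ∀ w, w ∈ W → ∃ w', w' ∈ W ∧ w' ≠ w ∧ G.Adj w w' ∧ (∀ u, G.Adj w u → u = w')) :
    ∀ x : ℕ, 2 * x ≤ W.card → ∃ T : Finset V, T ⊆ W ∧ T.card = 2 * x ∧
      ∀ u v, G.Adj u v → u ∈ T → v ∈ T := by
  classical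
  intro x
  induction x with
  | zero =>
    intro _
    exact ⟨∅, empty_subset _, by simp, fun u v _ hu => absurd hu (notMem_empty _)⟩
  | succ x ih =>
    intro hx
    obtain ⟨T, hTW, hT, hcl⟩ := ih (by omega)
    obtain ⟨w, hw, hwT⟩ : ∃ w ∈ W, w ∉ T := by
      by_contra hno
      push Not at hno
      have : W ⊆ T := hno
      have := card_le_card this
      omega
    obtain ⟨w', hw', hne, hadj, huniq⟩ := h w hw
    obtain ⟨w'', hw'', hne', hadj', huniq'⟩ := h w' hw'
    have hw2 : w = w'' := huniq' w hadj.symm
    have hw'T : w' ∉ T := fun q => hwT (hcl w' w hadj.symm q)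
    refine ⟨insert w (insert w' T), ?_, ?_, ?_⟩
    · intro u hu
      rw [mem_insert, mem_insert] at hu
      rcases hu with rfl | rfl | hu
      · exact hw
      · exact hw'
      · exact hTW hu
    · rw [card_insert_of_notMem, card_insert_of_notMem hw'T, hT]
      · ring
      · rw [mem_insert, not_or]
        exact ⟨hne.symm, hwT⟩
    · intro u v huv hu
      rw [mem_insert, mem_insert] at hu ⊢
      rcases hu with rfl | rfl | hu
      · exact Or.inr (Or.inl (huniq v huv))
      · exact Or.inl ((huniq' v huv).trans hw2.symm)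
      · exact Or.inr (Or.inr (hcl u v huv hu))

open Classical in
theorem dg_eq_one_iff (G : SimpleGraph V) {v : V} (h : dg G univ v = 1) :
    ∃ w, G.Adj v w ∧ ∀ u, G.Adj v u → u = w := by
  obtain ⟨w, hw⟩ := card_eq_one.1 (show (univ.filter (fun u => G.Adj v u)).card = 1 from h)
  refine ⟨w, ?_, ?_⟩
  · have : w ∈ univ.filter (fun u => G.Adj v u) := by rw [hw]; exact mem_singleton_self _
    exact (mem_filter.1 this).2
  · intro u hu
    have : u ∈ univ.filter (fun u => G.Adj v u) := mem_filter.2 ⟨mem_univ _, hu⟩
    rw [hw] at this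
    exact mem_singleton.1 this

open Classical in
theorem dg_eq_two_nb (G : SimpleGraph V) {v a : V} (h : dg G univ v = 2) (ha : G.Adj v a) :
    ∃ d, d ≠ a ∧ G.Adj v d ∧ ∀ u, G.Adj v u → u = a ∨ u = d := by
  have h1 : ((univ.filter (fun u => G.Adj v u)).erase a).card = 1 := by
    have h2 : (univ.filter (fun u => G.Adj v u)).card = 2 := h
    rw [card_erase_of_mem (mem_filter.2 ⟨mem_univ _, ha⟩), h2]
  obtain ⟨d, hd⟩ := card_eq_one.1 h1
  have h2 : d ∈ (univ.filter (fun u => G.Adj v u)).erase a := by
    rw [hd]; exact mem_singleton_self _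
  rw [mem_erase, mem_filter] at h2
  refine ⟨d, h2.1, h2.2.2, ?_⟩
  intro u hu
  by_cases hua : u = a
  · exact Or.inl hua
  · right
    have : u ∈ (univ.filter (fun u => G.Adj v u)).erase a :=
      mem_erase.2 ⟨hua, mem_filter.2 ⟨mem_univ _, hu⟩⟩
    rw [hd] at this
    exact mem_singleton.1 this

open Classical in
/-- a path on four vertices and a perfect matching -/
theorem good_of_path (G : SimpleGraph V) (i : ℕ) (hcard : Fintype.card V = 2 * i + 6)
    {a b c : V} (hab : G.Adj a b) (hac : G.Adj a c) (hbc : b ≠ c)
    (ha : dg G univ a = 2) (hb : dg G univ b = 2) (hc : dg G univ c = 1)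
    (hrest : ∀ v, v ≠ a → v ≠ b → v ≠ c → dg G univ v = 1) : GoodG G i := by
  obtain ⟨c', hc', hac', hNa⟩ := dg_eq_two_nb G ha hab
  have hcc : c = c' := by
    rcases hNa c hac with h | h
    · exact absurd h.symm hbc
    · exact h
  obtain ⟨d, hd, hbd, hNb⟩ := dg_eq_two_nb G hb hab.symm
  obtain ⟨a', haa', hNc⟩ := dg_eq_one_iff G hc
  have haa : a = a' := hNc a hac.symm
  have hdb : d ≠ b := fun q => G.irrefl (q ▸ hbd)
  have hdc : d ≠ c := by
    intro q
    have h1 := hNc b (q ▸ hbd.symm)
    rw [← haa] at h1
    exact hab.ne h1.symm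
  have hdd := hrest d hd hdb hdc
  obtain ⟨b', hbb', hNd⟩ := dg_eq_one_iff G hdd
  have hbb : b = b' := hNd b hbd.symm
  subst hcc haa hbb
  set W : Finset V := univ \ {a, b, c, d} with hW
  have hmem : ∀ w, w ∈ W ↔ (w ≠ a ∧ w ≠ b ∧ w ≠ c ∧ w ≠ d) := by
    intro w
    rw [hW, mem_sdiff]
    simp only [mem_univ, true_and, mem_insert, mem_singleton, not_or]
  have hWc : 2 * i + 2 ≤ W.card := by
    have h1 : W.card + ({a, b, c, d} : Finset V).card = 2 * i + 6 := by
      rw [hW, ← hcard, ← card_univ]
      exact card_sdiff_add_card_eq_card (subset_univ _)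
    have h2 : ({a, b, c, d} : Finset V).card ≤ 4 := card_le_four
    omega
  have hWn : ∀ w, w ∈ W → ∃ w', w' ∈ W ∧ w' ≠ w ∧ G.Adj w w' ∧ (∀ u, G.Adj w u → u = w') := by
    intro w hw
    obtain ⟨h1, h2, h3, h4⟩ := (hmem w).1 hw
    obtain ⟨w', hw', huniq⟩ := dg_eq_one_iff G (hrest w h1 h2 h3)
    refine ⟨w', ?_, hw'.ne', hw', huniq⟩
    rw [hmem]
    refine ⟨?_, ?_, ?_, ?_⟩
    · rintro rfl
      rcases hNa w hw'.symm with h | h
      · exact h2 h
      · exact h3 h
    · rintro rfl
      rcases hNb w hw'.symm with h | h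
      · exact h1 h
      · exact h4 h
    · rintro rfl
      exact h1 (hNc w hw'.symm)
    · rintro rfl
      exact h2 (hNd w hw'.symm)
  rcases Nat.even_or_odd i with ⟨x, hx⟩ | ⟨x, hx⟩
  · -- `i` even
    obtain ⟨T, hTW, hT, hcl⟩ := exists_closed_sub G W hWn x (by omega)
    have haT : a ∉ T := fun q => ((hmem a).1 (hTW q)).1 rfl
    have hcT : c ∉ T := fun q => ((hmem c).1 (hTW q)).2.2.1 rfl
    refine good_of_set G i hcard (insert a T) (insert c T) ?_ ?_ ?_
    · rw [card_insert_of_notMem haT, hT]; omega
    · rw [card_insert_of_notMem hcT, hT]; omega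
    · intro v hv
      rw [mem_insert, not_or] at hv
      have hv0 : dg G T v = 0 := by
        unfold dg
        rw [card_eq_zero, filter_eq_empty_iff]
        intro u hu huv
        exact hv.2 (hcl u v huv.symm hu)
      rw [dg_insert G haT, hv0]
      by_cases hva : v = a
      · subst hva
        rw [if_neg (G.irrefl), if_pos (mem_insert_self _ _), ha]
      · have hvn : v ∉ insert a T := by rw [mem_insert, not_or]; exact ⟨hva, hv.2⟩
        rw [if_neg hvn]
        by_cases hadj : G.Adj v a
        · rw [if_pos hadj]
          rcases hNa v hadj.symm with h | h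
          · rw [h, hb]
          · exact absurd h hv.1
        · rw [if_neg hadj]
          omega
  · -- `i` odd
    obtain ⟨T, hTW, hT, hcl⟩ := exists_closed_sub G W hWn (x + 1) (by omega)
    refine good_of_set G i hcard T T (by rw [hT]; omega) (by rw [hT]; omega) ?_
    intro v hv
    have hv0 : dg G T v = 0 := by
      unfold dg
      rw [card_eq_zero, filter_eq_empty_iff]
      intro u hu huv
      exact hv (hcl u v huv.symm hu)
    rw [hv0, if_neg hv]
    omega

open Classical in
/-- one vertex with two neighbours -/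
theorem good_of_deg2 (hmain : MainOdd V) (G : SimpleGraph V) (i : ℕ)
    (hcard : Fintype.card V = 2 * i + 6) {a b c : V} (hab : G.Adj a b) (hac : G.Adj a c)
    (hbc : b ≠ c) :
    ∃ f : V → ℤ, (∀ v, f v = 1 ∨ f v = -1) ∧ ∑ v, f v = 4 ∧
      i + 5 ≤ (Finset.univ.filter (fun v => 1 ≤ closedSum G f v)).card := by
  by_cases h3 : ∃ a, 3 ≤ dg G univ a
  · exact good_of_three hmain i hcard _ G rfl h3
  push Not at h3
  have hpos : ∀ {u v : V}, G.Adj u v → 1 ≤ dg G univ u := by
    intro u v huv
    unfold dg
    exact card_pos.2 ⟨v, mem_filter.2 ⟨mem_univ _, huv⟩⟩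
  have ha : dg G univ a = 2 := by
    have h1 : ({b, c} : Finset V) ⊆ univ.filter (fun u => G.Adj a u) := by
      intro u hu
      rw [mem_insert, mem_singleton] at hu
      rw [mem_filter]
      refine ⟨mem_univ _, ?_⟩
      rcases hu with rfl | rfl
      · exact hab
      · exact hac
    have h2 : 2 ≤ dg G univ a := by
      have h2 := card_le_card h1
      rw [card_pair hbc] at h2
      exact h2
    have := h3 a
    omega
  obtain ⟨c', hc', hac', hNa⟩ := dg_eq_two_nb G ha hab
  have hcc : c = c' := by
    rcases hNa c hac with h | h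
    · exact absurd h.symm hbc
    · exact h
  subst hcc
  by_cases hx : ∃ a', a' ≠ a ∧ a' ≠ b ∧ a' ≠ c ∧ Even (dg G univ a')
  · obtain ⟨a', h4, h5, h6, h7⟩ := hx
    have hna : ¬ G.Adj a a' := by
      intro q
      rcases hNa a' q with h | h
      · exact h5 h
      · exact h6 h
    refine good_of_flip G i h4.symm (by rw [ha]; exact even_two) h7 ?_
    refine good_of_three hmain i hcard _ _ rfl ⟨a, ?_⟩
    have h13 := dg_flip_x G h4.symm
    rw [if_neg hna, ha] at h13
    omega
  · push Not at hx
    have hrest : ∀ v, v ≠ a → v ≠ b → v ≠ c → dg G univ v = 1 := by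
      intro v h4 h5 h6
      have h7 := hx v h4 h5 h6
      have h8 := h3 v
      rw [Nat.not_even_iff] at h7
      omega
    have hev := even_ev G hcard
    have hevmem : ∀ v, v ∈ ev G ↔ Even (dg G univ v) := by
      intro v
      unfold ev
      rw [mem_filter]
      exact ⟨fun h => h.2, fun h => ⟨mem_univ _, h⟩⟩
    have haev : Even (dg G univ a) := by rw [ha]; exact even_two
    have hb1 := hpos hab.symm
    have hc1 := hpos hac.symm
    have hb2 := h3 b
    have hc2 := h3 c
    by_cases hbe : Even (dg G univ b)
    · have hb : dg G univ b = 2 := by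
        rw [Nat.even_iff] at hbe
        omega
      by_cases hce : Even (dg G univ c)
      · exfalso
        have h9 : ev G = {a, b, c} := by
          ext v
          rw [hevmem]
          simp only [mem_insert, mem_singleton]
          constructor
          · intro q
            by_contra hno
            push Not at hno
            exact hx v hno.1 hno.2.1 hno.2.2 q
          · rintro (rfl | rfl | rfl)
            · exact haev
            · exact hbe
            · exact hce
        rw [h9, card_eq_three.2 ⟨a, b, c, hab.ne, hac.ne, hbc, rfl⟩, Nat.even_iff] at hev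
        omega
      · have hc : dg G univ c = 1 := by
          rw [Nat.even_iff] at hce
          omega
        exact good_of_path G i hcard hab hac hbc ha hb hc hrest
    · have hb : dg G univ b = 1 := by
        rw [Nat.even_iff] at hbe
        omega
      by_cases hce : Even (dg G univ c)
      · have hc : dg G univ c = 2 := by
          rw [Nat.even_iff] at hce
          omega
        exact good_of_path G i hcard hac hab hbc.symm ha hc hb
          (fun v h4 h5 h6 => hrest v h4 h6 h5)
      · exfalso
        have h9 : ev G = {a} := by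
          ext v
          rw [hevmem, mem_singleton]
          constructor
          · intro q
            by_contra hno
            by_cases hvb : v = b
            · exact hbe (hvb ▸ q)
            by_cases hvc : v = c
            · exact hce (hvc ▸ q)
            exact hx v hno hvb hvc q
          · rintro rfl
            exact haev
        rw [h9, card_singleton, Nat.even_iff] at hev
        omega

end

end Pool.Agent.SKT
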