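import Pool.Agent.SKT.Defs

/-! # Signed k-subdomination, even order, gap four: from all-odd graphs to every graph -/

set_option linter.unusedSectionVars false

namespace Pool.Agent.SKT

open Finset

open Classical in
/-- The closed neighbourhood sum `f[v]`. -/
noncomputable def closedSum {V : Type} [Fintype V] (G : SimpleGraph V) (f : V → ℤ) (v : V) : ℤ :=
  f v + ∑ u ∈ Finset.univ.filter (fun u => G.Adj v u), f u

open Classical in
/-- Theorem A for the vertex set `V`, taken as a hypothesis in this file -/
def MainOdd (V : Type) [Fintype V] : Prop :=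
  ∀ (G : SimpleGraph V) (p : V → ℕ) (i : ℕ), (∀ v, dg G univ v = 2 * p v + 1) →
    Fintype.card V = 2 * i + 6 → ∀ a b c : V, G.Adj a b → G.Adj a c → b ≠ c →
    ∃ M : Finset V, M.card = i + 1 ∧ (unc G p M).card ≤ i + 1

/-- `G` with the pair `x`, `y` flipped -/
def flipG {V : Type} (G : SimpleGraph V) (x y : V) (hxy : x ≠ y) : SimpleGraph V where
  Adj u v := (((u = x ∧ v = y) ∨ (u = y ∧ v = x)) ∧ ¬ G.Adj u v) ∨
    (¬ ((u = x ∧ v = y) ∨ (u = y ∧ v = x)) ∧ G.Adj u v)
  symm := ⟨by
    intro u v h
    have h1 := G.adj_comm u v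
    tauto⟩
  loopless := ⟨by
    intro u h
    rcases h with ⟨h1, -⟩ | ⟨-, h2⟩
    · rcases h1 with ⟨h3, h4⟩ | ⟨h3, h4⟩
      · exact hxy (h3.symm.trans h4)
      · exact hxy (h4.symm.trans h3)
    · exact G.irrefl h2⟩

section
variable {V : Type} [Fintype V]

theorem flip_comm (G : SimpleGraph V) (x y : V) (hxy : x ≠ y) :
    flipG G x y hxy = flipG G y x hxy.symm := by
  ext u v
  simp only [flipG]
  tauto

open Classical in
theorem closedSum_eq (G : SimpleGraph V) (f : V → ℤ) (v : V) :
    closedSum G f v = f v + ∑ u, (if G.Adj v u then f u else 0) := by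
  unfold closedSum
  rw [sum_filter]

theorem flip_sum_ne (G : SimpleGraph V) {x y : V} (hxy : x ≠ y) (f : V → ℤ) {v : V}
    (hx : v ≠ x) (hy : v ≠ y) : closedSum (flipG G x y hxy) f v = closedSum G f v := by
  classical
  rw [closedSum_eq, closedSum_eq]
  congr 1
  refine sum_congr rfl fun u _ => ?_
  have h : (flipG G x y hxy).Adj v u ↔ G.Adj v u := by
    simp only [flipG]
    tauto
  simp only [h]

open Classical in
theorem flip_sum_x (G : SimpleGraph V) {x y : V} (hxy : x ≠ y) (f : V → ℤ) :
    closedSum (flipG G x y hxy) f x = closedSum G f x + (if G.Adj x y then - f y else f y) := by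
  rw [closedSum_eq, closedSum_eq, add_assoc]
  congr 1
  have h1 : ∀ u, (if (flipG G x y hxy).Adj x u then f u else 0) =
      (if G.Adj x u then f u else 0) +
        (if u = y then (if G.Adj x y then - f y else f y) else 0) := by
    intro u
    by_cases hu : u = y
    · subst hu
      have h : (flipG G x u hxy).Adj x u ↔ ¬ G.Adj x u := by
        simp only [flipG]
        tauto
      by_cases h2 : G.Adj x u
      · rw [if_neg (by rw [h]; exact not_not.2 h2), if_pos h2, if_pos rfl, if_pos h2]
        ring
      · rw [if_pos (h.2 h2), if_neg h2, if_pos rfl, if_neg h2]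
        ring
    · have h : (flipG G x y hxy).Adj x u ↔ G.Adj x u := by
        simp only [flipG]
        tauto
      rw [if_neg hu, add_zero]
      simp only [h]
  rw [sum_congr rfl fun u _ => h1 u, sum_add_distrib, sum_ite_eq' univ y]
  rw [if_pos (mem_univ _)]

theorem flip_sum_y (G : SimpleGraph V) {x y : V} (hxy : x ≠ y) (f : V → ℤ)
    [Decidable (G.Adj y x)] :
    closedSum (flipG G x y hxy) f y = closedSum G f y + (if G.Adj y x then - f x else f x) := by
  rw [flip_comm, flip_sum_x]
  congr 1
  split_ifs <;> rfl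

open Classical in
/-- constant sums count degrees -/
theorem closedSum_one (G : SimpleGraph V) (v : V) :
    closedSum G (fun _ => 1) v = 1 + (dg G univ v : ℤ) := by
  unfold closedSum dg
  rw [sum_const]
  simp

theorem closedSum_parity (G : SimpleGraph V) {f : V → ℤ} (hf : ∀ v, f v = 1 ∨ f v = -1) (v : V) :
    (2 : ℤ) ∣ closedSum G (fun _ => 1) v - closedSum G f v := by
  classical
  have h1 : ∀ u, (2 : ℤ) ∣ 1 - f u := by
    intro u
    rcases hf u with h | h <;> rw [h]
    · exact ⟨0, by norm_num⟩
    · exact ⟨1, by norm_num⟩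
  have h2 : closedSum G (fun _ => 1) v - closedSum G f v =
      (1 - f v) + ∑ u ∈ univ.filter (fun u => G.Adj v u), (1 - f u) := by
    unfold closedSum
    rw [sum_sub_distrib]
    ring
  rw [h2]
  exact dvd_add (h1 v) (dvd_sum fun u _ => h1 u)

open Classical in
theorem dg_flip_ne (G : SimpleGraph V) {x y : V} (hxy : x ≠ y) {v : V}
    (hx : v ≠ x) (hy : v ≠ y) : dg (flipG G x y hxy) univ v = dg G univ v := by
  have h1 := flip_sum_ne G hxy (fun _ => 1) hx hy
  rw [closedSum_one, closedSum_one] at h1
  omega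

open Classical in
theorem dg_flip_x (G : SimpleGraph V) {x y : V} (hxy : x ≠ y) :
    (dg (flipG G x y hxy) univ x : ℤ) = dg G univ x + (if G.Adj x y then -1 else 1) := by
  have h1 := flip_sum_x G hxy (fun _ => 1)
  rw [closedSum_one, closedSum_one] at h1
  omega

open Classical in
theorem dg_flip_y (G : SimpleGraph V) {x y : V} (hxy : x ≠ y) :
    (dg (flipG G x y hxy) univ y : ℤ) = dg G univ y + (if G.Adj y x then -1 else 1) := by
  have h1 := flip_sum_y G hxy (fun _ => 1)
  rw [closedSum_one, closedSum_one] at h1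
  omega

open Classical in
/-- one step of the transfer at an endpoint of the flipped pair -/
theorem step_x (G : SimpleGraph V) {x y : V} (hxy : x ≠ y) {f : V → ℤ}
    (hf : ∀ v, f v = 1 ∨ f v = -1) (hx : Even (dg G univ x))
    (h : 1 ≤ closedSum (flipG G x y hxy) f x) : 1 ≤ closedSum G f x := by
  have h1 := flip_sum_x G hxy f
  have h2 := closedSum_parity (flipG G x y hxy) hf x
  rw [closedSum_one] at h2
  have h3 := dg_flip_x G hxy
  obtain ⟨k, hk⟩ := hx
  obtain ⟨l, hl⟩ := h2
  have h4 := hf y
  split_ifs at h1 h3 <;> omega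

open Classical in
theorem flip_transfer (G : SimpleGraph V) {x y : V} (hxy : x ≠ y) {f : V → ℤ}
    (hf : ∀ v, f v = 1 ∨ f v = -1) (hx : Even (dg G univ x)) (hy : Even (dg G univ y)) (v : V)
    (h : 1 ≤ closedSum (flipG G x y hxy) f v) : 1 ≤ closedSum G f v := by
  by_cases hvx : v = x
  · subst hvx
    exact step_x G hxy hf hx h
  · by_cases hvy : v = y
    · subst hvy
      rw [flip_comm] at h
      exact step_x G hxy.symm hf hy h
    · rwa [flip_sum_ne G hxy f hvx hvy] at h

open Classical in
/-- the conclusion for one graph -/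
def GoodG (G : SimpleGraph V) (i : ℕ) : Prop :=
  ∃ f : V → ℤ, (∀ v, f v = 1 ∨ f v = -1) ∧ ∑ v, f v = 4 ∧
      i + 5 ≤ (Finset.univ.filter (fun v => 1 ≤ closedSum G f v)).card

open Classical in
theorem good_of_flip (G : SimpleGraph V) (i : ℕ) {x y : V} (hxy : x ≠ y)
    (hx : Even (dg G univ x)) (hy : Even (dg G univ y)) (h : GoodG (flipG G x y hxy) i) :
    GoodG G i := by
  obtain ⟨f, hf, hs, hc⟩ := h
  refine ⟨f, hf, hs, hc.trans (card_le_card ?_)⟩
  intro v hv
  rw [mem_filter] at hv ⊢
  exact ⟨hv.1, flip_transfer G hxy hf hx hy v hv.2⟩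

open Classical in
theorem degree_eq_dg (G : SimpleGraph V) (v : V) : G.degree v = dg G univ v := by
  rw [← SimpleGraph.card_neighborFinset_eq_degree, SimpleGraph.neighborFinset_eq_filter]
  rfl

open Classical in
/-- vertices of even degree -/
noncomputable def ev (G : SimpleGraph V) : Finset V := univ.filter (fun v => Even (dg G univ v))

open Classical in
theorem even_ev (G : SimpleGraph V) {i : ℕ} (hcard : Fintype.card V = 2 * i + 6) :
    Even (ev G).card := by
  have h1 := G.even_card_odd_degree_vertices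
  have h2 : (univ.filter (fun v => Odd (G.degree v))).card + (ev G).card = 2 * i + 6 := by
    rw [← hcard, ← card_univ, ← card_filter_add_card_filter_not (s := (univ : Finset V))
      (fun v => Odd (G.degree v))]
    congr 2
    unfold ev
    refine filter_congr fun v _ => ?_
    rw [degree_eq_dg, Nat.not_odd_iff_even]
  obtain ⟨k, hk⟩ := h1
  refine ⟨i + 3 - k, ?_⟩
  omega

open Classical in
/-- the all-odd case from Theorem A -/
theorem good_of_odd (hmain : MainOdd V) (G : SimpleGraph V) (i : ℕ)
    (hcard : Fintype.card V = 2 * i + 6) (hev : ev G = ∅) {a : V} (ha : 3 ≤ dg G univ a) :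
    GoodG G i := by
  have hodd : ∀ v, dg G univ v = 2 * ((dg G univ v - 1) / 2) + 1 := by
    intro v
    have h1 : v ∉ ev G := by rw [hev]; exact notMem_empty _
    have h2 : ¬ Even (dg G univ v) := fun q => h1 (mem_filter.2 ⟨mem_univ _, q⟩)
    rw [Nat.even_iff] at h2
    omega
  have h3 : 1 < (univ.filter (fun u => G.Adj a u)).card := by
    have : 3 ≤ (univ.filter (fun u => G.Adj a u)).card := ha
    omega
  obtain ⟨b, hb, c, hc, hbc⟩ := one_lt_card.1 h3
  obtain ⟨M, hM, hu⟩ := hmain G (fun v => (dg G univ v - 1) / 2) i hodd hcard a b c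
    (mem_filter.1 hb).2 (mem_filter.1 hc).2 hbc
  have hval : ∀ v, (if v ∈ M then (-1 : ℤ) else 1) = 1 - 2 * (if v ∈ M then 1 else 0) := by
    intro v
    split_ifs <;> norm_num
  refine ⟨fun v => if v ∈ M then -1 else 1, ?_, ?_, ?_⟩
  · intro v
    dsimp only
    split_ifs
    · exact Or.inr rfl
    · exact Or.inl rfl
  · have h4 : ∑ v, (if v ∈ M then (-1 : ℤ) else 1) =
        (Fintype.card V : ℤ) - 2 * (M.card : ℤ) := by
      rw [sum_congr rfl fun v _ => hval v, sum_sub_distrib, ← mul_sum]
      simp
    rw [h4, hcard, hM]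
    push_cast
    ring
  · have h5 : univ.filter (fun v => v ∉ unc G (fun v => (dg G univ v - 1) / 2) M) ⊆
        univ.filter (fun v => 1 ≤ closedSum G (fun v => if v ∈ M then -1 else 1) v) := by
      intro v hv
      rw [mem_filter] at hv ⊢
      refine ⟨hv.1, ?_⟩
      have h6 : ¬ ((dg G univ v - 1) / 2 + 1 ≤ dg G M v + (if v ∈ M then 1 else 0)) :=
        fun q => hv.2 (mem_filter.2 ⟨mem_univ _, q⟩)
      have h7 : closedSum G (fun v => if v ∈ M then -1 else 1) v =
          1 + (dg G univ v : ℤ) - 2 * ((dg G M v : ℤ) + (if v ∈ M then 1 else 0)) := by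
        unfold closedSum
        dsimp only
        rw [hval v, sum_congr rfl fun v _ => hval v, sum_sub_distrib, ← mul_sum]
        have h8 : ∑ u ∈ univ.filter (fun u => G.Adj v u), (if u ∈ M then (1 : ℤ) else 0) =
            (dg G M v : ℤ) := by
          unfold dg
          rw [sum_ite_mem, sum_const, nsmul_eq_mul, mul_one]
          congr 2
          ext u
          simp only [mem_inter, mem_filter, mem_univ, true_and]
          tauto
        have h9 : ∑ u ∈ univ.filter (fun u => G.Adj v u), (1 : ℤ) = (dg G univ v : ℤ) := by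
          unfold dg
          rw [sum_const, nsmul_eq_mul, mul_one]
        rw [h8, h9]
        ring
      rw [h7]
      have h10 := hodd v
      split_ifs at h6 ⊢ <;> omega
    refine le_trans ?_ (card_le_card h5)
    have h11 := card_filter_add_card_filter_not (s := (univ : Finset V))
      (fun v => v ∈ unc G (fun v => (dg G univ v - 1) / 2) M)
    rw [card_univ, hcard] at h11
    have h12 : (univ.filter (fun v => v ∈ unc G (fun v => (dg G univ v - 1) / 2) M)).card =
        (unc G (fun v => (dg G univ v - 1) / 2) M).card := by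
      congr 1
      ext v
      simp
    omega

open Classical in
theorem good_of_three (hmain : MainOdd V) (i : ℕ) (hcard : Fintype.card V = 2 * i + 6) :
    ∀ (N : ℕ) (G : SimpleGraph V), (ev G).card = N → (∃ a, 3 ≤ dg G univ a) → GoodG G i := by
  intro N
  induction N using Nat.strong_induction_on with
  | _ N ih =>
    intro G hN ha
    obtain ⟨a, ha⟩ := ha
    by_cases hev : ev G = ∅
    · exact good_of_odd hmain G i hcard hev ha
    have h1 : (ev G).card ≠ 0 := fun q => hev (card_eq_zero.1 q)
    have h2 := even_ev G hcard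
    have h3 : 1 < (ev G).card := by
      obtain ⟨k, hk⟩ := h2
      omega
    obtain ⟨x, hx, y, hy, hxy⟩ := one_lt_card.1 h3
    have hx' : Even (dg G univ x) := (mem_filter.1 hx).2
    have hy' : Even (dg G univ y) := (mem_filter.1 hy).2
    have h4 := dg_flip_x G hxy
    have h5 := dg_flip_y G hxy
    refine good_of_flip G i hxy hx' hy' (ih (ev (flipG G x y hxy)).card ?_ _ rfl ?_)
    · rw [← hN]
      refine card_lt_card ?_
      rw [ssubset_iff_of_subset]
      · refine ⟨x, hx, ?_⟩
        intro q
        have h6 : Even (dg (flipG G x y hxy) univ x) := (mem_filter.1 q).2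
        obtain ⟨k, hk⟩ := h6
        obtain ⟨l, hl⟩ := hx'
        split_ifs at h4 <;> omega
      · intro v hv
        have h6 : Even (dg (flipG G x y hxy) univ v) := (mem_filter.1 hv).2
        by_cases hvx : v = x
        · rwa [hvx]
        by_cases hvy : v = y
        · rwa [hvy]
        rw [dg_flip_ne G hxy hvx hvy] at h6
        exact mem_filter.2 ⟨mem_univ _, h6⟩
    · refine ⟨a, ?_⟩
      by_cases hax : a = x
      · subst hax
        obtain ⟨l, hl⟩ := hx'
        split_ifs at h4 <;> omega
      by_cases hay : a = y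
      · subst hay
        obtain ⟨l, hl⟩ := hy'
        split_ifs at h5 <;> omega
      rwa [dg_flip_ne G hxy hax hay]

open Classical in
/-- E1 -/
theorem good_of_deg3 (hmain : MainOdd V) (G : SimpleGraph V) (i : ℕ)
    (hcard : Fintype.card V = 2 * i + 6) {a b c d : V} (hab : G.Adj a b) (hac : G.Adj a c)
    (had : G.Adj a d) (hbc : b ≠ c) (hbd : b ≠ d) (hcd : c ≠ d) :
    ∃ f : V → ℤ, (∀ v, f v = 1 ∨ f v = -1) ∧ ∑ v, f v = 4 ∧
      i + 5 ≤ (Finset.univ.filter (fun v => 1 ≤ closedSum G f v)).card := by
  refine good_of_three hmain i hcard _ G rfl ⟨a, ?_⟩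
  have h1 : ({b, c, d} : Finset V) ⊆ univ.filter (fun u => G.Adj a u) := by
    intro u hu
    simp only [mem_insert, mem_singleton] at hu
    rw [mem_filter]
    refine ⟨mem_univ _, ?_⟩
    rcases hu with rfl | rfl | rfl
    · exact hab
    · exact hac
    · exact had
  have h2 := card_le_card h1
  rw [card_eq_three.2 ⟨b, c, d, hbc, hbd, hcd, rfl⟩] at h2
  exact h2

open Classical in
/-- E2 -/
theorem good_of_connected (hmain : MainOdd V) (G : SimpleGraph V) (i : ℕ)
    (hcard : Fintype.card V = 2 * i + 6) (hG : G.Connected) :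
    ∃ f : V → ℤ, (∀ v, f v = 1 ∨ f v = -1) ∧ ∑ v, f v = 4 ∧
      i + 5 ≤ (Finset.univ.filter (fun v => 1 ≤ closedSum G f v)).card := by
  by_cases h3 : ∃ a, 3 ≤ dg G univ a
  · exact good_of_three hmain i hcard _ G rfl h3
  push Not at h3
  have h1 := hG.card_vert_le_card_edgeSet_add_one
  have h2 := G.sum_degrees_eq_twice_card_edges
  rw [Nat.card_eq_fintype_card, hcard, Nat.card_eq_fintype_card, ← SimpleGraph.edgeFinset_card]
    at h1
  have h4 : ∑ v, dg G univ v = 2 * G.edgeFinset.card := by
    rw [← h2]
    exact sum_congr rfl fun v _ => (degree_eq_dg G v).symm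
  -- the number of vertices of degree two
  set T := univ.filter (fun v => dg G univ v = 2) with hT
  have h5 : ∑ v, dg G univ v ≤ ∑ v, (1 + (if dg G univ v = 2 then 1 else 0)) := by
    refine sum_le_sum fun v _ => ?_
    have := h3 v
    split_ifs <;> omega
  have h6 : ∑ v, (1 + (if dg G univ v = 2 then 1 else 0)) = (2 * i + 6) + T.card := by
    rw [sum_add_distrib, sum_const, card_univ, hcard, hT, card_filter]
    simp
  have h7 : 4 ≤ T.card := by omega
  -- a vertex of degree two and its two neighbours
  obtain ⟨a, ha⟩ : T.Nonempty := card_pos.1 (by omega)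
  have ha2 : dg G univ a = 2 := (mem_filter.1 ha).2
  obtain ⟨b, c, hbc, hN⟩ := card_eq_two.1 (show (univ.filter (fun u => G.Adj a u)).card = 2 from ha2)
  have h8 : ((T.erase a).erase b).erase c ≠ ∅ := by
    intro q
    have h9 := pred_card_le_card_erase (s := T) (a := a)
    have h10 := pred_card_le_card_erase (s := T.erase a) (a := b)
    have h11 := pred_card_le_card_erase (s := (T.erase a).erase b) (a := c)
    rw [q, card_empty] at h11
    omega
  obtain ⟨a', ha'⟩ := nonempty_iff_ne_empty.2 h8
  rw [mem_erase, mem_erase, mem_erase] at ha'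
  obtain ⟨hc', hb', haa, haT⟩ := ha'
  have ha2' : dg G univ a' = 2 := (mem_filter.1 haT).2
  have hna : ¬ G.Adj a a' := by
    intro q
    have h12 : a' ∈ univ.filter (fun u => G.Adj a u) := mem_filter.2 ⟨mem_univ _, q⟩
    rw [hN, mem_insert, mem_singleton] at h12
    rcases h12 with h | h
    · exact hb' h
    · exact hc' h
  have hxy : a ≠ a' := haa.symm
  refine good_of_flip G i hxy (by rw [ha2]; exact even_two) (by rw [ha2']; exact even_two) ?_
  refine good_of_three hmain i hcard _ _ rfl ⟨a, ?_⟩
  have h13 := dg_flip_x G hxy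
  rw [if_neg hna, ha2] at h13
  omega

end

end Pool.Agent.SKT
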