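import Pool.Agent.SKT.Defs

/-! # Block T: graphs made of adjacent twin pairs have a good set -/

set_option linter.unusedSectionVars false
set_option linter.unusedVariables false

namespace Pool.Agent.SKT

open Finset

section T
variable {V : Type*} [Fintype V] [DecidableEq V] {G : SimpleGraph V} [DecidableRel G.Adj]
  {p : V → ℕ} {i : ℕ}

/-- closed neighbourhood -/
def cn (G : SimpleGraph V) [DecidableRel G.Adj] (z : V) : Finset V :=
  univ.filter (fun u => u = z ∨ G.Adj z u)

theorem mem_cn {z u : V} : u ∈ cn G z ↔ u = z ∨ G.Adj z u := by simp [cn]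

theorem cn_comm {z u : V} : u ∈ cn G z ↔ z ∈ cn G u := by
  rw [mem_cn, mem_cn, G.adj_comm, eq_comm]

theorem self_mem_cn (z : V) : z ∈ cn G z := mem_cn.2 (.inl rfl)

theorem card_cn_inter (M : Finset V) (z : V) :
    (cn G z ∩ M).card = dg G M z + (if z ∈ M then 1 else 0) := by
  unfold dg
  by_cases hz : z ∈ M
  · have e : cn G z ∩ M = insert z (M.filter (fun u => G.Adj z u)) := by
      ext u
      simp only [mem_inter, mem_cn, mem_insert, mem_filter]
      constructor
      · rintro ⟨rfl | h1, h2⟩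
        · exact .inl rfl
        · exact .inr ⟨h2, h1⟩
      · rintro (rfl | ⟨h2, h1⟩)
        · exact ⟨.inl rfl, hz⟩
        · exact ⟨.inr h1, h2⟩
    rw [e, card_insert_of_notMem (by simp), if_pos hz]
  · have e : cn G z ∩ M = M.filter (fun u => G.Adj z u) := by
      ext u
      simp only [mem_inter, mem_cn, mem_filter]
      constructor
      · rintro ⟨rfl | h1, h2⟩
        · exact absurd h2 hz
        · exact ⟨h2, h1⟩
      · rintro ⟨h2, h1⟩
        exact ⟨.inr h1, h2⟩
    rw [e, if_neg hz, add_zero]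

theorem mem_unc {M : Finset V} {z : V} : z ∈ unc G p M ↔ p z + 1 ≤ (cn G z ∩ M).card := by
  rw [card_cn_inter]
  simp [unc]

theorem unc_mono {M M' : Finset V} (h : M ⊆ M') : unc G p M ⊆ unc G p M' := by
  intro z hz
  rw [mem_unc] at hz ⊢
  exact hz.trans (card_le_card (inter_subset_inter_left h))

/-- closed under the twin map -/
def TC (τ : V → V) (S : Finset V) : Prop := ∀ x, x ∈ S ↔ τ x ∈ S

theorem TC.inter {τ : V → V} {S T : Finset V} (hS : TC τ S) (hT : TC τ T) : TC τ (S ∩ T) := by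
  intro x
  rw [mem_inter, mem_inter, ← hS x, ← hT x]

theorem TC.union {τ : V → V} {S T : Finset V} (hS : TC τ S) (hT : TC τ T) : TC τ (S ∪ T) := by
  intro x
  rw [mem_union, mem_union, ← hS x, ← hT x]

theorem TC.sdiff {τ : V → V} {S T : Finset V} (hS : TC τ S) (hT : TC τ T) : TC τ (S \ T) := by
  intro x
  rw [mem_sdiff, mem_sdiff, ← hS x, ← hT x]

theorem TC.compl {τ : V → V} {S : Finset V} (hS : TC τ S) : TC τ Sᶜ := by
  intro x
  rw [mem_compl, mem_compl, ← hS x]

theorem TC.even {τ : V → V} (h1 : ∀ x, τ x ≠ x) (h2 : ∀ x, τ (τ x) = x) {S : Finset V}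
    (hS : TC τ S) : Even S.card := by
  have h : ∑ x ∈ S, (1 : ZMod 2) = 0 := by
    refine sum_involution (fun x _ => τ x) ?_ ?_ ?_ ?_
    · intro a _
      decide
    · intro a _ _
      exact h1 a
    · intro a ha
      exact (hS a).1 ha
    · intro a _
      exact h2 a
  rw [sum_const, nsmul_eq_mul, mul_one] at h
  rw [ZMod.natCast_eq_zero_iff] at h
  exact even_iff_two_dvd.2 h

theorem TC.exists_subset {τ : V → V} (h1 : ∀ x, τ x ≠ x) (h2 : ∀ x, τ (τ x) = x) {R : Finset V}
    (hR : TC τ R) (x : ℕ) : 2 * x ≤ R.card → ∃ S, S ⊆ R ∧ TC τ S ∧ S.card = 2 * x := by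
  induction x with
  | zero => exact fun _ => ⟨∅, empty_subset _, fun x => by simp, rfl⟩
  | succ x ih =>
    intro hx
    obtain ⟨S, hSR, hS, hc⟩ := ih (by omega)
    have h3 : 0 < (R \ S).card := by
      rw [card_sdiff_of_subset hSR]
      omega
    obtain ⟨a, ha⟩ := card_pos.1 h3
    rw [mem_sdiff] at ha
    have ha' : τ a ∉ S := fun q => ha.2 ((hS a).2 q)
    have ha2 : a ∉ insert (τ a) S := by
      rw [mem_insert]
      rintro (q | q)
      · exact h1 a q.symm
      · exact ha.2 q
    refine ⟨insert a (insert (τ a) S), ?_, ?_, ?_⟩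
    · refine insert_subset ha.1 (insert_subset ((hR a).1 ha.1) hSR)
    · intro z
      simp only [mem_insert]
      have e1 : z = a ↔ τ z = τ a := ⟨fun q => by rw [q], fun q => by rw [← h2 z, q, h2]⟩
      have e2 : z = τ a ↔ τ z = a := ⟨fun q => by rw [q, h2], fun q => by rw [← q, h2]⟩
      rw [e1, e2, hS z]
      tauto
    · rw [card_insert_of_notMem ha2, card_insert_of_notMem ha', hc]
      omega

/-- the counting part: a twin-closed set with the right numbers gives a good set -/
theorem twins_count (hdeg : ∀ v, dg G univ v = 2 * p v + 1) (hcard : Fintype.card V = 2 * i + 6)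
    (τ : V → V) (h1 : ∀ x, τ x ≠ x) (h2 : ∀ x, τ (τ x) = x)
    (hN : ∀ z, TC τ (cn G z))
    (hp : ∀ x, Even (p x)) {y v : V} (hyv : G.Adj y v) (hv : v ≠ τ y)
    {M : Finset V} (hM : TC τ M) (hMc : M.card = i + 2) (hyM : y ∉ M)
    (hy : (cn G y ∩ M).card = p y) (hvM : (cn G v ∩ M).card = p v) :
    ∃ M : Finset V, M.card = i + 1 ∧ (unc G p M).card ≤ i + 1 := by
  -- closed neighbourhoods of twins agree
  have hcn : ∀ z, cn G (τ z) = cn G z := by
    intro z
    ext w
    rw [cn_comm, cn_comm (z := z)]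
    exact (hN w z).symm
  have hcc : ∀ z, (cn G z).card = 2 * p z + 2 := by
    intro z
    have := card_cn_inter (G := G) univ z
    rw [inter_univ, hdeg, if_pos (mem_univ _)] at this
    omega
  have hpt : ∀ z, p (τ z) = p z := by
    intro z
    have e1 := hcc z
    have e2 := hcc (τ z)
    rw [hcn] at e2
    omega
  set P : Finset V := {y, τ y} with hP
  have hPc : P.card = 2 := card_pair (h1 y).symm
  have hPT : TC τ P := by
    intro z
    simp only [hP, mem_insert, mem_singleton]
    have e1 : z = y ↔ τ z = τ y := ⟨fun q => by rw [q], fun q => by rw [← h2 z, q, h2]⟩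
    have e2 : z = τ y ↔ τ z = y := ⟨fun q => by rw [q, h2], fun q => by rw [← q, h2]⟩
    rw [e1, e2]
    tauto
  have hMP : Disjoint M P := by
    rw [disjoint_left]
    intro z hz hzP
    simp only [hP, mem_insert, mem_singleton] at hzP
    rcases hzP with rfl | rfl
    · exact hyM hz
    · exact hyM ((hM y).2 hz)
  set M' : Finset V := (M ∪ P)ᶜ with hM'
  have hM'T : TC τ M' := (hM.union hPT).compl
  have hM'c : M'.card = i + 2 := by
    have e := card_compl_add_card (M ∪ P)
    rw [← hM', hcard, card_union_of_disjoint hMP, hPc, hMc] at e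
    omega
  -- counting identity
  have hid : ∀ z, (cn G z ∩ M).card + (cn G z ∩ M').card + (cn G z ∩ P).card = 2 * p z + 2 := by
    intro z
    rw [← hcc z]
    have e1 : (cn G z ∩ (M ∪ P)).card = (cn G z ∩ M).card + (cn G z ∩ P).card := by
      rw [inter_union_distrib_left, card_union_of_disjoint]
      exact hMP.mono inter_subset_right inter_subset_right
    have e2 : (cn G z ∩ (M ∪ P)).card + (cn G z ∩ M').card = (cn G z).card := by
      rw [hM', ← sdiff_eq_inter_compl, card_inter_add_card_sdiff]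
    omega
  have hPz : ∀ z, (cn G z ∩ P).card = if z ∈ cn G y then 2 else 0 := by
    intro z
    by_cases hz : z ∈ cn G y
    · rw [if_pos hz]
      have hz' : y ∈ cn G z := cn_comm.1 hz
      have : cn G z ∩ P = P := by
        rw [inter_eq_right]
        intro w hw
        simp only [hP, mem_insert, mem_singleton] at hw
        rcases hw with rfl | rfl
        · exact hz'
        · exact (hN z y).1 hz'
      rw [this, hPc]
    · rw [if_neg hz, card_eq_zero, ← disjoint_iff_inter_eq_empty, disjoint_right]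
      intro w hw hw2
      simp only [hP, mem_insert, mem_singleton] at hw
      rcases hw with rfl | rfl
      · exact hz (cn_comm.1 hw2)
      · exact hz (cn_comm.1 ((hN z y).2 hw2))
  have hev : ∀ z, Even (cn G z ∩ M).card := fun z => ((hN z).inter hM).even h1 h2
  have hev' : ∀ z, Even (cn G z ∩ M').card := fun z => ((hN z).inter hM'T).even h1 h2
  -- the two sets are disjoint
  have hdis : Disjoint (unc G p M) (unc G p M') := by
    rw [disjoint_left]
    intro z hz hz'
    rw [mem_unc] at hz hz'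
    have := hid z
    obtain ⟨a, ha⟩ := hev z
    obtain ⟨b, hb⟩ := hev' z
    obtain ⟨c, hc⟩ := hp z
    omega
  -- four exceptional vertices
  set Q : Finset V := {y, τ y, v, τ v} with hQ
  have hyv' : y ≠ v := hyv.ne
  have hQc : Q.card = 4 := by
    have n1 : y ≠ τ y := (h1 y).symm
    have n2 : y ≠ τ v := fun q => hv (by rw [q, h2])
    have n3 : τ y ≠ τ v := fun q => hyv' (by rw [← h2 y, q, h2])
    have n4 : v ≠ τ v := (h1 v).symm
    rw [hQ, card_insert_of_notMem, card_insert_of_notMem, card_insert_of_notMem, card_singleton]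
    · simpa using n4
    · simp only [mem_insert, mem_singleton, not_or]
      exact ⟨hv.symm, n3⟩
    · simp only [mem_insert, mem_singleton, not_or]
      exact ⟨n1, hyv', n2⟩
  have hbal : ∀ z ∈ Q, (cn G z ∩ M).card = p z ∧ z ∈ cn G y := by
    intro z hz
    simp only [hQ, mem_insert, mem_singleton] at hz
    rcases hz with rfl | rfl | rfl | rfl
    · exact ⟨hy, self_mem_cn _⟩
    · exact ⟨by rw [hcn, hpt, hy], (hN _ _).1 (self_mem_cn _)⟩
    · exact ⟨hvM, mem_cn.2 (.inr hyv)⟩
    · exact ⟨by rw [hcn, hpt, hvM], (hN _ _).1 (mem_cn.2 (.inr hyv))⟩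
  have hQd : Disjoint (unc G p M ∪ unc G p M') Q := by
    rw [disjoint_right]
    intro z hz hz'
    obtain ⟨e1, e2⟩ := hbal z hz
    have e3 := hid z
    rw [hPz, if_pos e2] at e3
    rw [mem_union, mem_unc, mem_unc] at hz'
    omega
  have htot : (unc G p M).card + (unc G p M').card + 4 ≤ 2 * i + 6 := by
    rw [← card_union_of_disjoint hdis, ← hQc, ← card_union_of_disjoint hQd, ← hcard]
    exact card_le_univ _
  have hfin : ∀ L : Finset V, L.card = i + 2 → (unc G p L).card ≤ i + 1 →
      ∃ M : Finset V, M.card = i + 1 ∧ (unc G p M).card ≤ i + 1 := by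
    intro L hL hL2
    obtain ⟨a, ha⟩ : L.Nonempty := by rw [← card_pos]; omega
    refine ⟨L.erase a, by rw [card_erase_of_mem ha]; omega, ?_⟩
    exact (card_le_card (unc_mono (erase_subset _ _))).trans hL2
  by_cases hle : (unc G p M).card ≤ i + 1
  · exact hfin M hMc hle
  · exact hfin M' hM'c (by omega)

theorem twins_good (hdeg : ∀ v, dg G univ v = 2 * p v + 1) (hcard : Fintype.card V = 2 * i + 6)
    (τ : V → V) (h1 : ∀ x, τ x ≠ x) (h2 : ∀ x, τ (τ x) = x) (h3 : ∀ x, G.Adj x (τ x))
    (h4 : ∀ x u, u ≠ x → u ≠ τ x → (G.Adj u x ↔ G.Adj u (τ x)))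
    (hp : ∀ x, Even (p x)) (hi : Even i) {y v : V} (hyv : G.Adj y v) (hv : v ≠ τ y) :
    ∃ M : Finset V, M.card = i + 1 ∧ (unc G p M).card ≤ i + 1 := by
  have hN : ∀ z, TC τ (cn G z) := by
    intro z u
    rw [mem_cn, mem_cn]
    by_cases hu : u = z
    · subst hu
      exact ⟨fun _ => .inr (h3 u), fun _ => .inl rfl⟩
    by_cases hu2 : u = τ z
    · subst hu2
      rw [h2]
      exact ⟨fun _ => .inl rfl, fun _ => .inr (h3 z)⟩
    have hu3 : z ≠ τ u := fun q => hu2 (by rw [q, h2])
    have := h4 u z (Ne.symm hu) hu3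
    constructor
    · rintro (q | q)
      · exact absurd q hu
      · exact .inr (this.1 q)
    · rintro (q | q)
      · exact absurd q.symm hu3
      · exact .inr (this.2 q)
  have hcc : ∀ z, (cn G z).card = 2 * p z + 2 := by
    intro z
    have := card_cn_inter (G := G) univ z
    rw [inter_univ, hdeg, if_pos (mem_univ _)] at this
    omega
  set P : Finset V := {y, τ y} with hP
  have hPc : P.card = 2 := card_pair (h1 y).symm
  have hPT : TC τ P := by
    intro z
    simp only [hP, mem_insert, mem_singleton]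
    have e1 : z = y ↔ τ z = τ y := ⟨fun q => by rw [q], fun q => by rw [← h2 z, q, h2]⟩
    have e2 : z = τ y ↔ τ z = y := ⟨fun q => by rw [q, h2], fun q => by rw [← q, h2]⟩
    rw [e1, e2]
    tauto
  have hyv2 : y ∈ cn G v := mem_cn.2 (.inr hyv.symm)
  have hPy : P ⊆ cn G y := by
    intro w hw
    simp only [hP, mem_insert, mem_singleton] at hw
    rcases hw with rfl | rfl
    · exact self_mem_cn _
    · exact (hN _ _).1 (self_mem_cn _)
  have hPv : P ⊆ cn G v := by
    intro w hw
    simp only [hP, mem_insert, mem_singleton] at hw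
    rcases hw with rfl | rfl
    · exact hyv2
    · exact (hN _ _).1 hyv2
  -- the four regions
  set R1 : Finset V := (cn G y ∩ cn G v) \ P with hR1
  set R2 : Finset V := cn G y \ cn G v with hR2
  set R3 : Finset V := cn G v \ cn G y with hR3
  set R4 : Finset V := (cn G y ∪ cn G v)ᶜ with hR4
  have t1 : TC τ R1 := ((hN y).inter (hN v)).sdiff hPT
  have t2 : TC τ R2 := (hN y).sdiff (hN v)
  have t3 : TC τ R3 := (hN v).sdiff (hN y)
  have t4 : TC τ R4 := ((hN y).union (hN v)).compl
  obtain ⟨r1, e1⟩ := t1.even h1 h2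
  obtain ⟨r2, e2⟩ := t2.even h1 h2
  obtain ⟨r3, e3⟩ := t3.even h1 h2
  obtain ⟨r4, e4⟩ := t4.even h1 h2
  have a1 : R1.card + 2 = (cn G y ∩ cn G v).card := by
    rw [← hPc, hR1, card_sdiff_add_card_eq_card (subset_inter hPy hPv)]
  have a2 : (cn G y ∩ cn G v).card + R2.card = (cn G y).card := by
    rw [hR2, card_inter_add_card_sdiff]
  have a3 : (cn G y ∩ cn G v).card + R3.card = (cn G v).card := by
    rw [hR3, inter_comm, card_inter_add_card_sdiff]
  have a4 : (cn G y ∪ cn G v).card + R4.card = 2 * i + 6 := by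
    rw [hR4, card_add_card_compl, hcard]
  have a5 : (cn G y ∪ cn G v).card + (cn G y ∩ cn G v).card = (cn G y).card + (cn G v).card :=
    card_union_add_card_inter _ _
  have b1 := hcc y
  have b2 := hcc v
  obtain ⟨py, c1⟩ := hp y
  obtain ⟨pv, c2⟩ := hp v
  obtain ⟨i', c3⟩ := hi
  -- choose the sizes
  obtain ⟨x1, x2, x3, x4, k1, k2, k3, k4, k5, k6, k7⟩ : ∃ x1 x2 x3 x4 : ℕ,
      2 * x1 ≤ R1.card ∧ 2 * x2 ≤ R2.card ∧ 2 * x3 ≤ R3.card ∧ 2 * x4 ≤ R4.card ∧
      2 * x1 + 2 * x2 = p y ∧ 2 * x1 + 2 * x3 = p v ∧ 2 * x1 + 2 * x2 + 2 * x3 + 2 * x4 = i + 2 := by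
    rcases Nat.even_or_odd r1 with ⟨s, hs⟩ | ⟨s, hs⟩
    · refine ⟨r1 / 2, r2 / 2, r3 / 2, r4 / 2, ?_, ?_, ?_, ?_, ?_, ?_, ?_⟩ <;> omega
    · refine ⟨(r1 - 1) / 2, (r2 + 1) / 2, (r3 + 1) / 2, (r4 - 1) / 2, ?_, ?_, ?_, ?_, ?_, ?_, ?_⟩
        <;> omega
  obtain ⟨M1, s1, u1, w1⟩ := t1.exists_subset h1 h2 x1 k1
  obtain ⟨M2, s2, u2, w2⟩ := t2.exists_subset h1 h2 x2 k2
  obtain ⟨M3, s3, u3, w3⟩ := t3.exists_subset h1 h2 x3 k3
  obtain ⟨M4, s4, u4, w4⟩ := t4.exists_subset h1 h2 x4 k4
  have m1 : ∀ z ∈ M1, z ∈ cn G y ∧ z ∈ cn G v ∧ z ∉ P := by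
    intro z hz
    have := s1 hz
    simp only [hR1, mem_sdiff, mem_inter] at this
    exact ⟨this.1.1, this.1.2, this.2⟩
  have m2 : ∀ z ∈ M2, z ∈ cn G y ∧ z ∉ cn G v := by
    intro z hz
    have := s2 hz
    simpa only [hR2, mem_sdiff] using this
  have m3 : ∀ z ∈ M3, z ∈ cn G v ∧ z ∉ cn G y := by
    intro z hz
    have := s3 hz
    simpa only [hR3, mem_sdiff] using this
  have m4 : ∀ z ∈ M4, z ∉ cn G y ∧ z ∉ cn G v := by
    intro z hz
    have := s4 hz
    simpa only [hR4, mem_compl, mem_union, not_or] using this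
  have d12 : Disjoint M1 M2 := disjoint_left.2 fun z q q' => (m2 z q').2 (m1 z q).2.1
  have d13 : Disjoint M1 M3 := disjoint_left.2 fun z q q' => (m3 z q').2 (m1 z q).1
  have d14 : Disjoint M1 M4 := disjoint_left.2 fun z q q' => (m4 z q').1 (m1 z q).1
  have d23 : Disjoint M2 M3 := disjoint_left.2 fun z q q' => (m3 z q').2 (m2 z q).1
  have d24 : Disjoint M2 M4 := disjoint_left.2 fun z q q' => (m4 z q').1 (m2 z q).1
  have d34 : Disjoint M3 M4 := disjoint_left.2 fun z q q' => (m4 z q').2 (m3 z q).1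
  have hyP : y ∈ P := by simp [hP]
  refine twins_count hdeg hcard τ h1 h2 hN hp hyv hv (M := M1 ∪ M2 ∪ M3 ∪ M4)
    (((u1.union u2).union u3).union u4) ?_ ?_ ?_ ?_
  · rw [card_union_of_disjoint, card_union_of_disjoint, card_union_of_disjoint d12]
    · omega
    · rw [disjoint_union_left]; exact ⟨d13, d23⟩
    · rw [disjoint_union_left, disjoint_union_left]; exact ⟨⟨d14, d24⟩, d34⟩
  · simp only [mem_union, not_or]
    refine ⟨⟨⟨fun q => (m1 y q).2.2 hyP, fun q => (m2 y q).2 hyv2⟩, fun q =>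
      (m3 y q).2 (self_mem_cn _)⟩, fun q => (m4 y q).1 (self_mem_cn _)⟩
  · have e : cn G y ∩ (M1 ∪ M2 ∪ M3 ∪ M4) = M1 ∪ M2 := by
      ext z
      simp only [mem_inter, mem_union]
      constructor
      · rintro ⟨q, ((q1 | q1) | q1) | q1⟩
        · exact .inl q1
        · exact .inr q1
        · exact absurd q (m3 z q1).2
        · exact absurd q (m4 z q1).1
      · rintro (q | q)
        · exact ⟨(m1 z q).1, .inl (.inl (.inl q))⟩
        · exact ⟨(m2 z q).1, .inl (.inl (.inr q))⟩
    rw [e, card_union_of_disjoint d12]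
    omega
  · have e : cn G v ∩ (M1 ∪ M2 ∪ M3 ∪ M4) = M1 ∪ M3 := by
      ext z
      simp only [mem_inter, mem_union]
      constructor
      · rintro ⟨q, ((q1 | q1) | q1) | q1⟩
        · exact .inl q1
        · exact absurd q (m2 z q1).2
        · exact .inr q1
        · exact absurd q (m4 z q1).2
      · rintro (q | q)
        · exact ⟨(m1 z q).2.1, .inl (.inl (.inl q))⟩
        · exact ⟨(m3 z q).1, .inl (.inr q)⟩
    rw [e, card_union_of_disjoint d13]
    omega
end T

end Pool.Agent.SKT
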