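import Pool.Agent.SKT.S6
import Pool.Agent.SKT.T
import Pool.Agent.SKT.E

/-! # Theorem A and its consequences -/

set_option linter.unusedSectionVars false

namespace Pool.Agent.SKT

open Finset

/-- **Theorem A**: a graph of order `2 i + 6` with all degrees odd and a vertex of degree at least
two has a set `M` of `i + 1` vertices such that at most `i + 1` vertices have at least half of
their closed neighbourhood in `M`. -/
theorem main_odd {V : Type*} [Fintype V] [DecidableEq V] (G : SimpleGraph V) [DecidableRel G.Adj]
    (p : V → ℕ) (i : ℕ) (hdeg : ∀ v, dg G univ v = 2 * p v + 1)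
    (hcard : Fintype.card V = 2 * i + 6) {a b c : V} (hab : G.Adj a b) (hac : G.Adj a c)
    (hbc : b ≠ c) : ∃ M : Finset V, M.card = i + 1 ∧ (unc G p M).card ≤ i + 1 := by
  by_contra hno
  push Not at hno
  have h : Bad G p i := ⟨hdeg, hcard, fun M hM => hno M hM⟩
  obtain ⟨τ, h1, h2, h3, h4, h5, h6⟩ := exists_tau h
  have key : ∀ v, G.Adj a v → v ≠ τ a → False := by
    intro v hv hvτ
    obtain ⟨M, hM, hM'⟩ := twins_good hdeg hcard τ h1 h2 h3 h4 h5 h6 hv hvτ
    have := hno M hM
    omega
  have e1 : b = τ a := by
    by_contra q; exact key b hab q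
  have e2 : c = τ a := by
    by_contra q; exact key c hac q
  exact hbc (e1.trans e2.symm)

theorem mainOdd (V : Type) [Fintype V] : MainOdd V := by
  classical
  intro G p i hdeg hcard a b c hab hac hbc
  exact main_odd G p i hdeg hcard hab hac hbc

end Pool.Agent.SKT
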