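import Mathlib

/-! # Signed k-subdomination, even order, gap four: definitions and basic counting -/

set_option linter.unusedSectionVars false

namespace Pool.Agent.SKT

open Finset

variable {V : Type*} [Fintype V] [DecidableEq V] (G : SimpleGraph V) [DecidableRel G.Adj]

/-- number of neighbours of `v` in `S` -/
def dg (S : Finset V) (v : V) : ℕ := (S.filter (fun u => G.Adj v u)).card

/-- the vertices `v` with at least `p v + 1` elements of `M` in the closed neighbourhood -/
def unc (p : V → ℕ) (M : Finset V) : Finset V :=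
  univ.filter (fun v => p v + 1 ≤ dg G M v + (if v ∈ M then 1 else 0))

/-- closed sets: nobody outside has more than `p` neighbours inside -/
def Cl (p : V → ℕ) (S : Finset V) : Prop := ∀ v, v ∉ S → dg G S v ≤ p v

/-- open sets: everybody inside has more than `p` neighbours inside -/
def Op (p : V → ℕ) (S : Finset V) : Prop := ∀ v, v ∈ S → p v + 1 ≤ dg G S v

/-- closed and open, of size `k` -/
def Co (p : V → ℕ) (k : ℕ) (S : Finset V) : Prop := S.card = k ∧ Cl G p S ∧ Op G p S

/-- number of neighbours of `v` among `a`, `b` -/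
def nn (a b v : V) : ℕ := (if G.Adj v a then 1 else 0) + (if G.Adj v b then 1 else 0)

/-- all degrees odd, order `2 i + 6`, no good set of size `i + 1` -/
structure Bad (p : V → ℕ) (i : ℕ) : Prop where
  deg : ∀ v, dg G univ v = 2 * p v + 1
  card : Fintype.card V = 2 * i + 6
  bad : ∀ M : Finset V, M.card = i + 1 → i + 2 ≤ (unc G p M).card

/-- `A` small clopen, `A + a + b` large clopen -/
def Wl (p : V → ℕ) (i : ℕ) (A : Finset V) (a b : V) : Prop :=
  a ≠ b ∧ a ∉ A ∧ b ∉ A ∧ Co G p (i + 2) A ∧ Co G p (i + 4) (insert a (insert b A))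

/-- `A` small clopen, `A - a - b` clopen -/
def Ac (p : V → ℕ) (i : ℕ) (A : Finset V) (a b : V) : Prop :=
  a ≠ b ∧ a ∈ A ∧ b ∈ A ∧ Co G p (i + 2) A ∧ Co G p i ((A.erase a).erase b)

/-- one step along a wall, up or down -/
def Gm (p : V → ℕ) (i : ℕ) (S S' : Finset V) : Prop :=
  (∃ a b, Wl G p i S a b ∧ S' = insert a (insert b S)) ∨
    (∃ a b, Wl G p i S' a b ∧ S = insert a (insert b S'))

/-! ## counting -/

theorem dg_empty (v : V) : dg G ∅ v = 0 := by simp [dg]

theorem dg_insert {a : V} {S : Finset V} (h : a ∉ S) (v : V) :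
    dg G (insert a S) v = dg G S v + (if G.Adj v a then 1 else 0) := by
  unfold dg
  rw [filter_insert]
  split_ifs with h1
  · rw [card_insert_of_notMem (by simp [h])]
  · rfl

theorem dg_erase {a : V} {S : Finset V} (h : a ∈ S) (v : V) :
    dg G (S.erase a) v + (if G.Adj v a then 1 else 0) = dg G S v := by
  conv_rhs => rw [← insert_erase h]
  rw [dg_insert G (notMem_erase _ _)]

theorem dg_mono {S T : Finset V} (h : S ⊆ T) (v : V) : dg G S v ≤ dg G T v :=
  card_le_card (filter_subset_filter _ h)

theorem dg_union {S T : Finset V} (h : Disjoint S T) (v : V) :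
    dg G (S ∪ T) v = dg G S v + dg G T v := by
  unfold dg
  rw [filter_union, card_union_of_disjoint (disjoint_filter_filter h)]

theorem dg_compl (S : Finset V) (v : V) : dg G S v + dg G Sᶜ v = dg G univ v := by
  rw [← dg_union G disjoint_compl_right, union_compl]

theorem dg_self_erase (S : Finset V) (v : V) : dg G (S.erase v) v = dg G S v := by
  by_cases h : v ∈ S
  · have := dg_erase G h v
    simpa using this
  · rw [erase_eq_of_notMem h]

theorem dg_self_insert (S : Finset V) (v : V) : dg G (insert v S) v = dg G S v := by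
  by_cases h : v ∈ S
  · rw [insert_eq_of_mem h]
  · rw [dg_insert G h]; simp

theorem nn_comm (a b v : V) : nn G a b v = nn G b a v := by unfold nn; omega

theorem nn_le (a b v : V) : nn G a b v ≤ 2 := by unfold nn; split_ifs <;> omega

theorem dg_insert2 {a b : V} {S : Finset V} (hab : a ≠ b) (ha : a ∉ S) (hb : b ∉ S) (v : V) :
    dg G (insert a (insert b S)) v = dg G S v + nn G a b v := by
  rw [dg_insert G (by simp [hab, ha]), dg_insert G hb]
  unfold nn
  omega

theorem dg_erase2 {a b : V} {S : Finset V} (hab : a ≠ b) (ha : a ∈ S) (hb : b ∈ S) (v : V) :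
    dg G ((S.erase a).erase b) v + nn G a b v = dg G S v := by
  have h1 := dg_erase G (a := b) (S := S.erase a) (mem_erase.2 ⟨hab.symm, hb⟩) v
  have h2 := dg_erase G ha v
  unfold nn
  omega

variable {G} {p : V → ℕ} {i : ℕ}

theorem Bad.dg_compl (h : Bad G p i) (S : Finset V) (v : V) :
    dg G S v + dg G Sᶜ v = 2 * p v + 1 := by
  rw [SKT.dg_compl, h.deg]

theorem Bad.cl_compl (h : Bad G p i) {S : Finset V} : Cl G p Sᶜ ↔ Op G p S := by
  constructor
  · intro h1 v hv
    have h2 := h1 v (by simpa using hv)
    have h3 := h.dg_compl S v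
    omega
  · intro h1 v hv
    have h2 := h1 v (by simpa using hv)
    have h3 := h.dg_compl S v
    omega

theorem Bad.op_compl (h : Bad G p i) {S : Finset V} : Op G p Sᶜ ↔ Cl G p S := by
  rw [← h.cl_compl, compl_compl]

theorem Bad.co_compl (h : Bad G p i) {k l : ℕ} (hkl : k + l = 2 * i + 6) {S : Finset V} :
    Co G p k Sᶜ ↔ Co G p l S := by
  unfold Co
  rw [h.cl_compl, h.op_compl]
  have h1 := card_compl_add_card S
  rw [h.card] at h1
  constructor
  · rintro ⟨h2, h3, h4⟩; exact ⟨by omega, h4, h3⟩
  · rintro ⟨h2, h3, h4⟩; exact ⟨by omega, h4, h3⟩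

/-- no closed set of size `i + 1` -/
theorem Bad.no_closed (h : Bad G p i) {M : Finset V} (hM : M.card = i + 1) : ¬ Cl G p M := by
  intro hc
  have h1 := h.bad M hM
  have h2 : unc G p M ⊆ M := by
    intro v hv
    by_contra hvM
    have h3 := hc v hvM
    have h4 := (mem_filter.1 hv).2
    rw [if_neg hvM] at h4
    omega
  have h3 := card_le_card h2
  omega

/-- no open set of size `i + 5` -/
theorem Bad.no_open (h : Bad G p i) {K : Finset V} (hK : K.card = i + 5) : ¬ Op G p K := by
  intro hc
  have h1 := card_compl_add_card K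
  rw [h.card] at h1
  exact h.no_closed (M := Kᶜ) (by omega) (h.cl_compl.2 hc)

/-- closed sets of size `i + 2` are open -/
theorem Bad.op_of_cl (h : Bad G p i) {A : Finset V} (hA : A.card = i + 2) (hc : Cl G p A) :
    Op G p A := by
  intro x hx
  by_contra hno
  refine h.no_closed (M := A.erase x) (by rw [card_erase_of_mem hx]; omega) ?_
  intro v hv
  by_cases hvx : v = x
  · subst hvx
    rw [dg_self_erase]
    omega
  · have h1 : v ∉ A := fun q => hv (mem_erase.2 ⟨hvx, q⟩)
    exact (dg_mono G (erase_subset _ _) v).trans (hc v h1)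

theorem Bad.small_of_cl (h : Bad G p i) {A : Finset V} (hA : A.card = i + 2) (hc : Cl G p A) :
    Co G p (i + 2) A := ⟨hA, hc, h.op_of_cl hA hc⟩

/-- open sets of size `i + 4` are closed -/
theorem Bad.large_of_op (h : Bad G p i) {B : Finset V} (hB : B.card = i + 4) (hc : Op G p B) :
    Co G p (i + 4) B := by
  have h1 := card_compl_add_card B
  rw [h.card] at h1
  have h2 := h.small_of_cl (A := Bᶜ) (by omega) (h.cl_compl.2 hc)
  exact (h.co_compl (by omega)).1 h2

end Pool.Agent.SKT
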