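import Pool.Agent.SKT.Defs

/-! # Structure of the sets of size `i` below two walls -/

set_option linter.unusedSectionVars false

namespace Pool.Agent.SKT

open Finset

variable {V : Type*} [Fintype V] [DecidableEq V] {G : SimpleGraph V} [DecidableRel G.Adj]
  {p : V → ℕ} {i : ℕ}

theorem Wl.symm {A : Finset V} {a b : V} (h : Wl G p i A a b) : Wl G p i A b a := by
  obtain ⟨h1, h2, h3, h4, h5⟩ := h
  exact ⟨h1.symm, h3, h2, h4, by rwa [insert_comm]⟩

theorem Ac.symm {A : Finset V} {a b : V} (h : Ac G p i A a b) : Ac G p i A b a := by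
  obtain ⟨h1, h2, h3, h4, h5⟩ := h
  exact ⟨h1.symm, h3, h2, h4, by rwa [erase_right_comm]⟩

theorem card_insert2 {a b : V} {S : Finset V} (hab : a ≠ b) (ha : a ∉ S) (hb : b ∉ S) :
    (insert a (insert b S)).card = S.card + 2 := by
  rw [card_insert_of_notMem (by simp [hab, ha]), card_insert_of_notMem hb]

/-- L2a: tight vertices outside a small clopen set have at most one tight neighbour -/
theorem Bad.matching (h : Bad G p i) {A : Finset V} (hA : Co G p (i + 2) A) {t t1 t2 : V}
    (ht : t ∉ A) (ht1 : t1 ∉ A) (ht2 : t2 ∉ A) (e : dg G A t = p t) (e1 : dg G A t1 = p t1)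
    (e2 : dg G A t2 = p t2) (a1 : G.Adj t t1) (a2 : G.Adj t t2) : t1 = t2 := by
  by_contra hne
  have n1 : t ≠ t1 := a1.ne
  have n2 : t ≠ t2 := a2.ne
  have m1 : t1 ∉ insert t2 A := by simp [hne, ht1]
  have m0 : t ∉ insert t1 (insert t2 A) := by simp [n1, n2, ht]
  refine h.no_open (K := insert t (insert t1 (insert t2 A))) ?_ ?_
  · rw [card_insert_of_notMem m0, card_insert_of_notMem m1, card_insert_of_notMem ht2, hA.1]
  · have hd : ∀ v, dg G (insert t (insert t1 (insert t2 A))) v = dg G A v +
        (if G.Adj v t2 then 1 else 0) + (if G.Adj v t1 then 1 else 0) +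
        (if G.Adj v t then 1 else 0) := by
      intro v
      rw [dg_insert G m0, dg_insert G m1, dg_insert G ht2]
    intro v hv
    rw [hd]
    simp only [mem_insert] at hv
    rcases hv with rfl | rfl | rfl | hv
    · simp [a1, e]
    · simp [a1.symm, e1]
    · simp [a2.symm, e2]
    · have := hA.2.2 v hv
      omega

/-- L2b: adjacent tight vertices form a wall -/
theorem Bad.wall_of_tight (h : Bad G p i) {A : Finset V} (hA : Co G p (i + 2) A) {a b : V}
    (ha : a ∉ A) (hb : b ∉ A) (e1 : dg G A a = p a) (e2 : dg G A b = p b) (ab : G.Adj a b) :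
    Wl G p i A a b := by
  refine ⟨ab.ne, ha, hb, hA, ?_⟩
  apply h.large_of_op
  · rw [card_insert2 ab.ne ha hb, hA.1]
  · intro v hv
    rw [dg_insert2 G ab.ne ha hb]
    unfold nn
    simp only [mem_insert] at hv
    rcases hv with rfl | rfl | hv
    · simp [ab, e1]
    · simp [ab.symm, e2]
    · have := hA.2.2 v hv
      omega

/-- L2c -/
theorem Wl.tight {A : Finset V} {a b : V} (h : Wl G p i A a b) :
    G.Adj a b ∧ dg G A a = p a ∧ dg G A b = p b := by
  obtain ⟨h1, h2, h3, h4, h5⟩ := h
  have e1 := h5.2.2 a (mem_insert_self _ _)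
  have e2 := h5.2.2 b (mem_insert_of_mem (mem_insert_self _ _))
  rw [dg_insert2 G h1 h2 h3] at e1 e2
  have c1 := h4.2.1 a h2
  have c2 := h4.2.1 b h3
  unfold nn at e1 e2
  simp only [SimpleGraph.irrefl, if_false] at e1 e2
  by_cases hab : G.Adj a b
  · rw [if_pos hab] at e1
    rw [if_pos hab.symm] at e2
    exact ⟨hab, by omega, by omega⟩
  · rw [if_neg hab] at e1
    omega

theorem Wl.unique (h : Bad G p i) {A : Finset V} {a b d : V} (h1 : Wl G p i A a b)
    (h2 : Wl G p i A a d) : b = d := by
  obtain ⟨a1, e1, e2⟩ := h1.tight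
  obtain ⟨a2, _, e3⟩ := h2.tight
  exact h.matching h1.2.2.2.1 h1.2.1 h1.2.2.1 h2.2.2.1 e1 e2 e3 a1 a2

/-- two walls at the same small set are equal or disjoint -/
theorem Wl.disj (h : Bad G p i) {A : Finset V} {a b c d : V} (h1 : Wl G p i A a b)
    (h2 : Wl G p i A c d) (ac : a ≠ c) (ad : a ≠ d) : b ≠ c ∧ b ≠ d := by
  constructor
  · rintro rfl
    exact ad (Wl.unique h h1.symm h2)
  · rintro rfl
    exact ac (Wl.unique h h1.symm h2.symm)

theorem nn_zero {a b v : V} : nn G a b v = 0 ↔ ¬ G.Adj v a ∧ ¬ G.Adj v b := by
  unfold nn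
  by_cases h1 : G.Adj v a <;> by_cases h2 : G.Adj v b <;> simp [h1, h2]

theorem nn_two {a b v : V} : nn G a b v = 2 ↔ G.Adj v a ∧ G.Adj v b := by
  unfold nn
  by_cases h1 : G.Adj v a <;> by_cases h2 : G.Adj v b <;> simp [h1, h2]

/-- the local picture at a set of size `i` with two pairs -/
structure Two (G : SimpleGraph V) [DecidableRel G.Adj] (p : V → ℕ) (i : ℕ) (C : Finset V)
    (a b c d : V) : Prop where
  ab : a ≠ b
  ac : a ≠ c
  ad : a ≠ d
  bc : b ≠ c
  bd : b ≠ d
  cd : c ≠ d
  ha : a ∉ C
  hb : b ∉ C
  hc : c ∉ C
  hd : d ∉ C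
  card : C.card = i
  s1 : Co G p (i + 2) (insert a (insert b C))
  s2 : Co G p (i + 2) (insert c (insert d C))
  s3 : Co G p (i + 4) (insert a (insert b (insert c (insert d C))))

theorem Two.swap {C : Finset V} {a b c d : V} (t : Two G p i C a b c d) :
    Two G p i C c d a b where
  ab := t.cd
  ac := t.ac.symm
  ad := t.bc.symm
  bc := t.ad.symm
  bd := t.bd.symm
  cd := t.ab
  ha := t.hc
  hb := t.hd
  hc := t.ha
  hd := t.hb
  card := t.card
  s1 := t.s2
  s2 := t.s1
  s3 := by
    have : insert c (insert d (insert a (insert b C))) =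
      insert a (insert b (insert c (insert d C))) := by
      ext x; simp only [mem_insert]; tauto
    rw [this]; exact t.s3

theorem Two.flip {C : Finset V} {a b c d : V} (t : Two G p i C a b c d) :
    Two G p i C b a c d where
  ab := t.ab.symm
  ac := t.bc
  ad := t.bd
  bc := t.ac
  bd := t.ad
  cd := t.cd
  ha := t.hb
  hb := t.ha
  hc := t.hc
  hd := t.hd
  card := t.card
  s1 := by rw [insert_comm]; exact t.s1
  s2 := t.s2
  s3 := by rw [insert_comm]; exact t.s3

theorem Two.cl {C : Finset V} {a b c d : V} (t : Two G p i C a b c d) : Cl G p C := by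
  intro v hv
  by_cases h1 : v ∈ insert a (insert b C)
  · have h2 : v ∉ insert c (insert d C) := by
      simp only [mem_insert] at h1 ⊢
      rintro (rfl | rfl | h3)
      · rcases h1 with rfl | rfl | h1
        · exact t.ac rfl
        · exact t.bc rfl
        · exact hv h1
      · rcases h1 with rfl | rfl | h1
        · exact t.ad rfl
        · exact t.bd rfl
        · exact hv h1
      · exact hv h3
    exact (dg_mono G (fun x hx => by simp [hx]) v).trans (t.s2.2.1 v h2)
  · exact (dg_mono G (fun x hx => by simp [hx]) v).trans (t.s1.2.1 v h1)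

theorem Two.tight {C : Finset V} {a b c d : V} (t : Two G p i C a b c d) :
    G.Adj a b ∧ dg G C a = p a ∧ nn G c d a = 0 := by
  have h1 := t.s1.2.2 a (mem_insert_self _ _)
  rw [dg_insert2 G t.ab t.ha t.hb] at h1
  have h2 := t.s2.2.1 a (by simp [t.ac, t.ad, t.ha])
  rw [dg_insert2 G t.cd t.hc t.hd] at h2
  have h3 := t.cl a t.ha
  have h4 : nn G a b a = if G.Adj a b then 1 else 0 := by simp [nn]
  rw [h4] at h1
  by_cases hab : G.Adj a b
  · rw [if_pos hab] at h1
    exact ⟨hab, by omega, by omega⟩
  · rw [if_neg hab] at h1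
    omega

/-- the counting at `C - x + s + t` -/
theorem Two.count (h : Bad G p i) {C : Finset V} {a b c d : V} (t : Two G p i C a b c d)
    {x : V} (hx : x ∈ C) :
    nn G a b x + nn G c d x + i ≤
      (C ∩ unc G p (insert a (insert c (C.erase x)))).card + 2 := by
  set M := insert a (insert c (C.erase x)) with hM
  have mc : c ∉ C.erase x := fun q => t.hc (mem_of_mem_erase q)
  have ma : a ∉ insert c (C.erase x) := by
    simp only [mem_insert, not_or]
    exact ⟨t.ac, fun q => t.ha (mem_of_mem_erase q)⟩
  have hcard : M.card = i + 1 := by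
    rw [hM, card_insert_of_notMem ma, card_insert_of_notMem mc, card_erase_of_mem hx]
    have := card_pos.2 ⟨x, hx⟩
    have := t.card
    omega
  have h1 := h.bad M hcard
  have hdM : ∀ v, dg G M v + (if G.Adj v x then 1 else 0) =
      dg G C v + (if G.Adj v c then 1 else 0) + (if G.Adj v a then 1 else 0) := by
    intro v
    rw [hM, dg_insert G ma, dg_insert G mc]
    have := dg_erase G hx v
    omega
  -- the uncovered vertices
  have hsub : unc G p M ⊆ (C ∩ unc G p M) ∪
      (({a, b, c, d} : Finset V).filter (fun v => ¬ G.Adj x v)) := by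
    intro v hv
    rw [mem_union, mem_inter]
    by_cases hvC : v ∈ C
    · exact Or.inl ⟨hvC, hv⟩
    · right
      have hv' := (mem_filter.1 hv).2
      have hdv := hdM v
      by_cases hvS : v ∈ ({a, b, c, d} : Finset V)
      · rw [mem_filter]
        refine ⟨hvS, fun hadj => ?_⟩
        rw [if_pos hadj.symm] at hdv
        simp only [mem_insert, mem_singleton] at hvS
        rcases hvS with rfl | rfl | rfl | rfl
        · -- v = a
          obtain ⟨q1, q2, q3⟩ := t.tight
          have q4 := (nn_zero.1 q3).1
          rw [if_neg q4] at hdv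
          simp only [SimpleGraph.irrefl, if_false] at hdv
          have : v ∈ M := by simp [hM]
          rw [if_pos this] at hv'
          omega
        · -- v = b
          obtain ⟨q1, q2, q3⟩ := t.flip.tight
          have q4 := (nn_zero.1 q3).1
          rw [if_neg q4, if_pos q1] at hdv
          have : v ∉ M := by
            simp only [hM, mem_insert, mem_erase, not_or]
            exact ⟨t.ab.symm, t.bc, fun q => hvC q.2⟩
          rw [if_neg this] at hv'
          omega
        · -- v = c
          obtain ⟨q1, q2, q3⟩ := t.swap.tight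
          have q4 := (nn_zero.1 q3).1
          rw [if_neg q4] at hdv
          simp only [SimpleGraph.irrefl, if_false] at hdv
          have : v ∈ M := by simp [hM]
          rw [if_pos this] at hv'
          omega
        · -- v = d
          obtain ⟨q1, q2, q3⟩ := t.swap.flip.tight
          have q4 := (nn_zero.1 q3).1
          rw [if_neg q4, if_pos q1] at hdv
          have : v ∉ M := by
            simp only [hM, mem_insert, mem_erase, not_or]
            exact ⟨t.ad.symm, t.cd.symm, fun q => hvC q.2⟩
          rw [if_neg this] at hv'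
          omega
      · exfalso
        simp only [mem_insert, mem_singleton, not_or] at hvS
        obtain ⟨va, vb, vc, vd⟩ := hvS
        have q1 := t.s3.2.1 v (by simp [va, vb, vc, vd, hvC])
        rw [dg_insert2 G t.ab (by simp [t.ac, t.ad, t.ha]) (by simp [t.bc, t.bd, t.hb]),
          dg_insert2 G t.cd t.hc t.hd] at q1
        have : v ∉ M := by
          simp only [hM, mem_insert, mem_erase, not_or]
          exact ⟨va, vc, fun q => hvC q.2⟩
        rw [if_neg this] at hv'
        unfold nn at q1
        omega
  have h2 := card_le_card hsub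
  have h3 := card_union_le (C ∩ unc G p M) (({a, b, c, d} : Finset V).filter (fun v => ¬ G.Adj x v))
  have h4 : (({a, b, c, d} : Finset V).filter (fun v => ¬ G.Adj x v)).card + nn G a b x +
      nn G c d x = 4 := by
    have e1 := card_filter_add_card_filter_not (s := ({a, b, c, d} : Finset V))
      (fun v => G.Adj x v)
    have e2 : ({a, b, c, d} : Finset V).card = 4 := by
      rw [card_insert_of_notMem (by simp [t.ab, t.ac, t.ad]),
        card_insert_of_notMem (by simp [t.bc, t.bd]), card_insert_of_notMem (by simp [t.cd]),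
        card_singleton]
    have e3 : (({a, b, c, d} : Finset V).filter (fun v => G.Adj x v)).card =
        nn G a b x + nn G c d x := by
      have f1 : ({a, b, c, d} : Finset V) = insert a (insert b (insert c (insert d ∅))) := by
        simp
      have f2 : (({a, b, c, d} : Finset V).filter (fun v => G.Adj x v)).card =
        dg G ({a, b, c, d} : Finset V) x := rfl
      rw [f2, f1, dg_insert2 G t.ab (by simp [t.ac, t.ad]) (by simp [t.bc, t.bd]),
        dg_insert2 G t.cd (by simp) (by simp), dg_empty]
      omega
    omega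
  omega

/-- L3: the set `C` is open -/
theorem Two.op (h : Bad G p i) {C : Finset V} {a b c d : V} (t : Two G p i C a b c d) :
    Op G p C := by
  intro x hx
  by_contra hno
  have hx1 := t.s1.2.2 x (by simp [hx])
  have hx2 := t.s2.2.2 x (by simp [hx])
  rw [dg_insert2 G t.ab t.ha t.hb] at hx1
  rw [dg_insert2 G t.cd t.hc t.hd] at hx2
  have key : ∀ {a b c d : V}, Two G p i C a b c d → ¬ G.Adj x a → ¬ G.Adj x c →
      nn G a b x + nn G c d x ≤ 1 := by
    intro a b c d t na nc
    have h1 := t.count h hx
    have h2 : x ∉ unc G p (insert a (insert c (C.erase x))) := by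
      intro hu
      have h3 := (mem_filter.1 hu).2
      have mc : c ∉ C.erase x := fun q => t.hc (mem_of_mem_erase q)
      have ma : a ∉ insert c (C.erase x) := by
        simp only [mem_insert, not_or]
        exact ⟨t.ac, fun q => t.ha (mem_of_mem_erase q)⟩
      rw [dg_insert G ma, dg_insert G mc, dg_self_erase, if_neg na, if_neg nc] at h3
      have : x ∉ insert a (insert c (C.erase x)) := by
        simp only [mem_insert, mem_erase, not_or]
        exact ⟨fun q => t.ha (q ▸ hx), fun q => t.hc (q ▸ hx), fun q => q.1 rfl⟩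
      rw [if_neg this] at h3
      omega
    have h3 : C ∩ unc G p (insert a (insert c (C.erase x))) ⊆ C.erase x := by
      intro v hv
      rw [mem_inter] at hv
      exact mem_erase.2 ⟨fun q => h2 (q ▸ hv.2), hv.1⟩
    have h4 := card_le_card h3
    rw [card_erase_of_mem hx] at h4
    have := t.card
    have := card_pos.2 ⟨x, hx⟩
    omega
  have h5 := t.count h hx
  have h6 : (C ∩ unc G p (insert a (insert c (C.erase x)))).card ≤ C.card :=
    card_le_card inter_subset_left
  have h7 := t.card
  have e1 : nn G a b x = 1 := by omega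
  have e2 : nn G c d x = 1 := by omega
  unfold nn at e1 e2
  by_cases pa : G.Adj x a
  · have pb : ¬ G.Adj x b := by
      intro q; rw [if_pos pa, if_pos q] at e1; omega
    by_cases pc : G.Adj x c
    · have pd : ¬ G.Adj x d := by
        intro q; rw [if_pos pc, if_pos q] at e2; omega
      have := key t.flip.swap.flip.swap pb pd
      unfold nn at this
      simp only [pa, pb, pc, pd, if_true, if_false] at this
      omega
    · have := key t.flip pb pc
      unfold nn at this
      omega
  · by_cases pc : G.Adj x c
    · have pd : ¬ G.Adj x d := by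
        intro q; rw [if_pos pc, if_pos q] at e2; omega
      have := key t.swap.flip.swap pa pd
      unfold nn at this
      omega
    · have := key t pa pc
      unfold nn at this
      omega

theorem Two.le_two (h : Bad G p i) {C : Finset V} {a b c d : V} (t : Two G p i C a b c d)
    {x : V} (hx : x ∈ C) : nn G a b x + nn G c d x ≤ 2 := by
  have h5 := t.count h hx
  have h6 : (C ∩ unc G p (insert a (insert c (C.erase x)))).card ≤ C.card :=
    card_le_card inter_subset_left
  have h7 := t.card
  omega

end Pool.Agent.SKT
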