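import Pool.Agent.SKT.S1

/-! # Core sets (clopen of size `i` below a small set) and their tight matching -/

set_option linter.unusedSectionVars false

namespace Pool.Agent.SKT

open Finset

variable {V : Type*} [Fintype V] [DecidableEq V] {G : SimpleGraph V} [DecidableRel G.Adj]
  {p : V → ℕ} {i : ℕ}

/-- a core set -/
def Cr (G : SimpleGraph V) [DecidableRel G.Adj] (p : V → ℕ) (i : ℕ) (C : Finset V) : Prop :=
  Co G p i C ∧ ∃ a b, a ≠ b ∧ a ∉ C ∧ b ∉ C ∧ Co G p (i + 2) (insert a (insert b C))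

/-- tight edge outside `C` -/
structure Ed (G : SimpleGraph V) [DecidableRel G.Adj] (p : V → ℕ) (C : Finset V) (a b : V) :
    Prop where
  ha : a ∉ C
  hb : b ∉ C
  ea : dg G C a = p a
  eb : dg G C b = p b
  adj : G.Adj a b

theorem Ed.symm {C : Finset V} {a b : V} (h : Ed G p C a b) : Ed G p C b a :=
  ⟨h.hb, h.ha, h.eb, h.ea, h.adj.symm⟩

theorem Ed.ne {C : Finset V} {a b : V} (h : Ed G p C a b) : a ≠ b := h.adj.ne

/-- a pair between `C` and a small set is a tight edge -/
theorem ed_of_small {C : Finset V} {a b : V} (hC : Cl G p C) (hab : a ≠ b) (ha : a ∉ C)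
    (hb : b ∉ C) (hs : Co G p (i + 2) (insert a (insert b C))) : Ed G p C a b := by
  have h1 := hs.2.2 a (mem_insert_self _ _)
  have h2 := hs.2.2 b (by simp)
  rw [dg_insert2 G hab ha hb] at h1 h2
  have h3 := hC a ha
  have h4 := hC b hb
  have h5 : nn G a b a = if G.Adj a b then 1 else 0 := by simp [nn]
  have h6 : nn G a b b = if G.Adj a b then 1 else 0 := by simp [nn, G.adj_comm b a]
  rw [h5] at h1
  rw [h6] at h2
  by_cases q : G.Adj a b
  · rw [if_pos q] at h1 h2
    exact ⟨ha, hb, by omega, by omega, q⟩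
  · rw [if_neg q] at h1
    omega

/-- a2 -/
theorem Cr.unique (h : Bad G p i) {C : Finset V} (hC : Cr G p i C) {t t1 t2 : V} (ht : t ∉ C)
    (ht1 : t1 ∉ C) (ht2 : t2 ∉ C) (e : dg G C t = p t) (e1 : dg G C t1 = p t1)
    (e2 : dg G C t2 = p t2) (a1 : G.Adj t t1) (a2 : G.Adj t t2) : t1 = t2 := by
  obtain ⟨hC, a, b, hab, ha, hb, hs⟩ := hC
  have hE := ed_of_small hC.2.1 hab ha hb hs
  -- tight vertices other than `a`, `b` are not adjacent to `a`, `b`
  have key : ∀ v, v ∉ C → dg G C v = p v → v ≠ a → v ≠ b →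
      v ∉ insert a (insert b C) ∧ nn G a b v = 0 ∧ dg G (insert a (insert b C)) v = p v := by
    intro v hv ev va vb
    have h1 : v ∉ insert a (insert b C) := by simp [va, vb, hv]
    have h2 := hs.2.1 v h1
    have h3 := dg_insert2 G hab ha hb v
    refine ⟨h1, by omega, by omega⟩
  by_cases hta : t = a
  · subst hta
    have f : ∀ v, v ∉ C → dg G C v = p v → G.Adj t v → v = b := by
      intro v hv ev av
      by_contra hvb
      have := (key v hv ev av.ne' hvb).2.1
      exact (nn_zero.1 this).1 av.symm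
    rw [f t1 ht1 e1 a1, f t2 ht2 e2 a2]
  · by_cases htb : t = b
    · subst htb
      have f : ∀ v, v ∉ C → dg G C v = p v → G.Adj t v → v = a := by
        intro v hv ev av
        by_contra hva
        have := (key v hv ev hva av.ne').2.1
        exact (nn_zero.1 this).2 av.symm
      rw [f t1 ht1 e1 a1, f t2 ht2 e2 a2]
    · obtain ⟨k1, k2, k3⟩ := key t ht e hta htb
      have na := (nn_zero.1 k2).1
      have nb := (nn_zero.1 k2).2
      obtain ⟨l1, l2, l3⟩ := key t1 ht1 e1 (fun q => na (q ▸ a1)) (fun q => nb (q ▸ a1))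
      obtain ⟨m1, m2, m3⟩ := key t2 ht2 e2 (fun q => na (q ▸ a2)) (fun q => nb (q ▸ a2))
      exact h.matching hs k1 l1 m1 k3 l3 m3 a1 a2

theorem Cr.ed_unique (h : Bad G p i) {C : Finset V} (hC : Cr G p i C) {a b d : V}
    (h1 : Ed G p C a b) (h2 : Ed G p C a d) : b = d :=
  hC.unique h h1.ha h1.hb h2.hb h1.ea h1.eb h2.eb h1.adj h2.adj

/-- two tight edges are equal or disjoint and not adjacent -/
theorem Cr.ed_disj (h : Bad G p i) {C : Finset V} (hC : Cr G p i C) {a b c d : V}
    (h1 : Ed G p C a b) (h2 : Ed G p C c d) (ac : a ≠ c) (ad : a ≠ d) : b ≠ c ∧ b ≠ d := by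
  constructor
  · rintro rfl
    exact ad (hC.ed_unique h h1.symm h2)
  · rintro rfl
    exact ac (hC.ed_unique h h1.symm h2.symm)

/-- a tight vertex off a tight edge is not adjacent to it -/
theorem Cr.nn_tight (h : Bad G p i) {C : Finset V} (hC : Cr G p i C) {a b v : V}
    (h1 : Ed G p C a b) (hv : v ∉ C) (ev : dg G C v = p v) (va : v ≠ a) (vb : v ≠ b) :
    nn G a b v = 0 := by
  rw [nn_zero]
  constructor
  · intro q
    exact vb (hC.unique h h1.ha hv h1.hb h1.ea ev h1.eb q.symm h1.adj)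
  · intro q
    exact va (hC.unique h h1.hb hv h1.ha h1.eb ev h1.ea q.symm h1.adj.symm)

/-- a1: every tight vertex has a tight neighbour -/
theorem Cr.partner (h : Bad G p i) {C : Finset V} (hC : Cr G p i C) {t : V} (ht : t ∉ C)
    (e : dg G C t = p t) : ∃ t', Ed G p C t t' := by
  have hcard : (insert t C).card = i + 1 := by rw [card_insert_of_notMem ht, hC.1.1]
  have h1 := h.bad _ hcard
  by_contra hno
  push Not at hno
  have h2 : unc G p (insert t C) ⊆ insert t C := by
    intro v hv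
    by_contra hvM
    have hv' := (mem_filter.1 hv).2
    rw [if_neg hvM, dg_insert G ht] at hv'
    simp only [mem_insert, not_or] at hvM
    have h3 := hC.1.2.1 v hvM.2
    by_cases hadj : G.Adj v t
    · rw [if_pos hadj] at hv'
      exact hno v ⟨ht, hvM.2, e, by omega, hadj.symm⟩
    · rw [if_neg hadj] at hv'
      omega
  have h3 := card_le_card h2
  omega

/-- c: a vertex outside which is not tight has two tight neighbours -/
theorem Cr.two_nbrs (h : Bad G p i) {C : Finset V} (hC : Cr G p i C) {w : V} (hw : w ∉ C)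
    (e : dg G C w < p w) : ∃ t1 t2, t1 ≠ t2 ∧ t1 ∉ C ∧ t2 ∉ C ∧ dg G C t1 = p t1 ∧
      dg G C t2 = p t2 ∧ G.Adj w t1 ∧ G.Adj w t2 := by
  have hcard : (insert w C).card = i + 1 := by rw [card_insert_of_notMem hw, hC.1.1]
  have h1 := h.bad _ hcard
  set T := univ.filter (fun t => t ∉ C ∧ dg G C t = p t ∧ G.Adj w t) with hT
  have h2 : unc G p (insert w C) ⊆ C ∪ T := by
    intro v hv
    rw [mem_union]
    by_cases hvC : v ∈ C
    · exact Or.inl hvC
    · right
      have hv' := (mem_filter.1 hv).2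
      rw [dg_insert G hw] at hv'
      by_cases hvw : v = w
      · subst hvw
        simp only [SimpleGraph.irrefl, if_false, mem_insert_self, if_true] at hv'
        omega
      · rw [if_neg (show v ∉ insert w C by simp [hvw, hvC])] at hv'
        have h3 := hC.1.2.1 v hvC
        by_cases hadj : G.Adj v w
        · rw [if_pos hadj] at hv'
          rw [hT, mem_filter]
          exact ⟨mem_univ _, hvC, by omega, hadj.symm⟩
        · rw [if_neg hadj] at hv'
          omega
  have h3 := card_le_card h2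
  have h4 := card_union_le C T
  have h5 := hC.1.1
  have h6 : 1 < T.card := by omega
  obtain ⟨t1, ht1, t2, ht2, hne⟩ := one_lt_card.1 h6
  rw [hT, mem_filter] at ht1 ht2
  exact ⟨t1, t2, hne, ht1.2.1, ht2.2.1, ht1.2.2.1, ht2.2.2.1, ht1.2.2.2, ht2.2.2.2⟩

theorem Cr.ed (h : Bad G p i) {C : Finset V} (hC : Cr G p i C) :
    ∃ a b, Ed G p C a b ∧ Co G p (i + 2) (insert a (insert b C)) := by
  obtain ⟨hC, a, b, hab, ha, hb, hs⟩ := hC
  exact ⟨a, b, ed_of_small hC.2.1 hab ha hb hs, hs⟩

/-- b: every tight edge gives a small set -/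
theorem Cr.small (h : Bad G p i) {C : Finset V} (hC : Cr G p i C) {t t' : V}
    (he : Ed G p C t t') : Co G p (i + 2) (insert t (insert t' C)) := by
  obtain ⟨a, b, hE, hs⟩ := hC.ed h
  by_cases hta : t = a
  · subst hta
    rw [hC.ed_unique h he hE]
    exact hs
  by_cases htb : t = b
  · subst htb
    rw [hC.ed_unique h he hE.symm, insert_comm]
    exact hs
  obtain ⟨h1a, h1b⟩ := hC.ed_disj h he hE hta htb
  have na := hC.nn_tight h hE he.ha he.ea hta htb
  have nb := hC.nn_tight h hE he.hb he.eb h1a h1b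
  have mt : t ∉ insert a (insert b C) := by simp [hta, htb, he.ha]
  have mt' : t' ∉ insert a (insert b C) := by simp [h1a, h1b, he.hb]
  have hw : Wl G p i (insert a (insert b C)) t t' := by
    refine h.wall_of_tight hs mt mt' ?_ ?_ he.adj
    · rw [dg_insert2 G hE.ne hE.ha hE.hb, na, he.ea, Nat.add_zero]
    · rw [dg_insert2 G hE.ne hE.ha hE.hb, nb, he.eb, Nat.add_zero]
  apply h.small_of_cl
  · rw [card_insert2 he.ne he.ha he.hb, hC.1.1]
  · intro v hv
    rw [dg_insert2 G he.ne he.ha he.hb]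
    simp only [mem_insert, not_or] at hv
    obtain ⟨v1, v2, v3⟩ := hv
    by_cases hva : v = a
    · subst hva
      have := hC.nn_tight h he hE.ha hE.ea v1 v2
      rw [this, hE.ea, Nat.add_zero]
    by_cases hvb : v = b
    · subst hvb
      have := hC.nn_tight h he hE.hb hE.eb v1 v2
      rw [this, hE.eb, Nat.add_zero]
    have h2 := hw.2.2.2.2.2.1 v (by simp [v1, v2, v3, hva, hvb])
    rw [dg_insert2 G he.ne mt mt', dg_insert2 G hE.ne hE.ha hE.hb] at h2
    omega

/-- b2 -/
theorem Cr.wall (h : Bad G p i) {C : Finset V} (hC : Cr G p i C) {a b c d : V}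
    (h1 : Ed G p C a b) (h2 : Ed G p C c d) (ac : a ≠ c) (ad : a ≠ d) :
    Wl G p i (insert c (insert d C)) a b := by
  obtain ⟨bc, bd⟩ := hC.ed_disj h h1 h2 ac ad
  have na := hC.nn_tight h h2 h1.ha h1.ea ac ad
  have nb := hC.nn_tight h h2 h1.hb h1.eb bc bd
  refine h.wall_of_tight (hC.small h h2) (by simp [ac, ad, h1.ha]) (by simp [bc, bd, h1.hb])
    ?_ ?_ h1.adj
  · rw [dg_insert2 G h2.ne h2.ha h2.hb, na, h1.ea, Nat.add_zero]
  · rw [dg_insert2 G h2.ne h2.ha h2.hb, nb, h1.eb, Nat.add_zero]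

theorem Cr.two (h : Bad G p i) {C : Finset V} (hC : Cr G p i C) {a b c d : V}
    (h1 : Ed G p C a b) (h2 : Ed G p C c d) (ac : a ≠ c) (ad : a ≠ d) :
    Two G p i C a b c d := by
  obtain ⟨bc, bd⟩ := hC.ed_disj h h1 h2 ac ad
  exact ⟨h1.ne, ac, ad, bc, bd, h2.ne, h1.ha, h1.hb, h2.ha, h2.hb, hC.1.1, hC.small h h1,
    hC.small h h2, (hC.wall h h1 h2 ac ad).2.2.2.2⟩

/-! ## complements -/

theorem compl_insert2 {a b : V} {S : Finset V} (ha : a ∉ S) (hb : b ∉ S) :
    insert a (insert b (insert a (insert b S))ᶜ) = Sᶜ := by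
  ext x
  simp only [mem_insert, mem_compl, not_or]
  constructor
  · rintro (rfl | rfl | ⟨_, _, h⟩)
    · exact ha
    · exact hb
    · exact h
  · intro h
    by_cases h1 : x = a
    · exact Or.inl h1
    · by_cases h2 : x = b
      · exact Or.inr (Or.inl h2)
      · exact Or.inr (Or.inr ⟨h1, h2, h⟩)

theorem insert4_comm {a b c d : V} {S : Finset V} :
    insert a (insert b (insert c (insert d S))) = insert c (insert d (insert a (insert b S))) := by
  ext x; simp only [mem_insert]; tauto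

/-- two walls at a small set: the complement of the union -/
theorem two_of_walls (h : Bad G p i) {A : Finset V} {a b c d : V} (h1 : Wl G p i A a b)
    (h2 : Wl G p i A c d) (ac : a ≠ c) (ad : a ≠ d) :
    Two G p i (insert a (insert b (insert c (insert d A))))ᶜ a b c d := by
  obtain ⟨bc, bd⟩ := Wl.disj h h1 h2 ac ad
  have e1 : insert a (insert b (insert a (insert b (insert c (insert d A))))ᶜ) =
      (insert c (insert d A))ᶜ :=
    compl_insert2 (by simp [ac, ad, h1.2.1]) (by simp [bc, bd, h1.2.2.1])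
  have e2 : insert c (insert d (insert a (insert b (insert c (insert d A))))ᶜ) =
      (insert a (insert b A))ᶜ := by
    rw [insert4_comm]
    exact compl_insert2 (by simp [ac.symm, bc.symm, h2.2.1]) (by simp [ad.symm, bd.symm, h2.2.2.1])
  refine ⟨h1.1, ac, ad, bc, bd, h2.1, by simp, by simp, by simp, by simp, ?_, ?_, ?_, ?_⟩
  · have h3 := card_compl_add_card (insert a (insert b (insert c (insert d A))))
    rw [card_insert2 h1.1 (by simp [ac, ad, h1.2.1]) (by simp [bc, bd, h1.2.2.1]),
      card_insert2 h2.1 h2.2.1 h2.2.2.1, h1.2.2.2.1.1, h.card] at h3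
    omega
  · rw [e1, h.co_compl (l := i + 4) (by omega)]; exact h2.2.2.2.2
  · rw [e2, h.co_compl (l := i + 4) (by omega)]; exact h1.2.2.2.2
  · rw [e2, compl_insert2 h1.2.1 h1.2.2.1, h.co_compl (l := i + 2) (by omega)]
    exact h1.2.2.2.1

theorem Two.cr (h : Bad G p i) {C : Finset V} {a b c d : V} (t : Two G p i C a b c d) :
    Cr G p i C :=
  ⟨⟨t.card, t.cl, t.op h⟩, a, b, t.ab, t.ha, t.hb, t.s1⟩

theorem Two.ed {C : Finset V} {a b c d : V} (t : Two G p i C a b c d) : Ed G p C a b :=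
  ⟨t.ha, t.hb, t.tight.2.1, t.flip.tight.2.1, t.tight.1⟩

end Pool.Agent.SKT
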