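import Pool.Agent.SKT.S2

/-! # At least three tight edges; triples; walls at a small set -/

set_option linter.unusedSectionVars false

namespace Pool.Agent.SKT

open Finset

variable {V : Type*} [Fintype V] [DecidableEq V] {G : SimpleGraph V} [DecidableRel G.Adj]
  {p : V → ℕ} {i : ℕ}

theorem dg_sum (S : Finset V) (v : V) : dg G S v = ∑ s ∈ S, (if G.Adj v s then 1 else 0) := by
  unfold dg
  rw [card_filter]

theorem sum_dg_comm (S T : Finset V) : ∑ t ∈ T, dg G S t = ∑ s ∈ S, dg G T s := by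
  simp_rw [dg_sum]
  rw [sum_comm]
  refine sum_congr rfl (fun s _ => sum_congr rfl (fun t _ => ?_))
  simp [G.adj_comm t s]

/-- the tight vertices outside `C` -/
def Tt (G : SimpleGraph V) [DecidableRel G.Adj] (p : V → ℕ) (C : Finset V) : Finset V :=
  univ.filter (fun t => t ∉ C ∧ dg G C t = p t)

theorem mem_Tt {C : Finset V} {t : V} : t ∈ Tt G p C ↔ t ∉ C ∧ dg G C t = p t := by
  simp [Tt]

theorem Cr.dg_Tt (h : Bad G p i) {C : Finset V} (hC : Cr G p i C) {t : V} (ht : t ∈ Tt G p C) :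
    dg G (Tt G p C) t = 1 := by
  rw [mem_Tt] at ht
  obtain ⟨t', he⟩ := hC.partner h ht.1 ht.2
  unfold dg
  rw [card_eq_one]
  refine ⟨t', ?_⟩
  ext x
  rw [mem_filter, mem_singleton, mem_Tt]
  constructor
  · rintro ⟨⟨h1, h2⟩, h3⟩
    exact hC.unique h ht.1 h1 he.hb ht.2 h2 he.eb h3 he.adj
  · rintro rfl
    exact ⟨⟨he.hb, he.eb⟩, he.adj⟩

theorem Cr.card_Tt (h : Bad G p i) {C : Finset V} (hC : Cr G p i C)
    (hle : ∀ x ∈ C, dg G (Tt G p C) x ≤ 2) : 4 < (Tt G p C).card := by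
  set T := Tt G p C with hT
  have hdisj : Disjoint C T := by
    rw [disjoint_left]
    intro x hx hxT
    rw [hT, mem_Tt] at hxT
    exact hxT.1 hx
  have h1 : ∑ t ∈ T, dg G C t ≤ 2 * i := by
    rw [sum_dg_comm, ← hC.1.1]
    calc ∑ s ∈ C, dg G T s ≤ ∑ _s ∈ C, 2 := sum_le_sum hle
      _ = 2 * C.card := by rw [sum_const, smul_eq_mul, mul_comm]
  have h2 : 2 * (C ∪ T)ᶜ.card ≤ ∑ t ∈ T, dg G (C ∪ T)ᶜ t := by
    rw [sum_dg_comm]
    calc 2 * (C ∪ T)ᶜ.card = ∑ _s ∈ (C ∪ T)ᶜ, 2 := by rw [sum_const, smul_eq_mul, mul_comm]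
      _ ≤ ∑ s ∈ (C ∪ T)ᶜ, dg G T s := by
        apply sum_le_sum
        intro w hw
        rw [mem_compl, mem_union, not_or] at hw
        have hw2 : dg G C w < p w := by
          have q1 := hC.1.2.1 w hw.1
          rcases lt_or_eq_of_le q1 with q | q
          · exact q
          · exact absurd (mem_Tt.2 ⟨hw.1, q⟩) hw.2
        obtain ⟨t1, t2, hne, a1, a2, a3, a4, a5, a6⟩ := hC.two_nbrs h hw.1 hw2
        unfold dg
        have : 1 < (T.filter (fun u => G.Adj w u)).card := by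
          rw [one_lt_card]
          exact ⟨t1, mem_filter.2 ⟨mem_Tt.2 ⟨a1, a3⟩, a5⟩, t2, mem_filter.2 ⟨mem_Tt.2 ⟨a2, a4⟩, a6⟩,
            hne⟩
        exact this
  have h3 : ∑ t ∈ T, dg G (C ∪ T)ᶜ t = ∑ t ∈ T, dg G C t := by
    apply sum_congr rfl
    intro t ht
    have e1 := h.dg_compl (C ∪ T) t
    rw [dg_union G hdisj] at e1
    have e2 := hC.dg_Tt h ht
    have e3 := (mem_Tt.1 ht).2
    rw [← hT] at e2
    omega
  have h4 := card_compl_add_card (C ∪ T)
  rw [card_union_of_disjoint hdisj, h.card, hC.1.1] at h4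
  omega

/-- d: a third tight edge -/
theorem Cr.third (h : Bad G p i) {C : Finset V} (hC : Cr G p i C) {a b c d : V}
    (h1 : Ed G p C a b) (h2 : Ed G p C c d) (ac : a ≠ c) (ad : a ≠ d) :
    ∃ x y, Ed G p C x y ∧ x ≠ a ∧ x ≠ b ∧ x ≠ c ∧ x ≠ d ∧ y ≠ a ∧ y ≠ b ∧ y ≠ c ∧ y ≠ d := by
  by_contra hno
  have hsub : Tt G p C ⊆ insert a (insert b (insert c (insert d ∅))) := by
    intro t ht
    by_contra hnot
    simp only [mem_insert, notMem_empty, or_false, not_or] at hnot
    obtain ⟨ta, tb, tc, td⟩ := hnot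
    obtain ⟨t', he⟩ := hC.partner h (mem_Tt.1 ht).1 (mem_Tt.1 ht).2
    obtain ⟨q1, q2⟩ := hC.ed_disj h he h1 ta tb
    obtain ⟨q3, q4⟩ := hC.ed_disj h he h2 tc td
    exact hno ⟨t, t', he, ta, tb, tc, td, q1, q2, q3, q4⟩
  obtain ⟨bc, bd⟩ := hC.ed_disj h h1 h2 ac ad
  have h3 := hC.card_Tt h (fun x hx => by
    have e1 := dg_mono G hsub x
    rw [dg_insert2 G h1.ne (by simp [ac, ad]) (by simp [bc, bd]),
      dg_insert2 G h2.ne (by simp) (by simp), dg_empty] at e1
    have e2 := (hC.two h h1 h2 ac ad).le_two h hx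
    omega)
  have h4 := card_le_card hsub
  have h5 : (insert a (insert b (insert c (insert d (∅ : Finset V))))).card ≤ 4 := by
    rw [card_insert2 h1.ne (by simp [ac, ad]) (by simp [bc, bd]),
      card_insert2 h2.ne (by simp) (by simp)]
    simp
  omega

/-- a second tight edge -/
theorem Cr.second (h : Bad G p i) {C : Finset V} (hC : Cr G p i C) {a b : V}
    (h1 : Ed G p C a b) :
    ∃ x y, Ed G p C x y ∧ x ≠ a ∧ x ≠ b ∧ y ≠ a ∧ y ≠ b := by
  by_contra hno
  have hsub : Tt G p C ⊆ insert a (insert b ∅) := by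
    intro t ht
    by_contra hnot
    simp only [mem_insert, notMem_empty, or_false, not_or] at hnot
    obtain ⟨ta, tb⟩ := hnot
    obtain ⟨t', he⟩ := hC.partner h (mem_Tt.1 ht).1 (mem_Tt.1 ht).2
    obtain ⟨q1, q2⟩ := hC.ed_disj h he h1 ta tb
    exact hno ⟨t, t', he, ta, tb, q1, q2⟩
  have h3 := hC.card_Tt h (fun x _ => by
    have e1 := dg_mono G hsub x
    rw [dg_insert2 G h1.ne (by simp) (by simp), dg_empty] at e1
    have e2 := nn_le G a b x
    omega)
  have h4 := card_le_card hsub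
  have h5 : (insert a (insert b (∅ : Finset V))).card ≤ 4 := by
    rw [card_insert2 h1.ne (by simp) (by simp)]
    simp
  omega

/-- f: the complement of `C` and three tight edges -/
theorem Cr.triple (h : Bad G p i) {C : Finset V} (hC : Cr G p i C) {a b c d x y : V}
    (h1 : Ed G p C a b) (h2 : Ed G p C c d) (h3 : Ed G p C x y) (ac : a ≠ c) (ad : a ≠ d)
    (ax : a ≠ x) (ay : a ≠ y) (cx : c ≠ x) (cy : c ≠ y) :
    Two G p i (insert a (insert b (insert c (insert d (insert x (insert y C))))))ᶜ a b c d :=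
  two_of_walls h (hC.wall h h1 h3 ax ay) (hC.wall h h2 h3 cx cy) ac ad

/-- e: any vertex off two tight edges has at most two neighbours on them -/
theorem Cr.le_two (h : Bad G p i) {C : Finset V} (hC : Cr G p i C) {a b c d : V}
    (h1 : Ed G p C a b) (h2 : Ed G p C c d) (ac : a ≠ c) (ad : a ≠ d) {v : V}
    (va : v ≠ a) (vb : v ≠ b) (vc : v ≠ c) (vd : v ≠ d) : nn G a b v + nn G c d v ≤ 2 := by
  by_cases hv : v ∈ C
  · exact (hC.two h h1 h2 ac ad).le_two h hv
  by_cases hv2 : dg G C v = p v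
  · rw [hC.nn_tight h h1 hv hv2 va vb, hC.nn_tight h h2 hv hv2 vc vd]
    omega
  obtain ⟨x, y, h3, xa, xb, xc, xd, ya, yb, yc, yd⟩ := hC.third h h1 h2 ac ad
  have ht := hC.triple h h1 h2 h3 ac ad xa.symm ya.symm xc.symm yc.symm
  refine ht.le_two h (x := v) ?_
  simp only [mem_compl, mem_insert, not_or]
  refine ⟨va, vb, vc, vd, ?_, ?_, hv⟩
  · rintro rfl; exact hv2 h3.ea
  · rintro rfl; exact hv2 h3.eb

/-! ## small sets -/

/-- nobody in the pair `x y` is adjacent to the pair `a b` -/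
def NA (G : SimpleGraph V) [DecidableRel G.Adj] (a b x y : V) : Prop :=
  nn G a b x = 0 ∧ nn G a b y = 0

/-- complete join -/
def FJ (G : SimpleGraph V) [DecidableRel G.Adj] (a b x y : V) : Prop :=
  nn G a b x = 2 ∧ nn G a b y = 2

theorem NA.comm {a b x y : V} (h : NA G a b x y) : NA G x y a b := by
  unfold NA at *
  rw [nn_zero, nn_zero] at *
  exact ⟨⟨fun q => h.1.1 q.symm, fun q => h.2.1 q.symm⟩, ⟨fun q => h.1.2 q.symm,
    fun q => h.2.2 q.symm⟩⟩

theorem FJ.comm {a b x y : V} (h : FJ G a b x y) : FJ G x y a b := by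
  unfold FJ at *
  rw [nn_two, nn_two] at *
  exact ⟨⟨h.1.1.symm, h.2.1.symm⟩, ⟨h.1.2.symm, h.2.2.symm⟩⟩

theorem NA.not_fj {a b x y : V} (h : NA G a b x y) : ¬ FJ G a b x y := by
  rintro ⟨h1, _⟩
  have := h.1
  omega

theorem erase2_insert2 {a b : V} {A : Finset V} (hab : a ≠ b) (ha : a ∈ A) (hb : b ∈ A) :
    insert a (insert b ((A.erase a).erase b)) = A := by
  rw [insert_erase (mem_erase.2 ⟨hab.symm, hb⟩), insert_erase ha]

theorem Ac.cr {A : Finset V} {a b : V} (h : Ac G p i A a b) :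
    Cr G p i ((A.erase a).erase b) := by
  refine ⟨h.2.2.2.2, a, b, h.1, by simp, by simp, ?_⟩
  rw [erase2_insert2 h.1 h.2.1 h.2.2.1]
  exact h.2.2.2.1

theorem Ac.ed {A : Finset V} {a b : V} (h : Ac G p i A a b) :
    Ed G p ((A.erase a).erase b) a b := by
  refine ed_of_small (i := i) h.2.2.2.2.2.1 h.1 (by simp) (by simp) ?_
  rw [erase2_insert2 h.1 h.2.1 h.2.2.1]
  exact h.2.2.2.1

theorem notMem_erase2 {a b x : V} {A : Finset V} (hx : x ∉ A) : x ∉ (A.erase a).erase b :=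
  fun q => hx (mem_of_mem_erase (mem_of_mem_erase q))

/-- L5, non adjacent case -/
theorem Ac.ed_of_na {A : Finset V} {a b x y : V} (h1 : Ac G p i A a b) (h2 : Wl G p i A x y)
    (h3 : NA G a b x y) : Ed G p ((A.erase a).erase b) x y := by
  obtain ⟨q1, q2, q3⟩ := h2.tight
  have e1 := dg_erase2 G h1.1 h1.2.1 h1.2.2.1 x
  have e2 := dg_erase2 G h1.1 h1.2.1 h1.2.2.1 y
  rw [h3.1] at e1
  rw [h3.2] at e2
  exact ⟨notMem_erase2 h2.2.1, notMem_erase2 h2.2.2.1, by omega, by omega, q1⟩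

/-- L5: a wall is not adjacent or completely joined to an active inner pair -/
theorem Ac.na_or_fj (h : Bad G p i) {A : Finset V} {a b x y : V} (h1 : Ac G p i A a b)
    (h2 : Wl G p i A x y) : NA G a b x y ∨ FJ G a b x y := by
  have hC := h1.cr
  have hE := h1.ed
  set C := (A.erase a).erase b with hCdef
  have hAC : insert a (insert b C) = A := erase2_insert2 h1.1 h1.2.1 h1.2.2.1
  have hdA : ∀ v, dg G A v = dg G C v + nn G a b v := by
    intro v
    rw [← hAC, dg_insert2 G h1.1 (by simp [hCdef]) (by simp [hCdef])]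
  -- if `x` is tight at `C` then so is `y`
  have key : ∀ {x y : V}, Wl G p i A x y → nn G a b x = 0 → nn G a b y = 0 := by
    intro x y h2 hx0
    obtain ⟨q1, q2, q3⟩ := h2.tight
    have e1 := hdA x
    have hxC : x ∉ C := notMem_erase2 h2.2.1
    obtain ⟨t', ht'⟩ := hC.partner h hxC (by omega)
    have xa : x ≠ a := fun q => h2.2.1 (q ▸ h1.2.1)
    have xb : x ≠ b := fun q => h2.2.1 (q ▸ h1.2.2.1)
    obtain ⟨ta, tb⟩ := hC.ed_disj h ht' hE xa xb
    have nt := hC.nn_tight h hE ht'.hb ht'.eb ta tb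
    have htA : t' ∉ A := by
      rw [← hAC]
      simp [ta, tb, ht'.hb]
    have e2 := hdA t'
    have e3 := ht'.eb
    have := h.matching h2.2.2.2.1 h2.2.1 h2.2.2.1 htA q2 q3 (by omega) q1 ht'.adj
    rw [this, nt]
  -- if `x` is not tight at `C` then it is joined to `a` and `b`
  have key2 : ∀ {x y : V}, Wl G p i A x y → nn G a b x ≠ 0 → nn G a b x = 2 := by
    intro x y h2 hx0
    obtain ⟨q1, q2, q3⟩ := h2.tight
    have e1 := hdA x
    have hxC : x ∉ C := notMem_erase2 h2.2.1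
    obtain ⟨t1, t2, hne, m1, m2, f1, f2, g1, g2⟩ := hC.two_nbrs h hxC (by omega)
    have xa : x ≠ a := fun q => h2.2.1 (q ▸ h1.2.1)
    have xb : x ≠ b := fun q => h2.2.1 (q ▸ h1.2.2.1)
    have k : ∀ t, t ∉ C → dg G C t = p t → G.Adj x t → t = a ∨ t = b := by
      intro t ht et at'
      by_contra hno
      rw [not_or] at hno
      obtain ⟨t', he⟩ := hC.partner h ht et
      have hw := hC.wall h he hE hno.1 hno.2
      have hxt : x ≠ t := at'.ne
      have hxt' : x ≠ t' := by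
        rintro rfl
        have := he.eb
        omega
      have h5 := hw.2.2.2.2.2.1 x (by simp [hxt, hxt', xa, xb, hxC])
      rw [dg_insert2 G he.ne hw.2.1 hw.2.2.1, hAC] at h5
      have h6 : nn G t t' x ≠ 0 := fun q => (nn_zero.1 q).1 at'
      omega
    rw [nn_two]
    rcases k t1 m1 f1 g1 with r1 | r1 <;> rcases k t2 m2 f2 g2 with r2 | r2
    · exact absurd (r1.trans r2.symm) hne
    · exact ⟨r1 ▸ g1, r2 ▸ g2⟩
    · exact ⟨r2 ▸ g2, r1 ▸ g1⟩
    · exact absurd (r1.trans r2.symm) hne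
  by_cases hx0 : nn G a b x = 0
  · exact Or.inl ⟨hx0, key h2 hx0⟩
  · right
    have hy0 : nn G a b y ≠ 0 := fun q => hx0 (key h2.symm q)
    exact ⟨key2 h2 hx0, key2 h2.symm hy0⟩

/-- tight edges of the core are walls at the small set -/
theorem Ac.wall_of_ed (h : Bad G p i) {A : Finset V} {a b x y : V} (h1 : Ac G p i A a b)
    (h2 : Ed G p ((A.erase a).erase b) x y) (xa : x ≠ a) (xb : x ≠ b) :
    Wl G p i A x y ∧ NA G a b x y := by
  have hC := h1.cr
  have hE := h1.ed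
  have hw := hC.wall h h2 hE xa xb
  rw [erase2_insert2 h1.1 h1.2.1 h1.2.2.1] at hw
  obtain ⟨ya, yb⟩ := hC.ed_disj h h2 hE xa xb
  exact ⟨hw, hC.nn_tight h hE h2.ha h2.ea xa xb, hC.nn_tight h hE h2.hb h2.eb ya yb⟩

/-- an active inner pair has a wall not adjacent to it, avoiding any given pair -/
theorem Ac.exists_na (h : Bad G p i) {A : Finset V} {a b : V} (h1 : Ac G p i A a b) :
    ∃ x y z w, Wl G p i A x y ∧ NA G a b x y ∧ Wl G p i A z w ∧ NA G a b z w ∧
      x ≠ z ∧ x ≠ w := by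
  have hC := h1.cr
  have hE := h1.ed
  obtain ⟨x, y, e1, xa, xb, _, _⟩ := hC.second h hE
  obtain ⟨z, w, e2, za, zb, zx, zy, _, _, wx, wy⟩ := hC.third h hE e1 xa.symm (by
    intro q; subst q
    exact xb (hC.ed_unique h hE e1.symm).symm)
  obtain ⟨w1, n1⟩ := h1.wall_of_ed h e1 xa xb
  obtain ⟨w2, n2⟩ := h1.wall_of_ed h e2 za zb
  exact ⟨x, y, z, w, w1, n1, w2, n2, zx.symm, wx.symm⟩

/-- L6: two walls have a common non adjacent active inner pair -/
theorem common_inner (h : Bad G p i) {A : Finset V} {a b c d : V} (h1 : Wl G p i A a b)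
    (h2 : Wl G p i A c d) (ac : a ≠ c) (ad : a ≠ d) :
    ∃ x y, Ac G p i A x y ∧ NA G x y a b ∧ NA G x y c d ∧
      Ed G p (insert a (insert b (insert c (insert d A))))ᶜ x y := by
  have ht := two_of_walls h h1 h2 ac ad
  set C := (insert a (insert b (insert c (insert d A))))ᶜ with hCdef
  have hC := ht.cr h
  have e1 := ht.ed
  have e2 := ht.swap.ed
  obtain ⟨x, y, e3, xa, xb, xc, xd, ya, yb, yc, yd⟩ := hC.third h e1 e2 ac ad
  have hx : x ∈ A := by
    have := e3.ha
    simp only [hCdef, mem_compl, not_not, mem_insert] at this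
    rcases this with r | r | r | r | r
    · exact absurd r xa
    · exact absurd r xb
    · exact absurd r xc
    · exact absurd r xd
    · exact r
  have hy : y ∈ A := by
    have := e3.hb
    simp only [hCdef, mem_compl, not_not, mem_insert] at this
    rcases this with r | r | r | r | r
    · exact absurd r ya
    · exact absurd r yb
    · exact absurd r yc
    · exact absurd r yd
    · exact r
  have h3 := hC.triple h e1 e2 e3 ac ad xa.symm ya.symm xc.symm yc.symm
  have hset : (insert a (insert b (insert c (insert d (insert x (insert y C))))))ᶜ =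
      (A.erase x).erase y := by
    ext v
    simp only [hCdef, mem_compl, mem_insert, mem_erase, not_or, not_and, not_not]
    constructor
    · rintro ⟨va, vb, vc, vd, vx, vy, hv⟩
      refine ⟨vy, vx, ?_⟩
      exact hv va vb vc vd
    · rintro ⟨vy, vx, hv⟩
      refine ⟨?_, ?_, ?_, ?_, vx, vy, fun _ _ _ _ => hv⟩
      · rintro rfl; exact h1.2.1 hv
      · rintro rfl; exact h1.2.2.1 hv
      · rintro rfl; exact h2.2.1 hv
      · rintro rfl; exact h2.2.2.1 hv
  rw [hset] at h3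
  refine ⟨x, y, ⟨e3.ne, hx, hy, h1.2.2.2.1, (h3.cr h).1⟩, ?_, ?_, e3⟩
  · exact ⟨hC.nn_tight h e3 e1.ha e1.ea xa.symm ya.symm, hC.nn_tight h e3 e1.hb e1.eb xb.symm yb.symm⟩
  · exact ⟨hC.nn_tight h e3 e2.ha e2.ea xc.symm yc.symm, hC.nn_tight h e3 e2.hb e2.eb xd.symm yd.symm⟩

end Pool.Agent.SKT
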