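import Pool.Agent.SKT.S3

/-! # The half relation is invariant along walls -/

set_option linter.unusedSectionVars false

namespace Pool.Agent.SKT

open Finset

variable {V : Type*} [Fintype V] [DecidableEq V] {G : SimpleGraph V} [DecidableRel G.Adj]
  {p : V → ℕ} {i : ℕ}

theorem Ac.inner_tight {A : Finset V} {a b : V} (h1 : Ac G p i A a b) :
    dg G A a = p a + 1 := by
  have hE := h1.ed
  have e1 := dg_erase2 G h1.1 h1.2.1 h1.2.2.1 a
  have e2 : nn G a b a = 1 := by simp [nn, hE.adj]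
  have e3 := hE.ea
  omega

theorem Ac.na_of_ne {A : Finset V} {a b c d : V} (h1 : Ac G p i A a b) (h2 : Ac G p i A c d)
    (ca : c ≠ a) (cb : c ≠ b) : nn G a b c = 0 := by
  have e1 := h1.2.2.2.2.2.2 c (mem_erase.2 ⟨cb, mem_erase.2 ⟨ca, h2.2.1⟩⟩)
  have e2 := dg_erase2 G h1.1 h1.2.1 h1.2.2.1 c
  have e3 := h2.inner_tight
  omega

theorem Ac.unique {A : Finset V} {a b d : V} (h1 : Ac G p i A a b) (h2 : Ac G p i A a d) :
    b = d := by
  by_contra hne
  have e1 := h1.na_of_ne h2.symm h2.1.symm (fun q => hne q.symm)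
  exact (nn_zero.1 e1).1 h2.ed.adj.symm

theorem Ac.disj {A : Finset V} {a b c d : V} (h1 : Ac G p i A a b) (h2 : Ac G p i A c d)
    (ac : a ≠ c) (ad : a ≠ d) : b ≠ c ∧ b ≠ d := by
  constructor
  · rintro rfl
    exact ad (h1.symm.unique h2)
  · rintro rfl
    exact ac (h1.symm.unique h2.symm)

theorem Ac.na {A : Finset V} {a b c d : V} (h1 : Ac G p i A a b) (h2 : Ac G p i A c d)
    (ac : a ≠ c) (ad : a ≠ d) : NA G a b c d := by
  obtain ⟨bc, bd⟩ := h1.disj h2 ac ad
  exact ⟨h1.na_of_ne h2 ac.symm bc.symm, h1.na_of_ne h2.symm ad.symm bd.symm⟩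

/-- (iii) -/
theorem le_two_iii (h : Bad G p i) {A : Finset V} {a b c d v : V} (h1 : Ac G p i A a b)
    (h2 : Wl G p i A c d) (hn : NA G a b c d) (va : v ≠ a) (vb : v ≠ b) (vc : v ≠ c)
    (vd : v ≠ d) : nn G a b v + nn G c d v ≤ 2 :=
  h1.cr.le_two h h1.ed (h1.ed_of_na h2 hn) (fun q => h2.2.1 (q ▸ h1.2.1))
    (fun q => h2.2.2.1 (q ▸ h1.2.1)) va vb vc vd

/-- (i) -/
theorem le_two_i (h : Bad G p i) {A : Finset V} {a b c d v : V} (h1 : Wl G p i A a b)
    (h2 : Wl G p i A c d) (ac : a ≠ c) (ad : a ≠ d) (va : v ≠ a) (vb : v ≠ b) (vc : v ≠ c)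
    (vd : v ≠ d) : nn G a b v + nn G c d v ≤ 2 := by
  obtain ⟨x, y, h3, n1, n2, _⟩ := common_inner h h1 h2 ac ad
  exact h3.cr.le_two h (h3.ed_of_na h1 n1) (h3.ed_of_na h2 n2) ac ad va vb vc vd

/-- two walls not adjacent to one active pair and joined to another one coincide -/
theorem Ac.diff (h : Bad G p i) {A : Finset V} {a b c d x y z w : V} (h1 : Ac G p i A a b)
    (h2 : Ac G p i A c d) (w1 : Wl G p i A x y)
    (w2 : Wl G p i A z w) (xz : x ≠ z) (xw : x ≠ w) (n1 : NA G a b x y) (n2 : NA G a b z w)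
    (f1 : FJ G c d x y) (f2 : FJ G c d z w) : False := by
  have e1 := h1.ed_of_na w1 n1
  have e2 := h1.ed_of_na w2 n2
  have hc := h2.2.1
  have := h1.cr.le_two h e1 e2 xz xw (v := c) (fun q => w1.2.1 (q ▸ hc))
    (fun q => w1.2.2.1 (q ▸ hc)) (fun q => w2.2.1 (q ▸ hc)) (fun q => w2.2.2.1 (q ▸ hc))
  have g1 := f1.comm.1
  have g2 := f2.comm.1
  omega

/-- two active pairs have a common non adjacent wall -/
theorem Ac.common_wall (h : Bad G p i) {A : Finset V} {a b c d : V} (h1 : Ac G p i A a b)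
    (h2 : Ac G p i A c d) :
    ∃ x y, Wl G p i A x y ∧ NA G a b x y ∧ NA G c d x y := by
  obtain ⟨x, y, z, w, w1, n1, w2, n2, xz, xw⟩ := h1.exists_na h
  rcases h2.na_or_fj h w1 with q1 | q1
  · exact ⟨x, y, w1, n1, q1⟩
  rcases h2.na_or_fj h w2 with q2 | q2
  · exact ⟨z, w, w2, n2, q2⟩
  exact (h1.diff h h2 w1 w2 xz xw n1 n2 q1 q2).elim

/-- (ii) -/
theorem le_two_ii (h : Bad G p i) {A : Finset V} {a b c d v : V} (h1 : Ac G p i A a b)
    (h2 : Ac G p i A c d) (ca : c ≠ a) (cb : c ≠ b) (va : v ≠ a) (vb : v ≠ b) (vc : v ≠ c)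
    (vd : v ≠ d) : nn G a b v + nn G c d v ≤ 2 := by
  obtain ⟨x, y, w1, n1, n2⟩ := h1.common_wall h h2
  have hda : d ≠ a ∧ d ≠ b := h2.disj h1 ca cb
  have s1 := h1.cr.small h (h1.ed_of_na w1 n1)
  have s2 := h2.cr.small h (h2.ed_of_na w1 n2)
  set C := insert x (insert y ((((A.erase a).erase b).erase c).erase d)) with hC
  have xA := w1.2.1
  have yA := w1.2.2.1
  have xa : x ≠ a := fun q => xA (q ▸ h1.2.1)
  have xb : x ≠ b := fun q => xA (q ▸ h1.2.2.1)
  have xc : x ≠ c := fun q => xA (q ▸ h2.2.1)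
  have xd : x ≠ d := fun q => xA (q ▸ h2.2.2.1)
  have ya : y ≠ a := fun q => yA (q ▸ h1.2.1)
  have yb : y ≠ b := fun q => yA (q ▸ h1.2.2.1)
  have yc : y ≠ c := fun q => yA (q ▸ h2.2.1)
  have yd : y ≠ d := fun q => yA (q ▸ h2.2.2.1)
  have k1 : insert a (insert b C) = insert x (insert y ((A.erase c).erase d)) := by
    ext t
    simp only [hC, mem_insert, mem_erase]
    constructor
    · rintro (rfl | rfl | rfl | rfl | ⟨t1, t2, t3, t4, t5⟩)
      · exact Or.inr (Or.inr ⟨hda.1.symm, ca.symm, h1.2.1⟩)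
      · exact Or.inr (Or.inr ⟨hda.2.symm, cb.symm, h1.2.2.1⟩)
      · exact Or.inl rfl
      · exact Or.inr (Or.inl rfl)
      · exact Or.inr (Or.inr ⟨t1, t2, t5⟩)
    · rintro (rfl | rfl | ⟨t1, t2, t5⟩)
      · exact Or.inr (Or.inr (Or.inl rfl))
      · exact Or.inr (Or.inr (Or.inr (Or.inl rfl)))
      · by_cases ta : t = a
        · exact Or.inl ta
        by_cases tb : t = b
        · exact Or.inr (Or.inl tb)
        exact Or.inr (Or.inr (Or.inr (Or.inr ⟨t1, t2, tb, ta, t5⟩)))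
  have k2 : insert c (insert d C) = insert x (insert y ((A.erase a).erase b)) := by
    ext t
    simp only [hC, mem_insert, mem_erase]
    constructor
    · rintro (rfl | rfl | rfl | rfl | ⟨t1, t2, t3, t4, t5⟩)
      · exact Or.inr (Or.inr ⟨cb, ca, h2.2.1⟩)
      · exact Or.inr (Or.inr ⟨hda.2, hda.1, h2.2.2.1⟩)
      · exact Or.inl rfl
      · exact Or.inr (Or.inl rfl)
      · exact Or.inr (Or.inr ⟨t3, t4, t5⟩)
    · rintro (rfl | rfl | ⟨t1, t2, t5⟩)
      · exact Or.inr (Or.inr (Or.inl rfl))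
      · exact Or.inr (Or.inr (Or.inr (Or.inl rfl)))
      · by_cases ta : t = c
        · exact Or.inl ta
        by_cases tb : t = d
        · exact Or.inr (Or.inl tb)
        exact Or.inr (Or.inr (Or.inr (Or.inr ⟨tb, ta, t1, t2, t5⟩)))
  have k3 : insert a (insert b (insert c (insert d C))) = insert x (insert y A) := by
    rw [k2]
    ext t
    simp only [mem_insert, mem_erase]
    constructor
    · rintro (rfl | rfl | rfl | rfl | ⟨t1, t2, t5⟩)
      · exact Or.inr (Or.inr h1.2.1)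
      · exact Or.inr (Or.inr h1.2.2.1)
      · exact Or.inl rfl
      · exact Or.inr (Or.inl rfl)
      · exact Or.inr (Or.inr t5)
    · rintro (rfl | rfl | t5)
      · exact Or.inr (Or.inr (Or.inl rfl))
      · exact Or.inr (Or.inr (Or.inr (Or.inl rfl)))
      · by_cases ta : t = a
        · exact Or.inl ta
        by_cases tb : t = b
        · exact Or.inr (Or.inl tb)
        exact Or.inr (Or.inr (Or.inr (Or.inr ⟨tb, ta, t5⟩)))
  have haC : a ∉ C := by simp [hC, xa.symm, ya.symm]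
  have hbC : b ∉ C := by simp [hC, xb.symm, yb.symm]
  have hcC : c ∉ C := by simp [hC, xc.symm, yc.symm]
  have hdC : d ∉ C := by simp [hC, xd.symm, yd.symm]
  have t : Two G p i C a b c d := by
    refine ⟨h1.1, ca.symm, hda.1.symm, cb.symm, hda.2.symm, h2.1, haC, hbC, hcC, hdC, ?_, ?_, ?_,
      ?_⟩
    · have e1 := card_insert2 h1.1 haC hbC
      rw [k1, s2.1] at e1
      omega
    · rw [k1]; exact s2
    · rw [k2]; exact s1
    · rw [k3]; exact w1.2.2.2.2
  exact (t.cr h).le_two h t.ed t.swap.ed ca.symm hda.1.symm va vb vc vd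

/-- (iv-b) -/
theorem not_two_one (h : Bad G p i) {A : Finset V} {a b c d v : V} (h1 : Ac G p i A a b)
    (h2 : Wl G p i A c d) (hf : FJ G a b c d) (hv : v ∉ A) (hw : ∀ x y, Wl G p i A x y → v ≠ x)
    (e1 : nn G a b v = 2) (e2 : nn G c d v = 1) : False := by
  obtain ⟨x, y, _, _, w1, n1, _⟩ := h1.exists_na h
  have xc : c ≠ x := by
    rintro rfl
    have := hf.1; have := n1.1; omega
  have xd : c ≠ y := by
    rintro rfl
    have := hf.1; have := n1.2; omega
  obtain ⟨e, f, h3, m1, m2, _⟩ := common_inner h h2 w1 xc xd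
  have ea : e ≠ a := by
    rintro rfl
    have := h1.unique h3
    subst this
    exact m1.not_fj hf
  have eb : e ≠ b := by
    rintro rfl
    have := h1.symm.unique h3
    subst this
    have k1 := m1.1
    have k2 := hf.1
    rw [nn_comm] at k1
    omega
  have hC := h3.cr
  have hvC : v ∉ (A.erase e).erase f := notMem_erase2 hv
  have ve : v ≠ e := fun q => hv (q ▸ h3.2.1)
  have vf : v ≠ f := fun q => hv (q ▸ h3.2.2.1)
  have va : v ≠ a := fun q => hv (q ▸ h1.2.1)
  have vb : v ≠ b := fun q => hv (q ▸ h1.2.2.1)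
  have hlt : dg G ((A.erase e).erase f) v < p v := by
    rcases lt_or_eq_of_le (hC.1.2.1 v hvC) with q | q
    · exact q
    · obtain ⟨t', ht'⟩ := hC.partner h hvC q
      exact absurd rfl (hw _ _ (h3.wall_of_ed h ht' ve vf).1)
  obtain ⟨t1, t2, hne, q1, q2, g1, g2, u1, u2⟩ := hC.two_nbrs h hvC hlt
  have hef : nn G e f v = 0 := by
    have := le_two_ii h h1 h3 ea eb va vb ve vf
    omega
  rw [nn_zero] at hef
  have key : ∀ t, t ∉ (A.erase e).erase f → dg G ((A.erase e).erase f) t = p t → G.Adj v t →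
      t = c ∨ t = d := by
    intro t ht et av
    have te : t ≠ e := fun q => hef.1 (q ▸ av)
    have tf : t ≠ f := fun q => hef.2 (q ▸ av)
    obtain ⟨t', ht'⟩ := hC.partner h ht et
    obtain ⟨w2, n2⟩ := h3.wall_of_ed h ht' te tf
    by_contra hno
    rw [not_or] at hno
    have vt : v ≠ t := av.ne
    have vt' : v ≠ t' := hw _ _ w2.symm
    rcases h1.na_or_fj h w2 with r | r
    · have := le_two_iii h h1 w2 r va vb vt vt'
      have k : nn G t t' v ≠ 0 := fun q => (nn_zero.1 q).1 av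
      omega
    · exact h3.diff h h1 w2 h2 hno.1 hno.2 n2 m1 r hf
  have hcd : nn G c d v = 2 := by
    rw [nn_two]
    rcases key t1 q1 g1 u1 with r1 | r1 <;> rcases key t2 q2 g2 u2 with r2 | r2
    · exact absurd (r1.trans r2.symm) hne
    · exact ⟨r1 ▸ u1, r2 ▸ u2⟩
    · exact ⟨r2 ▸ u2, r1 ▸ u1⟩
    · exact absurd (r1.trans r2.symm) hne
  omega

end Pool.Agent.SKT
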