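import Pool.Agent.SKT.S4

/-! # Invariance of the half relation, twins -/

set_option linter.unusedSectionVars false

namespace Pool.Agent.SKT

open Finset

variable {V : Type*} [Fintype V] [DecidableEq V] {G : SimpleGraph V} [DecidableRel G.Adj]
  {p : V → ℕ} {i : ℕ}

/-- `v` is adjacent to exactly one element of some wall or active inner pair of `A` -/
def Half (G : SimpleGraph V) [DecidableRel G.Adj] (p : V → ℕ) (i : ℕ) (A : Finset V) (v : V) :
    Prop :=
  ∃ a b, (Wl G p i A a b ∨ Ac G p i A a b) ∧ v ≠ a ∧ v ≠ b ∧ nn G a b v = 1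

/-- the other end of a wall, as a small set -/
theorem Wl.up (h : Bad G p i) {A : Finset V} {x y : V} (hw : Wl G p i A x y) :
    Wl G p i (insert x (insert y A))ᶜ x y := by
  refine ⟨hw.1, by simp, by simp, ?_, ?_⟩
  · rw [h.co_compl (l := i + 4) (by omega)]; exact hw.2.2.2.2
  · rw [compl_insert2 hw.2.1 hw.2.2.1, h.co_compl (l := i + 2) (by omega)]
    exact hw.2.2.2.1

theorem erase2_compl {a b : V} {S : Finset V} :
    ((Sᶜ.erase a).erase b) = (insert a (insert b S))ᶜ := by
  ext t
  simp only [mem_erase, mem_compl, mem_insert, not_or]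
  tauto

theorem Wl.up_ac (h : Bad G p i) {A : Finset V} {x y a b : V} (hw : Wl G p i A x y)
    (h1 : Wl G p i A a b) (ax : a ≠ x) (ay : a ≠ y) :
    Ac G p i (insert x (insert y A))ᶜ a b := by
  obtain ⟨bx, by'⟩ := Wl.disj h h1 hw ax ay
  refine ⟨h1.1, ?_, ?_, (hw.up h).2.2.2.1, ?_⟩
  · simp [ax, ay, h1.2.1]
  · simp [bx, by', h1.2.2.1]
  · rw [erase2_compl]
    exact ((two_of_walls h h1 hw ax ay).cr h).1

theorem Wl.up_wl (h : Bad G p i) {A : Finset V} {x y a b : V} (hw : Wl G p i A x y)
    (h1 : Ac G p i A a b) (hn : NA G a b x y) : Wl G p i (insert x (insert y A))ᶜ a b := by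
  refine ⟨h1.1, by simp [h1.2.1], by simp [h1.2.2.1], (hw.up h).2.2.2.1, ?_⟩
  have e1 := h1.cr.small h (h1.ed_of_na hw hn)
  have e2 : insert a (insert b (insert x (insert y A))ᶜ) =
      (insert x (insert y ((A.erase a).erase b)))ᶜ := by
    ext t
    have xa : x ≠ a := fun q => hw.2.1 (q ▸ h1.2.1)
    have xb : x ≠ b := fun q => hw.2.1 (q ▸ h1.2.2.1)
    have ya : y ≠ a := fun q => hw.2.2.1 (q ▸ h1.2.1)
    have yb : y ≠ b := fun q => hw.2.2.1 (q ▸ h1.2.2.1)
    simp only [mem_insert, mem_compl, mem_erase, not_or, not_and]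
    constructor
    · rintro (rfl | rfl | ⟨t1, t2, t3⟩)
      · exact ⟨xa.symm, ya.symm, fun _ q => absurd rfl q⟩
      · exact ⟨xb.symm, yb.symm, fun q => absurd rfl q⟩
      · exact ⟨t1, t2, fun _ _ => t3⟩
    · rintro ⟨t1, t2, t3⟩
      by_cases ta : t = a
      · exact Or.inl ta
      by_cases tb : t = b
      · exact Or.inr (Or.inl tb)
      exact Or.inr (Or.inr ⟨t1, t2, t3 tb ta⟩)
  rw [e2, h.co_compl (l := i + 2) (by omega)]
  exact e1

theorem half_up (h : Bad G p i) {A : Finset V} {x y v : V} (hw : Wl G p i A x y)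
    (hh : Half G p i A v) : Half G p i (insert x (insert y A))ᶜ v := by
  obtain ⟨a, b, h1, va, vb, e1⟩ := hh
  rcases h1 with h1 | h1
  · by_cases ax : a = x
    · subst ax
      have := Wl.unique h h1 hw
      subst this
      exact ⟨a, b, Or.inl (hw.up h), va, vb, e1⟩
    by_cases ay : a = y
    · subst ay
      have := Wl.unique h h1 hw.symm
      subst this
      exact ⟨b, a, Or.inl (hw.up h), vb, va, by rw [nn_comm]; exact e1⟩
    exact ⟨a, b, Or.inr (hw.up_ac h h1 ax ay), va, vb, e1⟩
  rcases h1.na_or_fj h hw with hn | hf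
  · exact ⟨a, b, Or.inl (hw.up_wl h h1 hn), va, vb, e1⟩
  -- the pair `a b` is joined to the wall `x y`
  by_contra hno
  -- `v` is in no wall
  have nowall : ∀ t, ¬ Wl G p i A v t := by
    intro t ht
    rcases h1.na_or_fj h ht with q | q
    · have := q.1; omega
    · have := q.1; omega
  have noac : ∀ t, ¬ Ac G p i A v t := by
    intro t ht
    have := h1.na_of_ne ht va vb
    omega
  -- consequences of `hno`
  have k1 : ∀ {s t : V}, Wl G p i (insert x (insert y A))ᶜ s t ∨
      Ac G p i (insert x (insert y A))ᶜ s t → v ≠ s → v ≠ t → nn G s t v ≠ 1 :=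
    fun {s t} q vs vt e => hno ⟨s, t, q, vs, vt, e⟩
  obtain ⟨z, w, _, _, w1, n1, _⟩ := h1.exists_na h
  have zx : z ≠ x := by
    rintro rfl
    have := hf.1; have := n1.1; omega
  have zy : z ≠ y := by
    rintro rfl
    have := hf.2; have := n1.1; omega
  by_cases hvA : v ∈ A
  · -- inner case
    obtain ⟨wx, wy⟩ := Wl.disj h w1 hw zx zy
    have ht := two_of_walls h hw w1 zx.symm wx.symm
    have hC := ht.cr h
    have ex := ht.ed
    have ez := ht.swap.ed
    set C := (insert x (insert y (insert z (insert w A))))ᶜ with hCdef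
    have vx : v ≠ x := fun q => hw.2.1 (q ▸ hvA)
    have vy : v ≠ y := fun q => hw.2.2.1 (q ▸ hvA)
    have vz : v ≠ z := fun q => w1.2.1 (q ▸ hvA)
    have vw : v ≠ w := fun q => w1.2.2.1 (q ▸ hvA)
    have hvC : v ∉ C := by simp [hCdef, hvA]
    -- tight edges of `C` off the two walls are active pairs of `A`
    have hac : ∀ s t, Ed G p C s t → s ≠ x → s ≠ y → s ≠ z → s ≠ w → Ac G p i A s t ∧
        NA G s t x y ∧ NA G s t z w := by
      intro s t hst sx sy sz sw
      obtain ⟨tx, ty⟩ := hC.ed_disj h hst ex sx sy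
      obtain ⟨tz, tw⟩ := hC.ed_disj h hst ez sz sw
      have hs : s ∈ A := by
        have := hst.ha
        simp only [hCdef, mem_compl, not_not, mem_insert] at this
        rcases this with r | r | r | r | r
        · exact absurd r sx
        · exact absurd r sy
        · exact absurd r sz
        · exact absurd r sw
        · exact r
      have ht' : t ∈ A := by
        have := hst.hb
        simp only [hCdef, mem_compl, not_not, mem_insert] at this
        rcases this with r | r | r | r | r
        · exact absurd r tx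
        · exact absurd r ty
        · exact absurd r tz
        · exact absurd r tw
        · exact r
      have h3 := hC.triple h ex ez hst zx.symm wx.symm sx.symm tx.symm sz.symm tz.symm
      have hset : (insert x (insert y (insert z (insert w (insert s (insert t C))))))ᶜ =
          (A.erase s).erase t := by
        ext u
        simp only [hCdef, mem_compl, mem_insert, mem_erase, not_or, not_and, not_not]
        constructor
        · rintro ⟨ua, ub, uc, ud, ux, uy, hu⟩
          exact ⟨uy, ux, hu ua ub uc ud⟩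
        · rintro ⟨uy, ux, hu⟩
          refine ⟨?_, ?_, ?_, ?_, ux, uy, fun _ _ _ _ => hu⟩
          · rintro rfl; exact hw.2.1 hu
          · rintro rfl; exact hw.2.2.1 hu
          · rintro rfl; exact w1.2.1 hu
          · rintro rfl; exact w1.2.2.1 hu
      rw [hset] at h3
      refine ⟨⟨hst.ne, hs, ht', hw.2.2.2.1, (h3.cr h).1⟩, ?_, ?_⟩
      · exact ⟨hC.nn_tight h hst ex.ha ex.ea sx.symm tx.symm,
          hC.nn_tight h hst ex.hb ex.eb sy.symm ty.symm⟩
      · exact ⟨hC.nn_tight h hst ez.ha ez.ea sz.symm tz.symm,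
          hC.nn_tight h hst ez.hb ez.eb sw.symm tw.symm⟩
    have hlt : dg G C v < p v := by
      rcases lt_or_eq_of_le (hC.1.2.1 v hvC) with q | q
      · exact q
      · obtain ⟨t', ht'⟩ := hC.partner h hvC q
        exact absurd (hac v t' ht' vx vy vz vw).1 (noac t')
    obtain ⟨t1, t2, hne, q1, q2, g1, g2, u1, u2⟩ := hC.two_nbrs h hvC hlt
    have key : ∀ t, t ∉ C → dg G C t = p t → G.Adj v t → t = x ∨ t = y := by
      intro t ht et av
      by_contra hno'
      rw [not_or] at hno'
      by_cases hz : t = z ∨ t = w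
      · have e2 : nn G z w v ≠ 0 := by
          intro q
          rw [nn_zero] at q
          rcases hz with r | r
          · exact q.1 (r ▸ av)
          · exact q.2 (r ▸ av)
        have e3 := k1 (Or.inr (hw.up_ac h w1 zx zy)) vz vw
        have e4 := le_two_iii h h1 w1 n1 va vb vz vw
        omega
      · rw [not_or] at hz
        obtain ⟨t', ht'⟩ := hC.partner h ht et
        obtain ⟨a1, a2, a3⟩ := hac t t' ht' hno'.1 hno'.2 hz.1 hz.2
        have vt : v ≠ t := av.ne
        have vt' : v ≠ t' := by
          rintro rfl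
          exact noac t a1.symm
        have e2 : nn G t t' v ≠ 0 := fun q => (nn_zero.1 q).1 av
        have e3 := k1 (Or.inl (hw.up_wl h a1 a2)) vt vt'
        have ta : t ≠ a := by
          rintro rfl
          have := h1.unique a1
          subst this
          exact a2.not_fj hf
        have tb : t ≠ b := by
          rintro rfl
          have := h1.symm.unique a1
          subst this
          have l1 := a2.1
          have l2 := hf.1
          rw [nn_comm] at l1
          omega
        have e4 := le_two_ii h h1 a1 ta tb va vb vt vt'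
        omega
    have hxy : nn G x y v = 2 := by
      rw [nn_two]
      rcases key t1 q1 g1 u1 with r1 | r1 <;> rcases key t2 q2 g2 u2 with r2 | r2
      · exact absurd (r1.trans r2.symm) hne
      · exact ⟨r1 ▸ u1, r2 ▸ u2⟩
      · exact ⟨r2 ▸ u2, r1 ▸ u1⟩
      · exact absurd (r1.trans r2.symm) hne
    -- use (iv-b) at the other end of the wall `z w`
    have f1 : Ac G p i (insert z (insert w A))ᶜ x y := w1.up_ac h hw zx.symm wx.symm
    have f2 : Wl G p i (insert z (insert w A))ᶜ a b := w1.up_wl h h1 n1
    refine not_two_one h f1 f2 hf.comm (by simp [hvA]) ?_ hxy e1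
    intro s t hst hvs
    subst hvs
    have := (w1.up h).up_ac h hst vz vw
    rw [compl_insert2 w1.2.1 w1.2.2.1, compl_compl] at this
    exact noac t this
  · -- outer case
    have hC := h1.cr
    have hE := h1.ed
    have hvC : v ∉ (A.erase a).erase b := notMem_erase2 hvA
    have hlt : dg G ((A.erase a).erase b) v < p v := by
      rcases lt_or_eq_of_le (hC.1.2.1 v hvC) with q | q
      · exact q
      · obtain ⟨t', ht'⟩ := hC.partner h hvC q
        exact absurd (h1.wall_of_ed h ht' va vb).1 (nowall t')
    obtain ⟨t1, t2, hne, q1, q2, g1, g2, u1, u2⟩ := hC.two_nbrs h hvC hlt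
    have key : ∀ t, t ∉ (A.erase a).erase b → dg G ((A.erase a).erase b) t = p t →
        G.Adj v t → t = a ∨ t = b := by
      intro t ht et av
      by_contra hno'
      rw [not_or] at hno'
      obtain ⟨t', ht'⟩ := hC.partner h ht et
      obtain ⟨w2, n2⟩ := h1.wall_of_ed h ht' hno'.1 hno'.2
      have vt : v ≠ t := av.ne
      have vt' : v ≠ t' := by
        rintro rfl
        exact nowall t w2.symm
      have tx : t ≠ x := by
        rintro rfl
        have := n2.1; have := hf.1; omega
      have ty : t ≠ y := by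
        rintro rfl
        have := n2.1; have := hf.2; omega
      have e2 : nn G t t' v ≠ 0 := fun q => (nn_zero.1 q).1 av
      have e3 := k1 (Or.inr (hw.up_ac h w2 tx ty)) vt vt'
      have e4 := le_two_iii h h1 w2 n2 va vb vt vt'
      omega
    have hab : nn G a b v = 2 := by
      rw [nn_two]
      rcases key t1 q1 g1 u1 with r1 | r1 <;> rcases key t2 q2 g2 u2 with r2 | r2
      · exact absurd (r1.trans r2.symm) hne
      · exact ⟨r1 ▸ u1, r2 ▸ u2⟩
      · exact ⟨r2 ▸ u2, r1 ▸ u1⟩
      · exact absurd (r1.trans r2.symm) hne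
    omega

end Pool.Agent.SKT
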