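import Pool.Agent.SKT.Defs

/-! # Block W: the walk from a set to its complement along walls -/

set_option linter.unusedSectionVars false
set_option linter.unusedVariables false

namespace Pool.Agent.SKT

open Finset Relation

variable {V : Type*} [Fintype V] [DecidableEq V] {G : SimpleGraph V} [DecidableRel G.Adj]
  {p : V → ℕ} {i : ℕ}

/-- the cut function -/
def cut (G : SimpleGraph V) [DecidableRel G.Adj] (S : Finset V) : ℕ := ∑ v ∈ S, dg G Sᶜ v

theorem dg_eq_sum (S : Finset V) (v : V) : dg G S v = ∑ u ∈ S, if G.Adj v u then 1 else 0 := by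
  unfold dg
  rw [card_filter]

theorem cut_compl (S : Finset V) : cut G Sᶜ = cut G S := by
  unfold cut
  rw [compl_compl]
  simp only [dg_eq_sum]
  rw [sum_comm]
  refine sum_congr rfl fun v _ => sum_congr rfl fun u _ => ?_
  simp only [G.adj_comm]

theorem cut_insert (h : Bad G p i) {S : Finset V} {u : V} (hu : u ∉ S) :
    cut G (insert u S) + 2 * dg G S u = cut G S + 2 * p u + 1 := by
  unfold cut
  rw [sum_insert hu, compl_insert, dg_self_erase]
  have h1 : ∀ v, dg G (Sᶜ.erase u) v + (if G.Adj v u then 1 else 0) = dg G Sᶜ v := fun v =>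
    dg_erase G (by simpa using hu) v
  have h2 : ∑ v ∈ S, dg G Sᶜ v = ∑ v ∈ S, dg G (Sᶜ.erase u) v + dg G S u := by
    rw [dg_eq_sum (G := G) S u, ← sum_add_distrib]
    refine sum_congr rfl fun v _ => ?_
    rw [← h1 v]
    simp only [G.adj_comm]
  have h3 := h.dg_compl S u
  omega

theorem cut_insert_lt (h : Bad G p i) {S : Finset V} {u : V} (hu : u ∉ S)
    (hw : p u + 1 ≤ dg G S u) : cut G (insert u S) < cut G S := by
  have := cut_insert h hu
  omega

theorem cut_erase (h : Bad G p i) {S : Finset V} {u : V} (hu : u ∈ S) :
    cut G S + 2 * dg G S u = cut G (S.erase u) + 2 * p u + 1 := by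
  have h1 := cut_insert h (notMem_erase u S)
  rw [insert_erase hu, dg_self_erase] at h1
  exact h1

theorem cut_erase_lt (h : Bad G p i) {S : Finset V} {u : V} (hu : u ∈ S)
    (hw : dg G S u ≤ p u) : cut G (S.erase u) < cut G S := by
  have := cut_erase h hu
  omega

/-- neighbouring sets -/
def Nb (S S' : Finset V) : Prop :=
  (∃ a, a ∉ S ∧ S' = insert a S) ∨ (∃ a, a ∉ S' ∧ S = insert a S')

theorem Nb.symm {S S' : Finset V} (h : Nb S S') : Nb S' S := Or.symm h

theorem Nb.compl {S S' : Finset V} (h : Nb S S') : Nb Sᶜ S'ᶜ := by
  rcases h with ⟨a, ha, rfl⟩ | ⟨a, ha, rfl⟩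
  · right
    refine ⟨a, by simp, ?_⟩
    ext v
    by_cases hv : v = a
    · subst hv; simp [ha]
    · simp [hv]
  · left
    refine ⟨a, by simp, ?_⟩
    ext v
    by_cases hv : v = a
    · subst hv; simp [ha]
    · simp [hv]

theorem Nb.cut_ne (h : Bad G p i) {S S' : Finset V} (hn : Nb S S') : cut G S ≠ cut G S' := by
  rcases hn with ⟨a, ha, rfl⟩ | ⟨a, ha, rfl⟩
  · have := cut_insert h ha
    omega
  · have := cut_insert h ha
    omega

/-- the slab of sizes `i + 2`, `i + 3`, `i + 4` -/
def Slab (i : ℕ) (S : Finset V) : Prop := i + 2 ≤ S.card ∧ S.card ≤ i + 4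

theorem Bad.slab_compl (h : Bad G p i) {S : Finset V} (hS : Slab i S) : Slab i Sᶜ := by
  have h1 := card_compl_add_card S
  rw [h.card] at h1
  exact ⟨by have := hS.2; omega, by have := hS.1; omega⟩

/-- step inside the slab at cut height less than `c` -/
def St (G : SimpleGraph V) [DecidableRel G.Adj] (i c : ℕ) (S S' : Finset V) : Prop :=
  Slab i S ∧ Slab i S' ∧ cut G S < c ∧ cut G S' < c ∧ Nb S S'

theorem St.symm {c : ℕ} {S S' : Finset V} (h : St G i c S S') : St G i c S' S :=
  ⟨h.2.1, h.1, h.2.2.2.1, h.2.2.1, h.2.2.2.2.symm⟩

theorem St.compl (h : Bad G p i) {c : ℕ} {S S' : Finset V} (hs : St G i c S S') :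
    St G i c Sᶜ S'ᶜ :=
  ⟨h.slab_compl hs.1, h.slab_compl hs.2.1, by rw [cut_compl]; exact hs.2.2.1,
    by rw [cut_compl]; exact hs.2.2.2.1, hs.2.2.2.2.compl⟩

theorem P_symm {c : ℕ} {S S' : Finset V} (h : ReflTransGen (St G i c) S S') :
    ReflTransGen (St G i c) S' S := by
  induction h with
  | refl => exact .refl
  | tail _ h2 ih => exact .head h2.symm ih

theorem P_compl (h : Bad G p i) {c : ℕ} {S S' : Finset V} (hs : ReflTransGen (St G i c) S S') :
    ReflTransGen (St G i c) Sᶜ S'ᶜ := by
  induction hs with
  | refl => exact .refl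
  | tail _ h2 ih => exact .tail ih (h2.compl h)

theorem P_compl_iff (h : Bad G p i) {c : ℕ} {S S' : Finset V} :
    ReflTransGen (St G i c) Sᶜ S'ᶜ ↔ ReflTransGen (St G i c) S S' := by
  constructor
  · intro h1
    have h2 := P_compl h h1
    simpa using h2
  · exact P_compl h

theorem st_ins {c : ℕ} {S : Finset V} {a : V} (ha : a ∉ S) (h1 : i + 2 ≤ S.card)
    (h2 : S.card ≤ i + 3) (h3 : cut G S < c) (h4 : cut G (insert a S) < c) :
    St G i c S (insert a S) := by
  have h5 := card_insert_of_notMem ha
  exact ⟨⟨h1, by omega⟩, ⟨by omega, by omega⟩, h3, h4, .inl ⟨a, ha, rfl⟩⟩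

theorem st_ers {c : ℕ} {S : Finset V} {a : V} (ha : a ∈ S) (h1 : i + 3 ≤ S.card)
    (h2 : S.card ≤ i + 4) (h3 : cut G S < c) (h4 : cut G (S.erase a) < c) :
    St G i c S (S.erase a) := by
  have h5 := card_erase_of_mem ha
  exact ⟨⟨by omega, h2⟩, ⟨by omega, by omega⟩, h3, h4,
    .inr ⟨a, notMem_erase _ _, (insert_erase ha).symm⟩⟩

/-- case 1 of the local maximum lemma -/
theorem lm1 (h : Bad G p i) {T : Finset V} {x y : V} (hxy : x ≠ y) (hx : x ∉ T) (hy : y ∉ T)
    (hT : T.card = i + 1 ∨ T.card = i + 2)
    (h1 : cut G (insert y T) < cut G (insert x (insert y T)))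
    (h2 : cut G (insert x T) < cut G (insert x (insert y T))) :
    ReflTransGen (St G i (cut G (insert x (insert y T)))) (insert y T) (insert x T) := by
  have hx' : x ∉ insert y T := by simp [hxy, hx]
  have e1 := cut_insert h hx
  have e2 := cut_insert h hy
  have e3 := cut_insert h hx'
  have e4 := dg_insert G hy x
  have e5 : (if G.Adj x y then 1 else 0 : ℕ) ≤ 1 := by split_ifs <;> omega
  have k1 : cut G T < cut G (insert x T) := by omega
  have hy' : y ∉ insert x T := by simp [hxy.symm, hy]
  have e6 := cut_insert h hy'
  have e7 := dg_insert G hx y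
  rw [insert_comm] at e6
  have k2 : cut G T < cut G (insert y T) := by
    have : (if G.Adj y x then 1 else 0 : ℕ) ≤ 1 := by split_ifs <;> omega
    omega
  have k3 : cut G T < cut G (insert x (insert y T)) := k1.trans h2
  rcases hT with hT | hT
  · have h3 := h.no_closed hT
    unfold Cl at h3
    push Not at h3
    obtain ⟨u, hu, hw⟩ := h3
    have hw : p u + 1 ≤ dg G T u := hw
    have hux : u ≠ x := by
      rintro rfl
      omega
    have huy : u ≠ y := by
      rintro rfl
      omega
    have f1 := cut_insert_lt h hu hw
    have huy' : u ∉ insert y T := by simp [huy, hu]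
    have hux' : u ∉ insert x T := by simp [hux, hu]
    have f2 := cut_insert_lt h huy' (hw.trans (dg_mono G (subset_insert _ _) u))
    have f3 := cut_insert_lt h hux' (hw.trans (dg_mono G (subset_insert _ _) u))
    have c1 := card_insert_of_notMem hx
    have c2 := card_insert_of_notMem hy
    have c3 := card_insert_of_notMem hu
    have s1 : St G i (cut G (insert x (insert y T))) (insert y T) (insert u (insert y T)) :=
      st_ins huy' (by omega) (by omega) h1 (f2.trans h1)
    have s2 : St G i (cut G (insert x (insert y T))) (insert u T) (insert y (insert u T)) := by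
      refine st_ins (by simp [huy.symm, hy]) (by omega) (by omega) (f1.trans k3) ?_
      rw [insert_comm]
      exact f2.trans h1
    have s3 : St G i (cut G (insert x (insert y T))) (insert u T) (insert x (insert u T)) := by
      refine st_ins (by simp [hux.symm, hx]) (by omega) (by omega) (f1.trans k3) ?_
      rw [insert_comm]
      exact f3.trans h2
    have s4 : St G i (cut G (insert x (insert y T))) (insert x T) (insert u (insert x T)) :=
      st_ins hux' (by omega) (by omega) h2 (f3.trans h2)
    rw [insert_comm u y T] at s1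
    rw [insert_comm u x T] at s4
    exact (((ReflTransGen.single s1).tail s2.symm).tail s3).tail s4.symm
  · have s1 : St G i (cut G (insert x (insert y T))) T (insert y T) :=
      st_ins hy (by omega) (by omega) k3 h1
    have s2 : St G i (cut G (insert x (insert y T))) T (insert x T) :=
      st_ins hx (by omega) (by omega) k3 h2
    exact (ReflTransGen.single s1.symm).tail s2

/-- the key claim in case 2 -/
theorem lm2 (h : Bad G p i) {U : Finset V} {x y : V} (hxy : x ≠ y) (hx : x ∉ U) (hy : y ∉ U)
    (hU : U.card = i + 2) (h1 : cut G U < cut G (insert x U))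
    (h2 : cut G (insert y (insert x U)) < cut G (insert x U))
    (h3 : cut G (insert x U) ≤ cut G (insert y U)) :
    Cl G p U ∨ ReflTransGen (St G i (cut G (insert x U))) U (insert y (insert x U)) := by
  by_cases hcl : Cl G p U
  · exact .inl hcl
  right
  unfold Cl at hcl
  push Not at hcl
  obtain ⟨u, hu, hw⟩ := hcl
  have hw : p u + 1 ≤ dg G U u := hw
  have hy' : y ∉ insert x U := by simp [hxy.symm, hy]
  have e1 := cut_insert h hx
  have e2 := cut_insert h hy
  have e3 := cut_insert h hy'
  have e4 := dg_insert G hx y
  have hadj : G.Adj x y := by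
    by_contra hno
    rw [if_neg (fun q => hno (SimpleGraph.Adj.symm q))] at e4
    omega
  rw [if_pos hadj.symm] at e4
  have a1 : dg G U x = p x := by omega
  have a2 : dg G (insert x U) y = p y + 1 := by omega
  have hux : u ≠ x := by rintro rfl; omega
  have huy : u ≠ y := by rintro rfl; omega
  have hus : u ∉ insert x U := by simp [hux, hu]
  have huy' : u ∉ insert y (insert x U) := by simp [hux, huy, hu]
  have c1 := card_insert_of_notMem hx
  have c2 := card_insert_of_notMem hy'
  have c3 := card_insert_of_notMem huy'
  have c4 := card_insert_of_notMem hu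
  have c5 := card_insert_of_notMem hus
  have hK := h.no_open (K := insert u (insert y (insert x U))) (by omega)
  unfold Op at hK
  push Not at hK
  obtain ⟨v, hv, hv2⟩ := hK
  have hv2 : dg G (insert u (insert y (insert x U))) v ≤ p v := by omega
  have m1 := dg_mono G (S := insert y (insert x U)) (T := insert u (insert y (insert x U)))
    (subset_insert _ _)
  have m2 := dg_mono G (S := insert x U) (T := insert y (insert x U)) (subset_insert _ _)
  have m3 := dg_mono G (S := U) (T := insert x U) (subset_insert _ _)
  have hvy : v ≠ y := by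
    rintro rfl
    have := m1 v
    have := m2 v
    omega
  have hvu : v ≠ u := by
    rintro rfl
    have := m1 v
    have := m2 v
    have := m3 v
    omega
  have hvx : v ≠ x := by
    rintro rfl
    have e5 := dg_insert G hy' v
    rw [if_pos hadj] at e5
    have := m1 v
    have := m3 v
    omega
  have hvU : v ∈ U := by simpa [hvy, hvu, hvx] using hv
  have hvS : v ∈ insert x U := mem_insert_of_mem hvU
  have hvSy : v ∈ insert y (insert x U) := mem_insert_of_mem hvS
  have hvSu : v ∈ insert u (insert x U) := mem_insert_of_mem hvS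
  -- cuts
  have f1 : cut G (insert u U) < cut G U := cut_insert_lt h hu hw
  have f2 : cut G (insert u (insert x U)) < cut G (insert x U) :=
    cut_insert_lt h hus (hw.trans (m3 u))
  have f3 : cut G ((insert u (insert x U)).erase v) < cut G (insert u (insert x U)) := by
    refine cut_erase_lt h hvSu (le_trans (dg_mono G ?_ v) hv2)
    exact insert_subset_insert _ (subset_insert _ _)
  have f4 : cut G (insert u (insert y (insert x U))) < cut G (insert y (insert x U)) :=
    cut_insert_lt h huy' ((hw.trans (m3 u)).trans (m2 u))
  have f5 : cut G ((insert u (insert y (insert x U))).erase v)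
      < cut G (insert u (insert y (insert x U))) := cut_erase_lt h hv hv2
  have f6 : cut G ((insert y (insert x U)).erase v) < cut G (insert y (insert x U)) :=
    cut_erase_lt h hvSy (le_trans (m1 v) hv2)
  have s1 : St G i (cut G (insert x U)) U (insert u U) :=
    st_ins hu (by omega) (by omega) h1 (by omega)
  have s2 : St G i (cut G (insert x U)) (insert u U) (insert x (insert u U)) := by
    refine st_ins (by simp [hux.symm, hx]) (by omega) (by omega) (by omega) ?_
    rw [insert_comm]
    exact f2
  rw [insert_comm x u U] at s2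
  have s3 : St G i (cut G (insert x U)) (insert u (insert x U))
      ((insert u (insert x U)).erase v) :=
    st_ers hvSu (by omega) (by omega) f2 (by omega)
  have q1 : insert y ((insert u (insert x U)).erase v)
      = (insert u (insert y (insert x U))).erase v := by
    rw [insert_comm u y, erase_insert_of_ne hvy.symm]
  have q2 : insert u ((insert y (insert x U)).erase v)
      = (insert u (insert y (insert x U))).erase v := by
    rw [erase_insert_of_ne hvu.symm]
  have d1 := card_erase_of_mem hvSu
  have d2 := card_erase_of_mem hvSy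
  have s4 : St G i (cut G (insert x U)) ((insert u (insert x U)).erase v)
      (insert y ((insert u (insert x U)).erase v)) := by
    refine st_ins ?_ (by omega) (by omega) (by omega) ?_
    · simp [hxy.symm, hy, huy.symm]
    · rw [q1]; omega
  have s5 : St G i (cut G (insert x U)) ((insert y (insert x U)).erase v)
      (insert u ((insert y (insert x U)).erase v)) := by
    refine st_ins ?_ (by omega) (by omega) (by omega) ?_
    · simp [hux, hu, huy]
    · rw [q2]; omega
  have s6 : St G i (cut G (insert x U)) (insert y (insert x U))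
      ((insert y (insert x U)).erase v) :=
    st_ers hvSy (by omega) (by omega) h2 (by omega)
  rw [q1] at s4
  rw [q2] at s5
  exact (((((ReflTransGen.single s1).tail s2).tail s3).tail s4).tail s5.symm).tail s6.symm

/-- case 2 of the local maximum lemma -/
theorem lm3 (h : Bad G p i) {U : Finset V} {x y : V} (hxy : x ≠ y) (hx : x ∉ U) (hy : y ∉ U)
    (hU : U.card = i + 2) (h1 : cut G U < cut G (insert x U))
    (h2 : cut G (insert y (insert x U)) < cut G (insert x U)) :
    ReflTransGen (St G i (cut G (insert x U))) U (insert y (insert x U)) ∨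
      (Co G p (i + 2) U ∧ Co G p (i + 4) (insert y (insert x U)) ∧
        Gm G p i U (insert y (insert x U))) := by
  have hy' : y ∉ insert x U := by simp [hxy.symm, hy]
  have c1 := card_insert_of_notMem hx
  have c2 := card_insert_of_notMem hy'
  have c3 := card_insert_of_notMem hy
  by_cases h3 : cut G (insert y U) < cut G (insert x U)
  · left
    have s1 : St G i (cut G (insert x U)) U (insert y U) :=
      st_ins hy (by omega) (by omega) h1 h3
    have s2 : St G i (cut G (insert x U)) (insert y U) (insert x (insert y U)) := by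
      refine st_ins (by simp [hxy, hx]) (by omega) (by omega) h3 ?_
      rw [insert_comm]
      exact h2
    rw [insert_comm x y U] at s2
    exact (ReflTransGen.single s1).tail s2
  · push Not at h3
    rcases lm2 h hxy hx hy hU h1 h2 h3 with k1 | k1
    · -- the mirror
      set W : Finset V := (insert y (insert x U))ᶜ with hW
      have hxW : x ∉ W := by simp [hW]
      have hyW : y ∉ W := by simp [hW]
      have e1 : insert y W = (insert x U)ᶜ := by
        rw [hW]
        ext v
        by_cases hv : v = y
        · subst hv; simp [hxy.symm, hy]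
        · simp [hv]
      have e2 : insert x W = (insert y U)ᶜ := by
        rw [hW]
        ext v
        by_cases hv : v = x
        · subst hv; simp [hxy, hx]
        · simp [hv]
      have e3 : insert x (insert y W) = Uᶜ := by
        rw [e1]
        ext v
        by_cases hv : v = x
        · subst hv; simp [hx]
        · simp [hv]
      have cW := card_compl_add_card (insert y (insert x U))
      rw [h.card, ← hW] at cW
      have k2 := lm2 h (U := W) hxy.symm hyW hxW (by omega)
        (by rw [e1, hW, cut_compl, cut_compl]; exact h2)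
        (by rw [e3, e1, cut_compl, cut_compl]; exact h1)
        (by rw [e1, e2, cut_compl, cut_compl]; exact h3)
      rw [e3, e1, cut_compl, hW] at k2
      rcases k2 with k2 | k2
      · right
        have k3 := h.large_of_op (B := insert y (insert x U)) (by omega) (h.cl_compl.1 k2)
        have k4 := h.small_of_cl hU k1
        refine ⟨k4, k3, .inl ⟨y, x, ⟨hxy.symm, hy, hx, k4, k3⟩, rfl⟩⟩
      · left
        exact P_symm ((P_compl_iff h).1 k2)
    · exact .inl k1

/-- closed and open -/
def Clop (G : SimpleGraph V) [DecidableRel G.Adj] (p : V → ℕ) (S : Finset V) : Prop :=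
  Cl G p S ∧ Op G p S

theorem Co.clop {k : ℕ} {S : Finset V} (h : Co G p k S) : Clop G p S := h.2

theorem Gm.symm' {S S' : Finset V} (h : Gm G p i S S') : Gm G p i S' S := Or.symm h

theorem Clop.cut_lt (h : Bad G p i) {S S' : Finset V} (hS : Clop G p S) (hn : Nb S S') :
    cut G S < cut G S' := by
  rcases hn with ⟨a, ha, rfl⟩ | ⟨a, ha, rfl⟩
  · have h1 := cut_insert h ha
    have h2 := hS.1 a ha
    omega
  · have h1 := cut_insert h ha
    have h2 := hS.2 a (mem_insert_self _ _)
    rw [dg_self_insert] at h2
    omega

/-- the local maximum lemma -/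
theorem lm (h : Bad G p i) {S U U' : Finset V} (hS : Slab i S) (hU : Slab i U) (hU' : Slab i U')
    (n1 : Nb S U) (n2 : Nb S U') (c1 : cut G U < cut G S) (c2 : cut G U' < cut G S) :
    ReflTransGen (St G i (cut G S)) U U' ∨ (Clop G p U ∧ Clop G p U' ∧ Gm G p i U U') := by
  rcases n1 with ⟨a, ha, rfl⟩ | ⟨a, ha, rfl⟩
  · rcases n2 with ⟨b, hb, rfl⟩ | ⟨b, hb, rfl⟩
    · -- U = S + a, U' = S + b
      left
      by_cases hab : a = b
      · subst hab; exact .refl
      set T : Finset V := (insert a (insert b S))ᶜ with hT
      have haT : a ∉ T := by simp [hT]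
      have hbT : b ∉ T := by simp [hT]
      have e1 : insert b T = (insert a S)ᶜ := by
        rw [hT]
        ext v
        by_cases hv : v = b
        · subst hv; simp [Ne.symm (a := a) (b := v) hab, hb]
        · simp [hv]
      have e2 : insert a T = (insert b S)ᶜ := by
        rw [hT]
        ext v
        by_cases hv : v = a
        · subst hv; simp [hab, ha]
        · simp [hv]
      have e3 : insert a (insert b T) = Sᶜ := by
        rw [e1]
        ext v
        by_cases hv : v = a
        · subst hv; simp [ha]
        · simp [hv]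
      have ca := card_insert_of_notMem ha
      have cb := card_insert_of_notMem hb
      have cab := card_insert_of_notMem (s := insert b S) (a := a) (by simp [hab, ha])
      have cT := card_compl_add_card (insert a (insert b S))
      rw [h.card, ← hT] at cT
      have h1 := hS.1
      have h2 := hU.2
      have k := lm1 h (T := T) hab haT hbT (by omega)
        (by rw [e3, e1, cut_compl, cut_compl]; exact c1)
        (by rw [e3, e2, cut_compl, cut_compl]; exact c2)
      rw [e3, e1, e2, cut_compl] at k
      exact (P_compl_iff h).1 k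
    · -- U = S + a, S = U' + b
      have h1 := hU.2
      have h2 := hU'.1
      have c3 := card_insert_of_notMem ha
      have c4 := card_insert_of_notMem hb
      have hab : b ≠ a := by rintro rfl; exact ha (mem_insert_self _ _)
      have ha' : a ∉ U' := fun q => ha (mem_insert_of_mem q)
      rcases lm3 h hab hb ha' (by omega) c2 c1 with k | ⟨k1, k2, k3⟩
      · exact .inl (P_symm k)
      · exact .inr ⟨k2.clop, k1.clop, k3.symm'⟩
  · rcases n2 with ⟨b, hb, rfl⟩ | ⟨b, hb, hSb⟩
    · -- S = U + a, U' = S + b
      have h1 := hU.1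
      have h2 := hU'.2
      have c3 := card_insert_of_notMem ha
      have c4 := card_insert_of_notMem hb
      have hab : a ≠ b := by rintro rfl; exact hb (mem_insert_self _ _)
      have hb' : b ∉ U := fun q => hb (mem_insert_of_mem q)
      rcases lm3 h hab ha hb' (by omega) c1 c2 with k | ⟨k1, k2, k3⟩
      · exact .inl k
      · exact .inr ⟨k1.clop, k2.clop, k3⟩
    · -- S = U + a = U' + b
      left
      by_cases hab : a = b
      · subst hab
        have : U = U' := by
          have := congrArg (fun s => s.erase a) hSb
          simpa [erase_insert ha, erase_insert hb] using this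
        subst this
        exact .refl
      have hbU : b ∈ U := by
        have : b ∈ insert a U := by rw [hSb]; exact mem_insert_self _ _
        rcases mem_insert.1 this with q | q
        · exact absurd q.symm hab
        · exact q
      set T := U.erase b with hT
      have hUT : U = insert b T := (insert_erase hbU).symm
      have hbT : b ∉ T := notMem_erase _ _
      have haT : a ∉ T := fun q => ha (mem_of_mem_erase q)
      have hU'T : U' = insert a T := by
        have e := congrArg (fun s => s.erase b) hSb
        simp only [erase_insert hb] at e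
        rw [erase_insert_of_ne hab] at e
        exact e.symm
      have cU := card_insert_of_notMem hbT
      have cS := card_insert_of_notMem ha
      have h1 := hU.1
      have h2 := hS.2
      rw [← hUT] at cU
      have k := lm1 h (T := T) hab haT hbT (by omega)
        (by rw [← hUT]; exact c1)
        (by rw [← hUT, ← hU'T]; exact c2)
      rw [← hUT, ← hU'T] at k
      exact k

/-- the climbing claim -/
theorem claim (h : Bad G p i) (c : ℕ) : ∀ X Y : Finset V, Slab i X → Slab i Y → Clop G p X →
    Clop G p Y → ReflTransGen (St G i c) X Y → ReflTransGen (Gm G p i) X Y := by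
  induction c with
  | zero =>
    intro X Y _ _ _ _ hP
    rcases ReflTransGen.cases_head hP with rfl | ⟨Z, hZ, _⟩
    · exact .refl
    · exact absurd hZ.2.2.1 (by omega)
  | succ c ih =>
    intro X Y sX sY cX cY hP
    rcases ReflTransGen.cases_head hP with rfl | ⟨Z, hZ, _⟩
    · exact .refl
    have hXc : cut G X < c := by
      have h1 := cX.cut_lt h hZ.2.2.2.2
      have h2 := hZ.2.2.2.1
      omega
    have key : ∀ W, ReflTransGen (St G i (c + 1)) X W →
        (cut G W < c ∧ ∃ X', Slab i X' ∧ Clop G p X' ∧ ReflTransGen (Gm G p i) X X' ∧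
          ReflTransGen (St G i c) X' W) ∨
        (cut G W = c ∧ ∃ X' Z', Slab i X' ∧ Clop G p X' ∧ ReflTransGen (Gm G p i) X X' ∧
          ReflTransGen (St G i c) X' Z' ∧ Slab i Z' ∧ Nb W Z' ∧ cut G Z' < c) := by
      intro W hW
      induction hW with
      | refl => exact .inl ⟨hXc, X, sX, cX, .refl, .refl⟩
      | @tail W W' _ hst ihW =>
        obtain ⟨sW, sW', kW, kW', nW⟩ := hst
        have hne := nW.cut_ne h
        rcases ihW with ⟨q1, X', q2, q3, q4, q5⟩ | ⟨q1, X', Z', q2, q3, q4, q5, q6, q7, q8⟩
        · by_cases hW' : cut G W' < c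
          · exact .inl ⟨hW', X', q2, q3, q4, q5.tail ⟨sW, sW', q1, hW', nW⟩⟩
          · exact .inr ⟨by omega, X', W, q2, q3, q4, q5, sW, nW.symm, q1⟩
        · have hW' : cut G W' < c := by omega
          left
          refine ⟨hW', ?_⟩
          rcases lm h sW q6 sW' q7 nW (by omega) (by omega) with k | ⟨k1, k2, k3⟩
          · rw [q1] at k
            exact ⟨X', q2, q3, q4, q5.trans k⟩
          · exact ⟨W', sW', k2, (q4.trans (ih X' Z' q2 q6 q3 k1 q5)).tail k3, .refl⟩
    rcases key Y hP with ⟨_, X', q2, q3, q4, q5⟩ | ⟨q1, X', Z', _, _, _, _, _, q7, q8⟩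
    · exact q4.trans (ih X' Y q2 sY q3 cY q5)
    · have := cY.cut_lt h q7
      omega

/-- two sets of the middle size are connected inside the slab -/
theorem mid_connected (h : Bad G p i) {c : ℕ} (hc : ∀ S : Finset V, cut G S < c) (k : ℕ) :
    ∀ A B : Finset V, A.card = i + 3 → B.card = i + 3 → (A \ B).card = k →
      ReflTransGen (St G i c) A B := by
  induction k with
  | zero =>
    intro A B hA hB hk
    have h1 : A ⊆ B := by
      rw [card_eq_zero] at hk
      exact sdiff_eq_empty_iff_subset.1 hk
    have h2 := eq_of_subset_of_card_le h1 (by omega)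
    rw [h2]
  | succ k ih =>
    intro A B hA hB hk
    obtain ⟨a, ha⟩ : (A \ B).Nonempty := by rw [← card_pos]; omega
    have h1 : (B \ A).card = (A \ B).card := by
      have e1 := card_sdiff_add_card_inter A B
      have e2 := card_sdiff_add_card_inter B A
      rw [inter_comm] at e2
      omega
    obtain ⟨b, hb⟩ : (B \ A).Nonempty := by rw [← card_pos]; omega
    rw [mem_sdiff] at ha hb
    have hab : a ≠ b := by rintro rfl; exact ha.2 hb.1
    have hb' : b ∉ A.erase a := fun q => hb.2 (mem_of_mem_erase q)
    have d1 := card_erase_of_mem ha.1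
    have d2 := card_insert_of_notMem hb'
    have s1 : St G i c A (A.erase a) := st_ers ha.1 (by omega) (by omega) (hc _) (hc _)
    have s2 : St G i c (A.erase a) (insert b (A.erase a)) :=
      st_ins hb' (by omega) (by omega) (hc _) (hc _)
    refine ((ReflTransGen.single s1).tail s2).trans (ih _ B (by omega) hB ?_)
    have e : insert b (A.erase a) \ B = (A \ B).erase a := by
      ext v
      simp only [mem_sdiff, mem_insert, mem_erase]
      constructor
      · rintro ⟨rfl | q, r⟩
        · exact absurd hb.1 r
        · exact ⟨q.1, q.2, r⟩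
      · rintro ⟨q, r, s⟩
        exact ⟨.inr ⟨q, r⟩, s⟩
    rw [e, card_erase_of_mem (mem_sdiff.2 ha), hk]
    omega

theorem to_mid (h : Bad G p i) {c : ℕ} (hc : ∀ S : Finset V, cut G S < c) {S : Finset V}
    (hS : Slab i S) : ∃ A : Finset V, A.card = i + 3 ∧ ReflTransGen (St G i c) S A := by
  obtain ⟨h1, h2⟩ := hS
  by_cases q : S.card = i + 3
  · exact ⟨S, q, .refl⟩
  by_cases q2 : S.card = i + 2
  · have : ∃ a, a ∉ S := by
      by_contra hno
      push Not at hno
      have := card_le_card (fun v _ => hno v : univ ⊆ S)
      rw [card_univ, h.card] at this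
      omega
    obtain ⟨a, ha⟩ := this
    have d := card_insert_of_notMem ha
    exact ⟨insert a S, by omega, .single (st_ins ha (by omega) (by omega) (hc _) (hc _))⟩
  · obtain ⟨a, ha⟩ : S.Nonempty := by rw [← card_pos]; omega
    have d := card_erase_of_mem ha
    exact ⟨S.erase a, by omega, .single (st_ers ha (by omega) (by omega) (hc _) (hc _))⟩

theorem slab_connected (h : Bad G p i) {c : ℕ} (hc : ∀ S : Finset V, cut G S < c) {S S' : Finset V}
    (hS : Slab i S) (hS' : Slab i S') : ReflTransGen (St G i c) S S' := by
  obtain ⟨A, hA, h1⟩ := to_mid h hc hS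
  obtain ⟨B, hB, h2⟩ := to_mid h hc hS'
  exact (h1.trans (mid_connected h hc _ A B hA hB rfl)).trans (P_symm h2)

/-- W1: a walk along walls from a set to its complement -/
theorem exists_walk (h : Bad G p i) :
    ∃ S : Finset V, Relation.ReflTransGen (Gm G p i) S Sᶜ := by
  classical
  -- a slab set of minimal cut
  let F : Finset (Finset V) := univ.filter (fun S => i + 2 ≤ S.card ∧ S.card ≤ i + 4)
  have hF : F.Nonempty := by
    obtain ⟨S, _, hS⟩ := exists_subset_card_eq (s := (univ : Finset V)) (n := i + 2)
      (by rw [card_univ, h.card]; omega)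
    exact ⟨S, mem_filter.2 ⟨mem_univ _, by omega, by omega⟩⟩
  obtain ⟨S, hS, hmin⟩ := exists_min_image F (cut G) hF
  have sS : Slab i S := (mem_filter.1 hS).2
  have hmin' : ∀ S', Slab i S' → cut G S ≤ cut G S' := fun S' hS' =>
    hmin S' (mem_filter.2 ⟨mem_univ _, hS'⟩)
  have k1 : S.card ≤ i + 3 → Cl G p S := by
    intro hc v hv
    have d := card_insert_of_notMem hv
    have h1 := hmin' (insert v S) ⟨by have := sS.1; omega, by omega⟩
    have h2 := cut_insert h hv
    omega
  have k2 : i + 3 ≤ S.card → Op G p S := by
    intro hc v hv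
    have d := card_erase_of_mem hv
    have h1 := hmin' (S.erase v) ⟨by omega, by have := sS.2; omega⟩
    have h2 := cut_erase h hv
    omega
  have cS : Clop G p S := by
    have h1 := sS.1
    have h2 := sS.2
    by_cases q2 : S.card = i + 2
    · exact (h.small_of_cl q2 (k1 (by omega))).clop
    by_cases q4 : S.card = i + 4
    · exact (h.large_of_op q4 (k2 (by omega))).clop
    exact ⟨k1 (by omega), k2 (by omega)⟩
  have cS' : Clop G p Sᶜ := ⟨h.cl_compl.2 cS.2, h.op_compl.2 cS.1⟩
  obtain ⟨c, hc⟩ : ∃ c, ∀ T : Finset V, cut G T < c := by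
    refine ⟨(univ : Finset (Finset V)).sup (cut G) + 1, fun T => ?_⟩
    exact Nat.lt_succ_of_le (le_sup (f := cut G) (mem_univ T))
  exact ⟨S, claim h c S Sᶜ sS (h.slab_compl sS) cS cS'
    (slab_connected h hc sS (h.slab_compl sS))⟩

end Pool.Agent.SKT
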