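import Pool.Agent.SKT.S5
import Pool.Agent.SKT.W

/-! # All vertices come in adjacent twin pairs -/

set_option linter.unusedSectionVars false

namespace Pool.Agent.SKT

open Finset

variable {V : Type*} [Fintype V] [DecidableEq V] {G : SimpleGraph V} [DecidableRel G.Adj]
  {p : V → ℕ} {i : ℕ}

theorem half_iff (h : Bad G p i) {A : Finset V} {x y v : V} (hw : Wl G p i A x y) :
    Half G p i A v ↔ Half G p i (insert x (insert y A))ᶜ v := by
  constructor
  · exact half_up h hw
  · intro q
    have := half_up h (hw.up h) q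
    rwa [compl_insert2 hw.2.1 hw.2.2.1, compl_compl] at this

/-- the small representative -/
def rep (i : ℕ) (S : Finset V) : Finset V := if S.card = i + 2 then S else Sᶜ

theorem rep_small {A : Finset V} (hA : A.card = i + 2) : rep i A = A := by
  unfold rep; rw [if_pos hA]

theorem rep_large {B : Finset V} (hB : B.card = i + 4) : rep i B = Bᶜ := by
  unfold rep; rw [if_neg (by omega)]

theorem half_rep (h : Bad G p i) {S T : Finset V} (hg : Gm G p i S T) (v : V) :
    Half G p i (rep i S) v ↔ Half G p i (rep i T) v := by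
  rcases hg with ⟨a, b, hw, rfl⟩ | ⟨a, b, hw, rfl⟩
  · rw [rep_small hw.2.2.2.1.1, rep_large hw.2.2.2.2.1]
    exact half_iff h hw
  · rw [rep_small hw.2.2.2.1.1, rep_large hw.2.2.2.2.1]
    exact (half_iff h hw).symm

theorem half_walk (h : Bad G p i) {S T : Finset V}
    (hg : Relation.ReflTransGen (Gm G p i) S T) (v : V) :
    Half G p i (rep i S) v ↔ Half G p i (rep i T) v := by
  induction hg with
  | refl => rfl
  | tail _ h2 ih => exact ih.trans (half_rep h h2 v)

theorem cross (h : Bad G p i) {S T : Finset V}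
    (hg : Relation.ReflTransGen (Gm G p i) S T) (x : V) :
    (x ∈ S ↔ x ∈ T) ∨ ∃ A y, Wl G p i A x y ∧ ∀ v, Half G p i A v ↔ Half G p i (rep i S) v := by
  induction hg with
  | refl => exact Or.inl Iff.rfl
  | @tail T T' h1 h2 ih =>
    rcases ih with ih | ih
    · rcases h2 with ⟨a, b, hw, rfl⟩ | ⟨a, b, hw, rfl⟩
      · have hr : ∀ v, Half G p i T v ↔ Half G p i (rep i S) v := by
          intro v
          have := half_walk h h1 v
          rw [rep_small hw.2.2.2.1.1] at this
          exact this.symm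
        by_cases xa : x = a
        · subst xa; exact Or.inr ⟨T, b, hw, hr⟩
        by_cases xb : x = b
        · subst xb; exact Or.inr ⟨T, a, hw.symm, hr⟩
        left
        rw [ih]; simp [xa, xb]
      · have hr : ∀ v, Half G p i T' v ↔ Half G p i (rep i S) v := by
          intro v
          have e1 := half_walk h (h1.tail (Or.inr ⟨a, b, hw, rfl⟩)) v
          rw [rep_small hw.2.2.2.1.1] at e1
          exact e1.symm
        by_cases xa : x = a
        · subst xa; exact Or.inr ⟨T', b, hw, hr⟩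
        by_cases xb : x = b
        · subst xb; exact Or.inr ⟨T', a, hw.symm, hr⟩
        left
        rw [ih]; simp [xa, xb]
    · exact Or.inr ih

theorem not_half_of_wall (h : Bad G p i) {A : Finset V} {x y : V} (hw : Wl G p i A x y) :
    ¬ Half G p i A x := by
  rintro ⟨a, b, h1, xa, xb, e⟩
  rcases h1 with h1 | h1
  · obtain ⟨q1, q2, q3⟩ := hw.tight
    obtain ⟨r1, r2, r3⟩ := h1.tight
    have hne : nn G a b x ≠ 0 := by omega
    rw [Ne, nn_zero, not_and_or, not_not, not_not] at hne
    rcases hne with q | q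
    · exact xb (h.matching h1.2.2.2.1 h1.2.1 hw.2.1 h1.2.2.1 r2 q2 r3 q.symm r1)
    · exact xa (h.matching h1.2.2.2.1 h1.2.2.1 hw.2.1 h1.2.1 r3 q2 r2 q.symm r1.symm)
  · rcases h1.na_or_fj h hw with q | q
    · have := q.1; omega
    · have := q.1; omega

/-- every vertex is in a wall whose two ends are twins -/
theorem exists_twin_wall (h : Bad G p i) (x : V) :
    ∃ A y, Wl G p i A x y ∧ ∀ v, v ≠ x → v ≠ y → (G.Adj v x ↔ G.Adj v y) := by
  obtain ⟨S, hS⟩ := exists_walk h
  have hno : ∀ v, ¬ Half G p i (rep i S) v := by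
    intro v
    rcases cross h hS v with q | ⟨A, y, hw, hr⟩
    · simp at q
    · rw [← hr]; exact not_half_of_wall h hw
  rcases cross h hS x with q | ⟨A, y, hw, hr⟩
  · simp at q
  · refine ⟨A, y, hw, fun v vx vy => ?_⟩
    have h1 : ¬ Half G p i A v := fun q => hno v ((hr v).1 q)
    have h2 : nn G x y v ≠ 1 := fun q => h1 ⟨x, y, Or.inl hw, vx, vy, q⟩
    unfold nn at h2
    by_cases q1 : G.Adj v x <;> by_cases q2 : G.Adj v y <;> simp_all

/-- adjacent twins -/
def Tw (G : SimpleGraph V) (x y : V) : Prop :=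
  G.Adj x y ∧ ∀ v, v ≠ x → v ≠ y → (G.Adj v x ↔ G.Adj v y)

theorem Tw.symm {x y : V} (h : Tw G x y) : Tw G y x :=
  ⟨h.1.symm, fun v vy vx => (h.2 v vx vy).symm⟩

/-- number of neighbours of twins -/
theorem Tw.cnt {x y : V} (h : Tw G x y) (S : Finset V) :
    dg G S x + (if x ∈ S then 1 else 0) = dg G S y + (if y ∈ S then 1 else 0) := by
  have e : ∀ S : Finset V, x ∉ S → y ∉ S → dg G S x = dg G S y := by
    intro S hx hy
    unfold dg
    congr 1
    apply filter_congr
    intro v hv
    have := h.2 v (fun q => hx (q ▸ hv)) (fun q => hy (q ▸ hv))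
    rw [G.adj_comm x v, G.adj_comm y v]
    exact this
  have e0 := e ((S.erase x).erase y) (by simp) (by simp)
  have hxy := h.1.ne
  by_cases hx : x ∈ S <;> by_cases hy : y ∈ S
  · have e1 := dg_erase2 G hxy hx hy x
    have e2 := dg_erase2 G hxy hx hy y
    have e3 : nn G x y x = 1 := by simp [nn, h.1]
    have e4 : nn G x y y = 1 := by simp [nn, h.1.symm]
    simp only [hx, hy, if_true]
    omega
  · rw [erase_eq_of_notMem (a := y) (by simp [hy])] at e0
    have e1 := dg_erase G hx x
    have e2 := dg_erase G hx y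
    simp only [SimpleGraph.irrefl, if_false, h.1.symm, if_true] at e1 e2
    simp only [hx, hy, if_true, if_false]
    omega
  · rw [erase_eq_of_notMem (a := x) hx] at e0
    have e1 := dg_erase G hy x
    have e2 := dg_erase G hy y
    simp only [SimpleGraph.irrefl, if_false, h.1, if_true] at e1 e2
    simp only [hx, hy, if_true, if_false]
    omega
  · rw [erase_eq_of_notMem (a := x) hx, erase_eq_of_notMem hy] at e0
    simp only [hx, hy, if_false]
    omega

theorem Tw.p_eq (h : Bad G p i) {x y : V} (ht : Tw G x y) : p x = p y := by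
  have e := ht.cnt univ
  rw [h.deg, h.deg] at e
  simp only [mem_univ, if_true] at e
  omega

/-- clopen sets do not separate twins -/
theorem Tw.mem (h : Bad G p i) {x y : V} (ht : Tw G x y) {k : ℕ} {A : Finset V}
    (hA : Co G p k A) (hx : x ∈ A) : y ∈ A := by
  by_contra hy
  have e := ht.cnt A
  have e1 := hA.2.2 x hx
  have e2 := hA.2.1 y hy
  have e3 := ht.p_eq h
  rw [if_pos hx, if_neg hy] at e
  omega

theorem even_of_tau {τ : V → V} (h1 : ∀ x, τ x ≠ x) (h2 : ∀ x, τ (τ x) = x) {S : Finset V}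
    (hS : ∀ x ∈ S, τ x ∈ S) : Even S.card := by
  have e : ∑ _x ∈ S, (1 : ZMod 2) = 0 := by
    apply sum_involution (fun a _ => τ a)
    · intro a _; decide
    · intro a _ _; exact h1 a
    · intro a ha; exact hS a ha
    · intro a _; exact h2 a
  rw [sum_const, nsmul_eq_mul, mul_one] at e
  exact (ZMod.natCast_eq_zero_iff_even).1 e

theorem exists_tau (h : Bad G p i) : ∃ τ : V → V, (∀ x, τ x ≠ x) ∧ (∀ x, τ (τ x) = x) ∧
    (∀ x, G.Adj x (τ x)) ∧ (∀ x u, u ≠ x → u ≠ τ x → (G.Adj u x ↔ G.Adj u (τ x))) ∧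
    (∀ x, Even (p x)) ∧ Even i := by
  choose A τ hw ht using exists_twin_wall h
  have tw : ∀ x, Tw G x (τ x) := fun x => ⟨(hw x).tight.1, ht x⟩
  have uniq : ∀ x z, Tw G x z → z = τ x := by
    intro x z hz
    have hzA : z ∉ A x := fun q => (hw x).2.1 (hz.symm.mem h (hw x).2.2.2.1 q)
    obtain ⟨q1, q2, q3⟩ := (hw x).tight
    have e := hz.cnt (A x)
    rw [if_neg (hw x).2.1, if_neg hzA] at e
    have e2 := hz.p_eq h
    exact h.matching (hw x).2.2.2.1 (hw x).2.1 hzA (hw x).2.2.1 q2 (by omega) q3 hz.1 q1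
  have inv : ∀ x, τ (τ x) = x := fun x => (uniq (τ x) x (tw x).symm).symm
  have nfix : ∀ x, τ x ≠ x := fun x => (tw x).1.ne'
  refine ⟨τ, nfix, inv, fun x => (tw x).1, fun x u ux ut => ht x u ux ut, ?_, ?_⟩
  · intro x
    obtain ⟨q1, q2, q3⟩ := (hw x).tight
    rw [← q2]
    unfold dg
    apply even_of_tau nfix inv
    intro u hu
    rw [mem_filter] at hu ⊢
    have hτ : τ u ∈ A x := (tw u).mem h (hw x).2.2.2.1 hu.1
    refine ⟨hτ, ?_⟩
    have xu : x ≠ u := hu.2.ne
    have xτ : x ≠ τ u := fun q => (hw x).2.1 (q ▸ hτ)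
    exact (ht u x xu xτ).1 hu.2
  · have hV : Nonempty V := by
      rw [← Fintype.card_pos_iff, h.card]
      omega
    obtain ⟨x⟩ := hV
    have e : Even (A x).card := even_of_tau nfix inv (fun u hu => (tw u).mem h (hw x).2.2.2.1 hu)
    rw [(hw x).2.2.2.1.1] at e
    obtain ⟨k, hk⟩ := e
    exact ⟨k - 1, by omega⟩

end Pool.Agent.SKT
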